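import Pool.Agent.R33.Cycles

/-!
Chord swaps that preserve the number of vertices: creating a leaf and a handle.
-/

set_option autoImplicit false

namespace Pool.Agent.R33.Chord

open Equiv Equiv.Perm Pool.Agent.R33.Cycles

variable {D : Type} [Fintype D] [DecidableEq D]

/-- A chord diagram, as a fixed-point-free involution: `α x` is the side matched with the
side `x`. -/
def IsDiagram {D : Type} (α : Perm D) : Prop := ∀ x, α (α x) = x ∧ α x ≠ x

/-- `β` is obtained from `α` by replacing the chords `{A, α A}` and `{C, α C}` by `{A, C}` and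
`{α A, α C}`. -/
def IsSwap {D : Type} (α β : Perm D) : Prop :=
  ∃ A C : D, C ≠ A ∧ C ≠ α A ∧ β A = C ∧ β (α A) = α C ∧
    ∀ x, x ≠ A → x ≠ α A → x ≠ C → x ≠ α C → β x = α x

/-- the swap -/
def sw (α : Perm D) (A C : D) : Perm D := α * swap A (α C) * swap (α A) C

omit [Fintype D] in
theorem sw_apply {α : Perm D} (hα : IsDiagram α) {A C : D} (h1 : C ≠ A) (h2 : C ≠ α A) (x : D) :
    sw α A C x = if x = A then C else if x = α A then α C else if x = C then A else
      if x = α C then α A else α x := by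
  have e1 : A ≠ α C := fun h => h2 (by rw [h, (hα C).1])
  have e2 : α A ≠ α C := fun h => h1 (α.injective h).symm
  have e3 := (hα A).2
  have e4 := (hα C).2
  unfold sw
  rw [Perm.mul_apply, Perm.mul_apply]
  by_cases c1 : x = A
  · subst c1
    rw [if_pos rfl, swap_apply_of_ne_of_ne e3.symm h1.symm, swap_apply_left, (hα C).1]
  rw [if_neg c1]
  by_cases c2 : x = α A
  · subst c2
    rw [if_pos rfl, swap_apply_left, swap_apply_of_ne_of_ne h1 e4.symm]
  rw [if_neg c2]
  by_cases c3 : x = C
  · subst c3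
    rw [if_pos rfl, swap_apply_right, swap_apply_of_ne_of_ne e3 e2, (hα A).1]
  rw [if_neg c3, swap_apply_of_ne_of_ne c2 c3]
  by_cases c4 : x = α C
  · subst c4
    rw [if_pos rfl, swap_apply_right]
  rw [if_neg c4, swap_apply_of_ne_of_ne c1 c4]

omit [Fintype D] in
theorem sw_isDiagram {α : Perm D} (hα : IsDiagram α) {A C : D} (h1 : C ≠ A) (h2 : C ≠ α A) :
    IsDiagram (sw α A C) := by
  have e1 : A ≠ α C := fun h => h2 (by rw [h, (hα C).1])
  have e2 : α A ≠ α C := fun h => h1 (α.injective h).symm
  have e3 := (hα A).2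
  have e4 := (hα C).2
  intro x
  have key := fun y => sw_apply hα h1 h2 y
  have kA : sw α A C A = C := by rw [key, if_pos rfl]
  have kA' : sw α A C (α A) = α C := by rw [key, if_neg e3, if_pos rfl]
  have kC : sw α A C C = A := by rw [key, if_neg h1, if_neg h2, if_pos rfl]
  have kC' : sw α A C (α C) = α A := by
    rw [key, if_neg e1.symm, if_neg e2.symm, if_neg e4, if_pos rfl]
  by_cases c1 : x = A
  · subst c1; rw [kA, kC]; exact ⟨rfl, h1⟩
  by_cases c2 : x = α A
  · subst c2; rw [kA', kC']; exact ⟨rfl, e2.symm⟩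
  by_cases c3 : x = C
  · subst c3; rw [kC, kA]; exact ⟨rfl, h1.symm⟩
  by_cases c4 : x = α C
  · subst c4; rw [kC', kA']; exact ⟨rfl, e2⟩
  have kx : sw α A C x = α x := by rw [key, if_neg c1, if_neg c2, if_neg c3, if_neg c4]
  have d1 : α x ≠ A := fun h => c2 (by rw [← h, (hα x).1])
  have d2 : α x ≠ α A := fun h => c1 (α.injective h)
  have d3 : α x ≠ C := fun h => c4 (by rw [← h, (hα x).1])
  have d4 : α x ≠ α C := fun h => c3 (α.injective h)
  have kx' : sw α A C (α x) = x := by
    rw [key, if_neg d1, if_neg d2, if_neg d3, if_neg d4, (hα x).1]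
  rw [kx, kx']
  exact ⟨rfl, (hα x).2⟩

omit [Fintype D] in
theorem sw_isSwap {α : Perm D} (hα : IsDiagram α) {A C : D} (h1 : C ≠ A) (h2 : C ≠ α A) :
    IsSwap α (sw α A C) := by
  have e3 := (hα A).2
  refine ⟨A, C, h1, h2, ?_, ?_, ?_⟩
  · rw [sw_apply hα h1 h2, if_pos rfl]
  · rw [sw_apply hα h1 h2, if_neg e3, if_pos rfl]
  · intro x c1 c2 c3 c4
    rw [sw_apply hα h1 h2, if_neg c1, if_neg c2, if_neg c3, if_neg c4]

omit [Fintype D] in
theorem sw_off {α : Perm D} (hα : IsDiagram α) {A C : D} (h1 : C ≠ A) (h2 : C ≠ α A)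
    {F : Set D} (hF : ∀ f ∈ F, α f ∈ F) (hA : A ∉ F) (hC : C ∉ F) {f : D} (hf : f ∈ F) :
    sw α A C f = α f := by
  have hα2 : ∀ x, x ∉ F → α x ∉ F := fun x hx hx2 => hx (by
    have := hF _ hx2
    rwa [(hα x).1] at this)
  have f1 : f ≠ A := fun h => hA (h ▸ hf)
  have f2 : f ≠ α A := fun h => hα2 A hA (h ▸ hf)
  have f3 : f ≠ C := fun h => hC (h ▸ hf)
  have f4 : f ≠ α C := fun h => hα2 C hC (h ▸ hf)
  rw [sw_apply hα h1 h2, if_neg f1, if_neg f2, if_neg f3, if_neg f4]

/-- One swap, keeping the number of vertices and the chords inside `F`. -/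
def St (ρ : Perm D) (F : Set D) (α β : Perm D) : Prop :=
  IsDiagram β ∧ nc (ρ * β) = nc (ρ * α) ∧ IsSwap α β ∧ ∀ f ∈ F, β f = α f

/-- At most `k` swaps. -/
inductive W (ρ : Perm D) (F : Set D) : ℕ → Perm D → Perm D → Prop
  | refl (k : ℕ) (α : Perm D) : W ρ F k α α
  | step (k : ℕ) (α β γ : Perm D) : St ρ F α β → W ρ F k β γ → W ρ F (k + 1) α γ

variable {ρ : Perm D} {F : Set D}

omit [Fintype D] [DecidableEq D] in
theorem W.trans {k l : ℕ} {α β γ : Perm D} (h1 : W ρ F k α β) (h2 : W ρ F l β γ) :
    W ρ F (k + l) α γ := by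
  induction h1 with
  | refl k α =>
    clear β
    induction h2 with
    | refl l α => exact W.refl _ _
    | step l α β γ h _ ih => exact W.step _ _ _ _ h ih
  | step k α β γ' h _ ih =>
    have := ih h2
    rw [show k + 1 + l = k + l + 1 by ring]
    exact W.step _ _ _ _ h this

omit [Fintype D] [DecidableEq D] in
theorem W.facts {k : ℕ} {α β : Perm D} (h : W ρ F k α β) (hα : IsDiagram α) :
    IsDiagram β ∧ nc (ρ * β) = nc (ρ * α) ∧ ∀ f ∈ F, β f = α f := by
  induction h with
  | refl k α => exact ⟨hα, rfl, fun f _ => rfl⟩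
  | step k α β γ h _ ih =>
    obtain ⟨h1, h2, h3⟩ := ih h.1
    exact ⟨h1, h2.trans h.2.1, fun f hf => (h3 f hf).trans (h.2.2.2 f hf)⟩

omit [Fintype D] [DecidableEq D] in
theorem W.mono {k : ℕ} {F' : Set D} (hFF : F' ⊆ F) {α β : Perm D} (h : W ρ F k α β) :
    W ρ F' k α β := by
  induction h with
  | refl k α => exact W.refl _ _
  | step k α β γ h _ ih =>
    exact W.step _ _ _ _ ⟨h.1, h.2.1, h.2.2.1, fun f hf => h.2.2.2 f (hFF hf)⟩ ih

omit [Fintype D] in
theorem phi_sw (α : Perm D) (A C : D) :
    ρ * sw α A C = ρ * α * swap A (α C) * swap (α A) C := by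
  unfold sw
  simp only [mul_assoc]

theorem not_same_of_nc {σ : Perm D} {a b : D} (h : nc (σ * swap a b) < nc σ) :
    ¬ SameCycle σ a b := by
  intro hs
  by_cases hab : a = b
  · subst hab
    rw [swap_self] at h
    have e : σ * Equiv.refl D = σ := mul_one σ
    rw [e] at h
    exact lt_irrefl _ h
  · have := nc_split hs hab
    omega

theorem same_alpha {α : Perm D} (hα : IsDiagram α) (p : D) :
    SameCycle (ρ * α) (α p) (ρ p) := by
  have := same_next (ρ * α) (α p)
  rwa [Perm.mul_apply, (hα p).1] at this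

omit [Fintype D] in
theorem phi_alpha {α : Perm D} (hα : IsDiagram α) (p : D) : (ρ * α) (α p) = ρ p := by
  rw [Perm.mul_apply, (hα p).1]

/-- Creating the leaf `{p, ρ p}` directly. -/
theorem direct {α : Perm D} (hα : IsDiagram α) {p q r : D} (hq : ρ p = q) (hr : ρ q = r)
    (hpq : p ≠ q) (hne : α p ≠ q) (hsame : ¬ SameCycle (ρ * α) p r)
    (hF : ∀ f ∈ F, α f ∈ F) (hp : p ∉ F) (hqF : q ∉ F) :
    ∃ β, St ρ F α β ∧ β p = q := by
  refine ⟨sw α p q, ⟨sw_isDiagram hα hpq.symm hne.symm, ?_, sw_isSwap hα hpq.symm hne.symm,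
    fun f hf => sw_off hα hpq.symm hne.symm hF hp hqF hf⟩, ?_⟩
  · rw [phi_sw]
    have h1 : SameCycle (ρ * α) (α q) r := hr ▸ same_alpha hα q
    have h2 : SameCycle (ρ * α) (α p) q := hq ▸ same_alpha hα p
    have h3 : ¬ SameCycle (ρ * α) p (α q) := fun h => hsame (h.trans h1)
    have h4 := nc_merge h3
    have h5 := nc_split (merge_mono h3 h2) hne
    omega
  · rw [sw_apply hα hpq.symm hne.symm, if_pos rfl]

/-- One swap that separates the start of `p` from the start of `ρ (ρ p)`. -/
theorem separate (hρ : ∀ a b, SameCycle ρ a b) {α : Perm D} (hα : IsDiagram α) {p q r : D}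
    (hq : ρ p = q) (hr : ρ q = r) (hpq : p ≠ q) (hpr : p ≠ r) (hqr : q ≠ r) (hne : α p ≠ q)
    (h2 : 2 ≤ nc (ρ * α)) (hsame : SameCycle (ρ * α) p r)
    (hF : ∀ f ∈ F, α f ∈ F) (hF2 : ∀ f ∈ F, SameCycle (ρ * α) f (α f))
    (hp : p ∉ F) (hqF : q ∉ F) (hrF : r ∉ F) :
    ∃ β, St ρ F α β ∧ ¬ SameCycle (ρ * β) p r := by
  obtain ⟨φ, hφ⟩ : ∃ φ, φ = ρ * α := ⟨_, rfl⟩
  have hαF : ∀ x, x ∉ F → α x ∉ F := fun x hx hx2 => hx (by
    have := hF _ hx2
    rwa [(hα x).1] at this)
  have hx : SameCycle φ (α p) q := by rw [hφ, ← hq]; exact same_alpha hα p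
  have hy : SameCycle φ (α q) r := by rw [hφ, ← hr]; exact same_alpha hα q
  have hφy : φ (α q) = r := by rw [hφ, phi_alpha hα, hr]
  rw [← hφ] at hsame h2
  -- final packaging
  have pack : ∀ A C : D, C ≠ A → C ≠ α A → A ∉ F → C ∉ F →
      nc (φ * swap A (α C) * swap (α A) C) = nc φ →
      nc (φ * swap A (α C) * swap (α A) C * swap p r) < nc φ →
      ∃ β, St ρ F α β ∧ ¬ SameCycle (ρ * β) p r := by
    intro A C h1 h2' hAF hCF h3 h4
    refine ⟨sw α A C, ⟨sw_isDiagram hα h1 h2', ?_, sw_isSwap hα h1 h2',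
      fun f hf => sw_off hα h1 h2' hF hAF hCF hf⟩, ?_⟩
    · rw [phi_sw, ← hφ]; exact h3
    · rw [phi_sw, ← hφ]
      apply not_same_of_nc
      omega
  have hφ1 : nc (φ * swap p r) = nc φ + 1 := nc_split hsame hpr
  have hφ1n : ¬ SameCycle (φ * swap p r) p r := split_not_same hsame hpr
  have hφ1m : ∀ {u w}, SameCycle (φ * swap p r) u w → SameCycle φ u w := fun h =>
    split_mono hsame hpr h
  have hαr := (hα r).2
  by_cases hpq' : SameCycle φ p q
  · -- `u = v`
    have hyp : α q ≠ p := fun h => hne (by rw [← h, (hα q).1])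
    have hyr : α q ≠ r := by
      intro h
      have h3 : φ r = r := by rw [← h, hφy, h]
      exact hpr (fixed_same h3 hsame.symm).symm
    have hφ1y : SameCycle (φ * swap p r) (α q) r := by
      have := same_next (φ * swap p r) (α q)
      rwa [swap_apply', if_neg hyp, if_neg hyr, hφy] at this
    have hxp : SameCycle φ p (α p) := hpq'.trans hx.symm
    have hyv : SameCycle φ p (α q) := hsame.trans hy.symm
    by_cases hz : SameCycle φ p (α r)
    · -- choose `k`
      have hk : ∃ k, SameCycle φ p k ∧ ¬ SameCycle φ p (α k) := by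
        by_contra hn
        push Not at hn
        obtain ⟨w, hw⟩ := exists_not_same h2 p
        apply hw
        refine closed_same (σ := ρ) (P := fun w => SameCycle φ p w) ?_ (hρ p w)
          (SameCycle.refl _ _)
        intro v hv
        have h3 := (hn v hv).trans (same_next φ (α v))
        rwa [hφ, phi_alpha hα, ← hφ] at h3
      obtain ⟨k, hk1, hk2⟩ := hk
      have hkF : k ∉ F := fun h => hk2 (hk1.trans (by rw [hφ]; exact hF2 k h))
      have kp : k ≠ p := by rintro rfl; exact hk2 hxp
      have kq : k ≠ q := by rintro rfl; exact hk2 hyv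
      have kr : k ≠ r := by rintro rfl; exact hk2 hz
      have ky : k ≠ α q := by
        rintro rfl
        apply hk2
        rw [(hα q).1]
        exact hpq'
      have kz : k ≠ α r := by
        rintro rfl
        apply hk2
        rw [(hα r).1]
        exact hsame
      have k'p : α k ≠ p := fun h => hk2 (h ▸ SameCycle.refl _ _)
      have k'q : α k ≠ q := fun h => hk2 (h ▸ hpq')
      have k'r : α k ≠ r := fun h => hk2 (h ▸ hsame)
      have k'y : α k ≠ α q := fun h => kq (α.injective h)
      have k'z : α k ≠ α r := fun h => kr (α.injective h)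
      have k'k := (hα k).2
      -- `k` is with `p` or with `r` in `φ * swap p r`
      have hk3 : SameCycle (φ * swap p r) p k ∨ SameCycle (φ * swap p r) r k := by
        have h3 : SameCycle (φ * swap p r * swap p r) p k := by rwa [mul_swap_swap]
        rcases (merge_iff hφ1n).1 h3 with h4 | ⟨-, h4⟩ | ⟨h4, -⟩
        · exact Or.inl h4
        · exact Or.inr h4
        · exact absurd h4.symm hφ1n
      rcases hk3 with hk3 | hk3
      · -- swap `{q, α q}`, `{k, α k}` to `{q, k}`, `{α q, α k}`
        refine pack q k kq ky hqF hkF ?_ ?_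
        · have a1 : ¬ SameCycle φ q (α k) := fun h => hk2 (hpq'.trans h)
          have a2 := nc_merge a1
          have a3 : SameCycle φ (α q) k := hyv.symm.trans hk1
          have a4 := nc_split (merge_mono a1 a3) ky.symm
          omega
        · have e : φ * swap q (α k) * swap (α q) k * swap p r =
              φ * swap p r * swap q (α k) * swap (α q) k := by
            have e1 : swap (α q) k * swap p r = swap p r * swap (α q) k := by
              rw [swap_mul_eq_mul_swap, swap_inv, swap_apply_of_ne_of_ne hyp hyr,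
                swap_apply_of_ne_of_ne kp kr]
            have e2 : swap q (α k) * swap p r = swap p r * swap q (α k) := by
              rw [swap_mul_eq_mul_swap, swap_inv, swap_apply_of_ne_of_ne hpq.symm hqr,
                swap_apply_of_ne_of_ne k'p k'r]
            rw [mul_assoc (φ * swap q (α k)), e1, ← mul_assoc, mul_assoc φ, e2, ← mul_assoc]
          rw [e]
          have a1 : ¬ SameCycle (φ * swap p r) q (α k) := fun h =>
            hk2 (hpq'.trans (hφ1m h))
          have a2 := nc_merge a1
          have a3 : ¬ SameCycle (φ * swap p r * swap q (α k)) (α q) k := by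
            intro h
            rcases (merge_iff a1).1 h with h4 | ⟨-, h4⟩ | ⟨h4, -⟩
            · exact hφ1n (hk3.trans (h4.symm.trans hφ1y))
            · exact hk2 (hk1.trans (hφ1m h4).symm)
            · exact hk2 (hyv.trans (hφ1m h4).symm)
          have a4 := nc_merge a3
          omega
      · -- swap `{k, α k}`, `{r, α r}` to `{k, α r}`, `{α k, r}`
        have hzF : α r ∉ F := hαF r hrF
        refine pack k (α r) kz.symm k'z.symm hkF hzF ?_ ?_
        · rw [(hα r).1]
          have a1 : SameCycle φ k r := hk1.symm.trans hsame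
          have a2 := nc_split a1 kr
          have a3 : ¬ SameCycle (φ * swap k r) (α k) (α r) := fun h =>
            hk2 (hz.trans (split_mono a1 kr h).symm)
          have a4 := nc_merge a3
          omega
        · rw [(hα r).1]
          set z' := swap p r (α r) with hz'
          have hz'v : SameCycle φ p z' := by
            rw [hz', swap_apply_def]
            by_cases c1 : α r = p
            · rw [if_pos c1]; exact hsame
            · rw [if_neg c1, if_neg hαr]; exact hz
          have e : φ * swap k r * swap (α k) (α r) * swap p r =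
              φ * swap p r * swap k p * swap (α k) z' := by
            have e1 : swap (α k) (α r) * swap p r = swap p r * swap (α k) z' := by
              rw [swap_mul_eq_mul_swap, swap_inv, swap_apply_of_ne_of_ne k'p k'r]
            have e2 : swap k r * swap p r = swap p r * swap k p := by
              rw [swap_mul_eq_mul_swap, swap_inv, swap_apply_of_ne_of_ne kp kr,
                swap_apply_right]
            rw [mul_assoc (φ * swap k r), e1, ← mul_assoc, mul_assoc φ, e2, ← mul_assoc]
          rw [e]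
          have a1 : ¬ SameCycle (φ * swap p r) k p := fun h => hφ1n (hk3.trans h).symm
          have a2 := nc_merge a1
          have a3 : ¬ SameCycle (φ * swap p r * swap k p) (α k) z' := by
            intro h
            rcases (merge_iff a1).1 h with h4 | ⟨h4, -⟩ | ⟨h4, -⟩
            · exact hk2 (hz'v.trans (hφ1m h4).symm)
            · exact hk2 (hk1.trans (hφ1m h4))
            · exact hk2 (hφ1m h4)
          have a4 := nc_merge a3
          omega
    · -- `k = r`
      have zp : α r ≠ p := fun h => hz (h ▸ SameCycle.refl _ _)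
      have zq : α r ≠ q := fun h => hz (h ▸ hpq')
      refine pack q r hqr.symm hyr.symm hqF hrF ?_ ?_
      · have a1 : ¬ SameCycle φ q (α r) := fun h => hz (hpq'.trans h)
        have a2 := nc_merge a1
        have a4 := nc_split (merge_mono a1 hy) hyr
        omega
      · have e : φ * swap q (α r) * swap (α q) r * swap p r =
            φ * swap p r * swap q (α r) * swap (α q) p := by
          have e1 : swap (α q) r * swap p r = swap p r * swap (α q) p := by
            rw [swap_mul_eq_mul_swap, swap_inv, swap_apply_of_ne_of_ne hyp hyr,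
              swap_apply_right]
          have e2 : swap q (α r) * swap p r = swap p r * swap q (α r) := by
            rw [swap_mul_eq_mul_swap, swap_inv, swap_apply_of_ne_of_ne hpq.symm hqr,
              swap_apply_of_ne_of_ne zp hαr]
          rw [mul_assoc (φ * swap q (α r)), e1, ← mul_assoc, mul_assoc φ, e2, ← mul_assoc]
        rw [e]
        have a1 : ¬ SameCycle (φ * swap p r) q (α r) := fun h => hz (hpq'.trans (hφ1m h))
        have a2 := nc_merge a1
        have a3 : ¬ SameCycle (φ * swap p r * swap q (α r)) (α q) p := by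
          intro h
          rcases (merge_iff a1).1 h with h4 | ⟨-, h4⟩ | ⟨h4, -⟩
          · exact hφ1n (h4.symm.trans hφ1y)
          · exact hz (hφ1m h4).symm
          · exact hz (hyv.trans (hφ1m h4).symm)
        have a4 := nc_merge a3
        omega
  · -- `u ≠ v`
    have hxp : ¬ SameCycle φ p (α p) := fun h => hpq' (h.trans hx)
    have hxr : α p ≠ r := fun h => hxp (h ▸ hsame)
    have hxpne : α p ≠ p := (hα p).2
    by_cases hz : SameCycle φ (α p) (α r)
    · -- swap to `{p, r}`, `{α p, α r}`
      have hpz : ¬ SameCycle φ p (α r) := fun h => hxp (h.trans hz.symm)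
      have zp : α r ≠ p := fun h => hpz (h ▸ SameCycle.refl _ _)
      refine pack p r hpr.symm hxr.symm hp hrF ?_ ?_
      · have a2 := nc_merge hpz
        have a3 : SameCycle (φ * swap p (α r)) (α p) r :=
          (merge_mono hpz hz).trans ((merge_same hpz).symm.trans (merge_mono hpz hsame))
        have a4 := nc_split a3 hxr
        omega
      · have e : φ * swap p (α r) * swap (α p) r * swap p r =
            φ * swap p r * swap r (α r) * swap (α p) p := by
          have e1 : swap (α p) r * swap p r = swap p r * swap (α p) p := by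
            rw [swap_mul_eq_mul_swap, swap_inv, swap_apply_of_ne_of_ne hxpne hxr,
              swap_apply_right]
          have e2 : swap p (α r) * swap p r = swap p r * swap r (α r) := by
            rw [swap_mul_eq_mul_swap, swap_inv, swap_apply_left,
              swap_apply_of_ne_of_ne zp hαr]
          rw [mul_assoc (φ * swap p (α r)), e1, ← mul_assoc, mul_assoc φ, e2, ← mul_assoc]
        rw [e]
        have a1 : ¬ SameCycle (φ * swap p r) r (α r) := fun h => hpz (hsame.trans (hφ1m h))
        have a2 := nc_merge a1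
        have a3 : ¬ SameCycle (φ * swap p r * swap r (α r)) (α p) p := by
          intro h
          rcases (merge_iff a1).1 h with h4 | ⟨h4, -⟩ | ⟨-, h4⟩
          · exact hxp (hφ1m h4).symm
          · exact hxp (hsame.trans (hφ1m h4))
          · exact hφ1n h4.symm
        have a4 := nc_merge a3
        omega
    · -- swap to `{p, α r}`, `{α p, r}`
      have zp : α r ≠ p := by
        intro h
        apply hxp
        rw [← h, (hα r).1, h]
        exact hsame
      have zx : α r ≠ α p := fun h => hpr (α.injective h).symm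
      have hzF : α r ∉ F := hαF r hrF
      refine pack p (α r) zp zx hp hzF ?_ ?_
      · rw [(hα r).1]
        have a3 : ¬ SameCycle (φ * swap p r) (α p) (α r) := fun h => hz (hφ1m h)
        have a4 := nc_merge a3
        omega
      · rw [(hα r).1]
        set z' := swap p r (α r) with hz'
        have a3 : ¬ SameCycle (φ * swap p r) (α p) (α r) := fun h => hz (hφ1m h)
        have a4 := nc_merge a3
        -- here we show directly that `p` and `r` are separated
        have a5 : ¬ SameCycle (φ * swap p r * swap (α p) (α r)) p r := by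
          intro h
          rcases (merge_iff a3).1 h with h4 | ⟨h4, -⟩ | ⟨-, h4⟩
          · exact hφ1n h4
          · exact hxp (hφ1m h4).symm
          · exact hxp (hsame.trans (hφ1m h4).symm)
        have a6 := nc_merge a5
        omega

/-- Creating the leaf `{p, ρ p}` in at most two swaps. -/
theorem leaf (hρ : ∀ a b, SameCycle ρ a b) {α : Perm D} (hα : IsDiagram α) {p q r : D}
    (hq : ρ p = q) (hr : ρ q = r) (hpq : p ≠ q) (hpr : p ≠ r) (hqr : q ≠ r)
    (h2 : 2 ≤ nc (ρ * α))
    (hF : ∀ f ∈ F, α f ∈ F) (hF2 : ∀ f ∈ F, SameCycle (ρ * α) f (α f))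
    (hp : p ∉ F) (hqF : q ∉ F) (hrF : r ∉ F) :
    ∃ β, W ρ F 2 α β ∧ β p = q := by
  by_cases hne : α p = q
  · exact ⟨α, W.refl _ _, hne⟩
  by_cases hsame : SameCycle (ρ * α) p r
  · obtain ⟨β, hβ, hs⟩ := separate hρ hα hq hr hpq hpr hqr hne h2 hsame hF hF2 hp hqF hrF
    by_cases hne' : β p = q
    · exact ⟨β, W.step _ _ _ _ hβ (W.refl _ _), hne'⟩
    · have hF' : ∀ f ∈ F, β f ∈ F := fun f hf => by rw [hβ.2.2.2 f hf]; exact hF f hf
      obtain ⟨γ, hγ, hg⟩ := direct hβ.1 hq hr hpq hne' hs hF' hp hqF
      exact ⟨γ, W.step _ _ _ _ hβ (W.step _ _ _ _ hγ (W.refl _ _)), hg⟩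
  · obtain ⟨γ, hγ, hg⟩ := direct hα hq hr hpq hne hsame hF hp hqF
    exact ⟨γ, W.step _ _ _ _ hγ (W.refl _ _), hg⟩

/-- From a leaf to a handle in two swaps, if there are two vertices. -/
theorem handle {α : Perm D} (hα : IsDiagram α) {p q r s : D}
    (hq : ρ p = q) (hr : ρ q = r) (hs : ρ r = s) (hpq : p ≠ q) (hpr : p ≠ r) (hqr : q ≠ r)
    (hps : p ≠ s) (hqs : q ≠ s) (hrs : r ≠ s) (h2 : nc (ρ * α) = 2) (hleaf : α p = q)
    (hF : ∀ f ∈ F, α f ∈ F) (hp : p ∉ F) (hqF : q ∉ F) (hrF : r ∉ F) (hsF : s ∉ F) :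
    ∃ β, W ρ F 2 α β ∧ β p = r ∧ β q = s := by
  obtain ⟨φ, hφ⟩ : ∃ φ, φ = ρ * α := ⟨_, rfl⟩
  have hαq : α q = p := by rw [← hleaf, (hα p).1]
  have hφq : φ q = q := by rw [hφ, Perm.mul_apply, hαq, hq]
  rw [← hφ] at h2
  have hqx : ∀ w, SameCycle φ q w → q = w := fun w hw => fixed_same hφq hw
  have hpq' : ¬ SameCycle φ p q := fun h => hpq (hqx p h.symm).symm
  have hall : ∀ w, w ≠ q → SameCycle φ p w := fun w hw => by
    rcases same_of_nc_two h2 hpq' w with h | h
    · exact h
    · exact absurd (hqx w h).symm hw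
  -- partners
  have xp : α r ≠ p := fun h => hqr (by rw [← hleaf, ← h, (hα r).1])
  have xq : α r ≠ q := fun h => hpr (α.injective (by rw [h, hleaf]))
  have xr := (hα r).2
  have xs : α r ≠ s := by
    intro h
    have h3 : φ s = s := by rw [hφ, Perm.mul_apply, ← h, (hα r).1, hs, h]
    have h4 := fixed_same h3 (hall s hqs.symm).symm
    exact hps h4.symm
  have yp : α s ≠ p := fun h => hqs (by rw [← hleaf, ← h, (hα s).1])
  have yq : α s ≠ q := fun h => hps (α.injective (by rw [h, hleaf]))
  have yr : α s ≠ r := fun h => xs (by rw [← h, (hα s).1])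
  have yx : α s ≠ α r := fun h => hrs (α.injective h).symm
  have ys := (hα s).2
  have hrp : r ≠ α p := by rw [hleaf]; exact hqr.symm
  -- first swap
  have hd1 := sw_isDiagram hα hpr.symm hrp
  have k1 := fun w => sw_apply hα hpr.symm hrp w
  rw [hleaf] at k1
  have b1p : sw α p r p = r := by rw [k1, if_pos rfl]
  have b1q : sw α p r q = α r := by rw [k1, if_neg hpq.symm, if_pos rfl]
  have b1s : sw α p r s = α s := by
    rw [k1, if_neg hps.symm, if_neg hqs.symm, if_neg hrs.symm, if_neg xs.symm]
  have hφ1 : ρ * sw α p r = φ * swap p (α r) * swap q r := by rw [phi_sw, hleaf, hφ]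
  obtain ⟨ψ, hψ⟩ : ∃ ψ, ψ = φ * swap p (α r) := ⟨_, rfl⟩
  obtain ⟨φ1, hφ1'⟩ : ∃ φ1, φ1 = ψ * swap q r := ⟨_, rfl⟩
  have hpx : SameCycle φ p (α r) := hall _ xq
  have c1 : nc ψ = 3 := by rw [hψ, nc_split hpx xp.symm, h2]
  have hψq : ψ q = q := by
    rw [hψ, swap_apply', if_neg hpq.symm, if_neg xq.symm, hφq]
  have hqr' : ¬ SameCycle ψ q r := fun h => hqr (fixed_same hψq h)
  have c2 : nc φ1 = 2 := by
    have := nc_merge hqr'
    rw [← hφ1'] at this
    omega
  have hst1 : St ρ F α (sw α p r) := by
    refine ⟨hd1, ?_, sw_isSwap hα hpr.symm hrp, fun f hf =>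
      sw_off hα hpr.symm hrp hF hp hrF hf⟩
    rw [hφ1, ← hψ, ← hφ1', c2, ← hφ, h2]
  -- second swap
  have hF' : ∀ f ∈ F, sw α p r f ∈ F := fun f hf => by
    rw [hst1.2.2.2 f hf]; exact hF f hf
  have hsx : s ≠ sw α p r q := by rw [b1q]; exact xs.symm
  have hφ2 : ρ * sw (sw α p r) q s = φ1 * swap q (α s) * swap (α r) s := by
    rw [phi_sw, b1q, b1s, hφ1, ← hψ, ← hφ1']
  have hxs' : ¬ SameCycle ψ (α r) s := by
    intro h
    have h3 : ¬ SameCycle ψ p (α r) := by rw [hψ]; exact split_not_same hpx xp.symm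
    have h4 : ψ p = s := by
      rw [hψ, swap_apply', if_pos rfl, hφ, phi_alpha hα, hs]
    have h5 := same_next ψ p
    rw [h4] at h5
    exact h3 (h5.trans h.symm)
  have hxs1 : ¬ SameCycle φ1 (α r) s := by
    rw [hφ1']
    intro h
    rcases (merge_iff hqr').1 h with h4 | ⟨h4, -⟩ | ⟨-, h4⟩
    · exact hxs' h4
    · exact xq (fixed_same hψq h4).symm
    · exact hqs (fixed_same hψq h4)
  have c3 : nc (φ1 * swap q (α s) * swap (α r) s) = 2 := by
    by_cases h : SameCycle φ1 q (α s)
    · have a1 := nc_split h yq.symm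
      have a2 : ¬ SameCycle (φ1 * swap q (α s)) (α r) s := fun h' =>
        hxs1 (split_mono h yq.symm h')
      have a3 := nc_merge a2
      omega
    · have a1 := nc_merge h
      have a2 : SameCycle (φ1 * swap q (α s)) (α r) s := same_of_nc_one (by omega) _ _
      have a3 := nc_split a2 xs
      omega
  have hst2 : St ρ F (sw α p r) (sw (sw α p r) q s) := by
    refine ⟨sw_isDiagram hd1 hqs.symm hsx, ?_, sw_isSwap hd1 hqs.symm hsx, fun f hf =>
      sw_off hd1 hqs.symm hsx hF' hqF hsF hf⟩
    rw [hφ2, c3, hφ1, ← hψ, ← hφ1', c2]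
  refine ⟨_, W.step _ _ _ _ hst1 (W.step _ _ _ _ hst2 (W.refl _ _)), ?_, ?_⟩
  · rw [sw_apply hd1 hqs.symm hsx, if_neg hpq, b1q, if_neg xp.symm, if_neg hps, b1s,
      if_neg yp.symm, b1p]
  · rw [sw_apply hd1 hqs.symm hsx, if_pos rfl]

end Pool.Agent.R33.Chord
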