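import Mathlib

/-!
The number of cycles of a permutation under multiplication by a transposition.
-/

set_option autoImplicit false

namespace Pool.Agent.R33.Cycles

open Equiv Equiv.Perm

variable {V : Type} [Fintype V] [DecidableEq V]

/-- The number of cycles of a permutation, fixed points included. -/
noncomputable def nc {V : Type} (σ : Perm V) : ℕ := Nat.card (Quotient (SameCycle.setoid σ))

omit [Fintype V] in
theorem swap_apply' (σ : Perm V) (a b v : V) :
    (σ * swap a b) v = if v = a then σ b else if v = b then σ a else σ v := by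
  rw [Perm.mul_apply, swap_apply_def]
  split_ifs <;> rfl

/-- A set closed under `σ` is closed under `SameCycle`. -/
theorem closed_same {σ : Perm V} {P : V → Prop} (hP : ∀ v, P v → P (σ v)) {u w : V}
    (h : SameCycle σ u w) (hu : P u) : P w := by
  obtain ⟨k, -, rfl⟩ := h.exists_pow_eq'
  induction k with
  | zero => simpa using hu
  | succ k ih =>
    rw [pow_succ', Perm.mul_apply]
    exact hP _ (ih ⟨k, by rw [zpow_natCast]⟩)

theorem same_next (σ : Perm V) (v : V) : SameCycle σ v (σ v) :=
  sameCycle_apply_right.2 (SameCycle.refl _ _)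

theorem fixed_same {σ : Perm V} {v w : V} (hv : σ v = v) (h : SameCycle σ v w) : v = w := by
  refine closed_same (P := fun x => v = x) ?_ h rfl
  rintro x rfl
  exact hv.symm

section merge

variable {σ : Perm V} {a b : V}

/-- The relation of being in the same cycle after merging the cycles of `a` and `b`. -/
def R (σ : Perm V) (a b u w : V) : Prop :=
  SameCycle σ u w ∨ (SameCycle σ a u ∧ SameCycle σ b w) ∨ (SameCycle σ b u ∧ SameCycle σ a w)

theorem R_closed (u : V) (w : V) (h : R σ a b u w) : R σ a b u ((σ * swap a b) w) := by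
  rw [swap_apply']
  unfold R at *
  by_cases hwa : w = a
  · subst hwa
    rw [if_pos rfl]
    rcases h with h | ⟨h1, h2⟩ | ⟨h1, h2⟩
    · right; left
      exact ⟨h.symm, same_next σ b⟩
    · -- u ~ w = a, b ~ w
      left
      exact (h1.symm.trans h2.symm).trans (same_next σ b)
    · left
      exact h1.symm.trans (same_next σ b)
  · rw [if_neg hwa]
    by_cases hwb : w = b
    · subst hwb
      rw [if_pos rfl]
      rcases h with h | ⟨h1, h2⟩ | ⟨h1, h2⟩
      · right; right
        exact ⟨h.symm, same_next σ a⟩
      · left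
        exact h1.symm.trans (same_next σ a)
      · left
        exact (h1.symm.trans h2.symm).trans (same_next σ a)
    · rw [if_neg hwb]
      rcases h with h | ⟨h1, h2⟩ | ⟨h1, h2⟩
      · left; exact h.trans (same_next σ w)
      · right; left; exact ⟨h1, h2.trans (same_next σ w)⟩
      · right; right; exact ⟨h1, h2.trans (same_next σ w)⟩

theorem same_imp_R {u w : V} (h : SameCycle (σ * swap a b) u w) : R σ a b u w :=
  closed_same (P := fun w => R σ a b u w) (R_closed u) h (Or.inl (SameCycle.refl _ _))

theorem mul_swap_swap (σ : Perm V) (a b : V) : σ * swap a b * swap a b = σ := by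
  rw [mul_assoc, swap_mul_self, mul_one]

/-- splitting -/
theorem split_not_same (h : SameCycle σ a b) (hne : a ≠ b) :
    ¬ SameCycle (σ * swap a b) a b := by
  classical
  have hex : ∃ k : ℕ, 0 < k ∧ (σ ^ k) a = b := by
    obtain ⟨i, h1, -, h2⟩ := h.exists_pow_eq''
    exact ⟨i, h1, h2⟩
  set k := Nat.find hex with hk
  have hk1 : 0 < k ∧ (σ ^ k) a = b := Nat.find_spec hex
  have hmin : ∀ m, m < k → ¬ (0 < m ∧ (σ ^ m) a = b) := fun m hm => Nat.find_min hex hm
  intro hs
  have hcl : ∀ v, (∃ j, 1 ≤ j ∧ j ≤ k ∧ (σ ^ j) a = v) →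
      (∃ j, 1 ≤ j ∧ j ≤ k ∧ (σ ^ j) a = (σ * swap a b) v) := by
    rintro v ⟨j, hj1, hj2, rfl⟩
    have hja : (σ ^ j) a ≠ a := by
      intro he
      rcases Nat.lt_or_ge j k with hjk | hjk
      · apply hmin (k - j) (by omega)
        refine ⟨by omega, ?_⟩
        have : (σ ^ k) a = (σ ^ (k - j)) ((σ ^ j) a) := by
          rw [← Perm.mul_apply, ← pow_add]
          congr 2
          omega
        rw [he] at this
        rw [← this, hk1.2]
      · have : j = k := by omega
        rw [this, hk1.2] at he
        exact hne he.symm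
    rw [swap_apply', if_neg hja]
    by_cases hjb : (σ ^ j) a = b
    · rw [if_pos hjb]
      exact ⟨1, le_rfl, hk1.1, by rw [pow_one]⟩
    · rw [if_neg hjb]
      have hjk : j ≠ k := by
        rintro rfl
        exact hjb hk1.2
      exact ⟨j + 1, by omega, by omega, by rw [pow_succ', Perm.mul_apply]⟩
  obtain ⟨j, hj1, hj2, hj3⟩ := closed_same (P := fun v => ∃ j, 1 ≤ j ∧ j ≤ k ∧ (σ ^ j) a = v) hcl
    hs.symm ⟨k, hk1.1, le_rfl, hk1.2⟩
  rcases Nat.lt_or_ge j k with hjk | hjk
  · apply hmin (k - j) (by omega)
    refine ⟨by omega, ?_⟩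
    have : (σ ^ k) a = (σ ^ (k - j)) ((σ ^ j) a) := by
      rw [← Perm.mul_apply, ← pow_add]
      congr 2
      omega
    rw [hj3] at this
    rw [← this, hk1.2]
  · have : j = k := by omega
    rw [this, hk1.2] at hj3
    exact hne hj3.symm

/-- merging -/
theorem merge_same (h : ¬ SameCycle σ a b) : SameCycle (σ * swap a b) a b := by
  by_contra hn
  have hne : a ≠ b := fun h' => h (h' ▸ SameCycle.refl _ _)
  -- σ = (σ * swap a b) * swap a b
  have h1 : ∀ v, SameCycle (σ * swap a b) a v → v ≠ b := by
    rintro v hv rfl
    exact hn hv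
  -- the cycle of `a` under `σ * swap a b` misses `b`; follow it backwards to `σ b`
  have h2 : SameCycle (σ * swap a b) a (σ b) := by
    have := same_next (σ * swap a b) a
    rwa [swap_apply', if_pos rfl] at this
  -- the `σ`-cycle of `σ b` is closed
  have h3 : ∀ k : ℕ, SameCycle (σ * swap a b) a ((σ ^ (k + 1)) b) := by
    intro k
    induction k with
    | zero => simpa using h2
    | succ k ih =>
      rw [pow_succ', Perm.mul_apply]
      set y := (σ ^ (k + 1)) b with hy
      have hyb : y ≠ b := h1 y ih
      have hya : y ≠ a := by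
        intro e
        apply h
        refine SameCycle.symm ⟨((k + 1 : ℕ) : ℤ), ?_⟩
        rw [zpow_natCast, ← hy, e]
      have := same_next (σ * swap a b) y
      rw [swap_apply', if_neg hya, if_neg hyb] at this
      exact ih.trans this
  have h4 := h3 (orderOf σ - 1)
  have h5 : orderOf σ - 1 + 1 = orderOf σ := Nat.sub_add_cancel (orderOf_pos σ)
  rw [h5, pow_orderOf_eq_one] at h4
  exact hn h4

theorem merge_mono (h : ¬ SameCycle σ a b) {u w : V} (huw : SameCycle σ u w) :
    SameCycle (σ * swap a b) u w := by
  have hab := merge_same h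
  have hne : a ≠ b := fun h' => h (h' ▸ SameCycle.refl _ _)
  have h1 : SameCycle (σ * swap a b * swap a b) u w := by rwa [mul_swap_swap]
  rcases same_imp_R h1 with h2 | ⟨h2, h3⟩ | ⟨h2, h3⟩
  · exact h2
  · exact h2.symm.trans (hab.trans h3)
  · exact h2.symm.trans (hab.symm.trans h3)

theorem merge_iff (h : ¬ SameCycle σ a b) {u w : V} :
    SameCycle (σ * swap a b) u w ↔ R σ a b u w := by
  constructor
  · exact same_imp_R
  · have hab := merge_same h
    rintro (h1 | ⟨h1, h2⟩ | ⟨h1, h2⟩)
    · exact merge_mono h h1
    · exact (merge_mono h h1).symm.trans (hab.trans (merge_mono h h2))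
    · exact (merge_mono h h1).symm.trans (hab.symm.trans (merge_mono h h2))

theorem split_mono (h : SameCycle σ a b) (hne : a ≠ b) {u w : V}
    (huw : SameCycle (σ * swap a b) u w) : SameCycle σ u w := by
  have := merge_mono (split_not_same h hne) huw
  rwa [mul_swap_swap] at this

theorem nc_merge (h : ¬ SameCycle σ a b) : nc (σ * swap a b) + 1 = nc σ := by
  classical
  unfold nc
  let f : {q : Quotient (SameCycle.setoid σ) // q ≠ Quotient.mk _ b} →
      Quotient (SameCycle.setoid (σ * swap a b)) := fun q =>
    Quotient.map' (s₁ := SameCycle.setoid σ) (s₂ := SameCycle.setoid (σ * swap a b)) id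
      (fun x y hxy => merge_mono h hxy) q.1
  have hf : Function.Bijective f := by
    constructor
    · rintro ⟨q1, h1⟩ ⟨q2, h2⟩ hq
      induction q1 using Quotient.inductionOn with
      | h u =>
        induction q2 using Quotient.inductionOn with
        | h w =>
          have h3 : SameCycle (σ * swap a b) u w := Quotient.exact hq
          apply Subtype.ext
          apply Quotient.sound
          show SameCycle σ u w
          rcases (merge_iff h).1 h3 with h4 | ⟨-, h4⟩ | ⟨h4, -⟩
          · exact h4
          · exact absurd (Quotient.sound (s := SameCycle.setoid σ) h4.symm) h2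
          · exact absurd (Quotient.sound (s := SameCycle.setoid σ) h4.symm) h1
    · intro q
      induction q using Quotient.inductionOn with
      | h w =>
        by_cases hw : SameCycle σ b w
        · refine ⟨⟨Quotient.mk _ a, fun he => h (Quotient.exact he)⟩, ?_⟩
          exact Quotient.sound (s := SameCycle.setoid (σ * swap a b))
            ((merge_same h).trans (merge_mono h hw))
        · exact ⟨⟨Quotient.mk _ w, fun he => hw (Quotient.exact he).symm⟩, rfl⟩
  rw [← Nat.card_congr (Equiv.ofBijective f hf), Nat.card_eq_fintype_card,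
    Nat.card_eq_fintype_card, Fintype.card_subtype_compl, Fintype.card_subtype_eq]
  have : 0 < Fintype.card (Quotient (SameCycle.setoid σ)) := Fintype.card_pos_iff.2 ⟨Quotient.mk _ a⟩
  omega

theorem nc_split (h : SameCycle σ a b) (hne : a ≠ b) : nc (σ * swap a b) = nc σ + 1 := by
  have := nc_merge (split_not_same h hne)
  rw [mul_swap_swap] at this
  exact this.symm

end merge

/-- with one cycle, all elements are in it -/
theorem same_of_nc_one {σ : Perm V} (h : nc σ = 1) (u w : V) : SameCycle σ u w := by
  unfold nc at h
  rw [Nat.card_eq_one_iff_unique] at h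
  have := h.1.elim (Quotient.mk (SameCycle.setoid σ) u) (Quotient.mk _ w)
  exact Quotient.exact this

/-- with two cycles, every element is in one of two different ones -/
theorem same_of_nc_two {σ : Perm V} (h : nc σ = 2) {a b : V} (hab : ¬ SameCycle σ a b) (w : V) :
    SameCycle σ a w ∨ SameCycle σ b w := by
  have h1 := nc_merge hab
  have h2 := same_of_nc_one (σ := σ * swap a b) (by omega) a w
  rcases (merge_iff hab).1 h2 with h3 | ⟨-, h3⟩ | ⟨-, h3⟩
  · exact Or.inl h3
  · exact Or.inr h3
  · exact Or.inl h3

/-- with at least two cycles, not all elements are in the same one -/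
theorem exists_not_same {σ : Perm V} (h : 2 ≤ nc σ) (u : V) : ∃ w, ¬ SameCycle σ u w := by
  by_contra hn
  push Not at hn
  have h1 : nc σ = 1 := by
    unfold nc
    rw [Nat.card_eq_one_iff_unique]
    refine ⟨⟨fun q1 q2 => ?_⟩, ⟨Quotient.mk _ u⟩⟩
    induction q1 using Quotient.inductionOn with
    | h x =>
      induction q2 using Quotient.inductionOn with
      | h y => exact Quotient.sound (s := SameCycle.setoid σ) ((hn x).symm.trans (hn y))
  omega

end Pool.Agent.R33.Cycles
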