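import Mathlib

/-!
Helper file for MP_efdca5_co: the decay number and clique covers.
-/

set_option autoImplicit false

namespace Pool.Agent.R33.Decay

open Finset Classical

/-- Any two distinct vertices of `G` are joined by `k` pairwise edge-disjoint paths. -/
def KEdgeConnected {V : Type} (G : SimpleGraph V) (k : ℕ) : Prop :=
  ∀ u v : V, u ≠ v → ∃ P : Fin k → G.Walk u v, (∀ i, (P i).IsPath) ∧
    ∀ i j, i ≠ j → ∀ e, e ∈ (P i).edges → e ∉ (P j).edges

section

variable {V : Type} [Fintype V] {G : SimpleGraph V} {A : Set (Sym2 V)}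
  {θ : ℕ} (c : V → Fin θ)

/-- The components of `G - A`. -/
abbrev Comp (G : SimpleGraph V) (A : Set (Sym2 V)) : Type := (G.deleteEdges A).ConnectedComponent

noncomputable instance : Fintype (Comp G A) := Fintype.ofFinite _

/-- the component of a vertex -/
abbrev π (G : SimpleGraph V) (A : Set (Sym2 V)) (v : V) : Comp G A :=
  (G.deleteEdges A).connectedComponentMk v

/-- The graph in which vertices of the same colour are adjacent, and vertices adjacent in
`G - A`. -/
def H (G : SimpleGraph V) (A : Set (Sym2 V)) : SimpleGraph V where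
  Adj u v := u ≠ v ∧ (c u = c v ∨ (G.deleteEdges A).Adj u v)
  symm := ⟨fun _ _ h => ⟨h.1.symm, h.2.elim (fun h => Or.inl h.symm) fun h => Or.inr h.symm⟩⟩
  loopless := ⟨fun _ h => h.1 rfl⟩

abbrev K (G : SimpleGraph V) (A : Set (Sym2 V)) : Type := (H c G A).ConnectedComponent

noncomputable instance : Fintype (K c G A) := Fintype.ofFinite _

abbrev q (G : SimpleGraph V) (A : Set (Sym2 V)) (v : V) : K c G A :=
  (H c G A).connectedComponentMk v

theorem q_of_c {u v : V} (h : c u = c v) : q c G A u = q c G A v := by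
  by_cases huv : u = v
  · rw [huv]
  · exact SimpleGraph.ConnectedComponent.sound
      (SimpleGraph.Adj.reachable (show (H c G A).Adj u v from ⟨huv, Or.inl h⟩))

theorem le_H : G.deleteEdges A ≤ H c G A := fun _ _ h => ⟨h.ne, Or.inr h⟩

theorem q_of_π {u v : V} (h : π G A u = π G A v) : q c G A u = q c G A v := by
  have := SimpleGraph.ConnectedComponent.exact h
  exact SimpleGraph.ConnectedComponent.sound (this.mono (le_H c))

/-- the used colours -/
noncomputable def used : Finset (Fin θ) := univ.image c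

theorem mem_used (v : V) : c v ∈ used c := mem_image_of_mem _ (mem_univ v)

/-- incident pairs -/
noncomputable def Im (G : SimpleGraph V) (A : Set (Sym2 V)) : Finset (Fin θ × Comp G A) :=
  univ.image fun v => (c v, π G A v)

/-! (c) -/
theorem card_K_le : Fintype.card (K c G A) ≤ (used c).card := by
  have hout : ∀ x : K c G A, ∃ v, q c G A v = x := fun x => x.exists_rep
  choose r hr using hout
  rw [← card_univ]
  refine card_le_card_of_injOn (fun x => c (r x)) ?_ ?_
  · intro x _
    exact mem_image_of_mem _ (mem_univ _)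
  · intro x _ y _ h
    rw [← hr x, ← hr y]
    exact q_of_c c h

theorem card_used_le : (used c).card ≤ θ := by
  have := card_le_univ (used c)
  simpa using this

/-! (a) -/

/-- The apex graph. -/
def Apex (G : SimpleGraph V) (A : Set (Sym2 V)) (r : K c G A → V) :
    SimpleGraph (Option ((used c : Finset (Fin θ)) ⊕ Comp G A)) :=
  SimpleGraph.fromRel fun x y =>
    (∃ v, x = some (Sum.inl ⟨c v, mem_used c v⟩) ∧
      y = some (Sum.inr (π G A v))) ∨
    (∃ k, x = none ∧ y = some (Sum.inr (π G A (r k))))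

theorem apex_connected (r : K c G A → V) (hr : ∀ x, q c G A (r x) = x) :
    (Apex c G A r).Connected := by
  have e1 : ∀ v, (Apex c G A r).Adj
      (some (Sum.inl ⟨c v, mem_used c v⟩)) (some (Sum.inr (π G A v))) := by
    intro v
    rw [Apex, SimpleGraph.fromRel_adj]
    exact ⟨by simp, Or.inl (Or.inl ⟨v, rfl, rfl⟩)⟩
  have e2 : ∀ k, (Apex c G A r).Adj none (some (Sum.inr (π G A (r k)))) := by
    intro k
    rw [Apex, SimpleGraph.fromRel_adj]
    exact ⟨by simp, Or.inl (Or.inr ⟨k, rfl, rfl⟩)⟩
  have e3 : ∀ u v, (H c G A).Reachable u v →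
      (Apex c G A r).Reachable (some (Sum.inr (π G A u))) (some (Sum.inr (π G A v))) := by
    intro u v h
    obtain ⟨p⟩ := h
    induction p with
    | nil => exact SimpleGraph.Reachable.refl _
    | @cons a b d hab _ ih =>
      refine SimpleGraph.Reachable.trans ?_ ih
      rcases hab.2 with h | h
      · have h1 := (e1 a).symm.reachable
        have h2 := (e1 b).reachable
        have h3 : (⟨c a, mem_used c a⟩ : (used c : Finset (Fin θ))) =
            ⟨c b, mem_used c b⟩ := Subtype.ext h
        rw [h3] at h1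
        exact h1.trans h2
      · have : π G A a = π G A b := SimpleGraph.ConnectedComponent.sound h.reachable
        rw [this]
  have e4 : ∀ v, (Apex c G A r).Reachable (some (Sum.inr (π G A v))) none := by
    intro v
    have h1 : (H c G A).Reachable v (r (q c G A v)) :=
      SimpleGraph.ConnectedComponent.exact (hr _).symm
    exact (e3 _ _ h1).trans (e2 _).symm.reachable
  have e5 : ∀ x, (Apex c G A r).Reachable x none := by
    intro x
    rcases x with _ | ⟨⟨i, hi⟩ | j⟩
    · exact SimpleGraph.Reachable.refl _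
    · obtain ⟨v, -, rfl⟩ := mem_image.1 hi
      exact (e1 v).reachable.trans (e4 v)
    · obtain ⟨v, rfl⟩ := j.exists_rep
      exact e4 v
  rw [SimpleGraph.connected_iff]
  exact ⟨fun x y => (e5 x).trans (e5 y).symm, ⟨none⟩⟩

theorem key_a : (used c).card + Fintype.card (Comp G A) ≤
    (Im c G A).card + Fintype.card (K c G A) := by
  have hout : ∀ x : K c G A, ∃ v, q c G A v = x := fun x => x.exists_rep
  choose r hr using hout
  have h1 := (apex_connected c r hr).card_vert_le_card_edgeSet_add_one
  have h2 : Nat.card (Option ((used c : Finset (Fin θ)) ⊕ Comp G A)) =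
      (used c).card + Fintype.card (Comp G A) + 1 := by
    rw [Nat.card_eq_fintype_card]
    simp
  -- the edges
  let F1 : Fin θ × Comp G A → Sym2 (Option ((used c : Finset (Fin θ)) ⊕ Comp G A)) := fun x =>
    if h : x.1 ∈ used c then s(some (Sum.inl ⟨x.1, h⟩), some (Sum.inr x.2)) else s(none, none)
  let F2 : K c G A → Sym2 (Option ((used c : Finset (Fin θ)) ⊕ Comp G A)) := fun k =>
    s(none, some (Sum.inr (π G A (r k))))
  have h3 : (Apex c G A r).edgeSet ⊆ ((Im c G A).image F1 ∪ univ.image F2 : Finset _) := by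
    intro e he
    induction e using Sym2.ind with
    | _ x y =>
      rw [SimpleGraph.mem_edgeSet, Apex, SimpleGraph.fromRel_adj] at he
      rw [mem_coe, mem_union, mem_image, mem_image]
      rcases he.2 with (⟨v, rfl, rfl⟩ | ⟨k, rfl, rfl⟩) | (⟨v, rfl, rfl⟩ | ⟨k, rfl, rfl⟩)
      · left
        refine ⟨(c v, π G A v), mem_image_of_mem _ (mem_univ v), ?_⟩
        simp only [F1]
        rw [dif_pos (mem_used c v)]
      · right
        exact ⟨k, mem_univ _, rfl⟩
      · left
        refine ⟨(c v, π G A v), mem_image_of_mem _ (mem_univ v), ?_⟩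
        simp only [F1]
        rw [dif_pos (mem_used c v)]
        exact Sym2.eq_swap
      · right
        exact ⟨k, mem_univ _, Sym2.eq_swap⟩
  have h4 : Nat.card (Apex c G A r).edgeSet ≤ (Im c G A).card + Fintype.card (K c G A) := by
    have h5 : Nat.card (Apex c G A r).edgeSet = (Apex c G A r).edgeSet.ncard := rfl
    rw [h5]
    calc (Apex c G A r).edgeSet.ncard
        ≤ ((((Im c G A).image F1 ∪ univ.image F2 : Finset _) : Set _)).ncard :=
          Set.ncard_le_ncard h3 (finite_toSet _)
      _ = ((Im c G A).image F1 ∪ univ.image F2).card := Set.ncard_coe_finset _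
      _ ≤ ((Im c G A).image F1).card + (univ.image F2).card := card_union_le _ _
      _ ≤ (Im c G A).card + Fintype.card (K c G A) :=
          add_le_add card_image_le (card_image_le.trans (by simp))
  omega

/-! The two kinds of edges of `A`. -/

/-- edges of `G` between different classes -/
noncomputable def Dif (G : SimpleGraph V) (A : Set (Sym2 V)) : Finset (Sym2 V) :=
  univ.filter fun e => e ∈ G.edgeSet ∧ ¬ (e.map (q c G A)).IsDiag

/-- edges of `A` between vertices of the same colour -/
noncomputable def Sam (A : Set (Sym2 V)) : Finset (Sym2 V) :=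
  univ.filter fun e => e ∈ A ∧ (e.map c).IsDiag

theorem dif_subset {e : Sym2 V} (he : e ∈ Dif c G A) : e ∈ A := by
  rw [Dif, mem_filter] at he
  obtain ⟨-, h1, h2⟩ := he
  induction e using Sym2.ind with
  | _ x y =>
    by_contra hA
    apply h2
    rw [Sym2.map_mk, Sym2.mk_isDiag_iff]
    apply q_of_π
    apply SimpleGraph.ConnectedComponent.sound
    apply SimpleGraph.Adj.reachable
    rw [SimpleGraph.deleteEdges_adj]
    exact ⟨h1, hA⟩

theorem card_add_le : (Dif c G A).card + (Sam c A).card ≤ A.ncard := by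
  have hdis : Disjoint (Dif c G A) (Sam c A) := by
    rw [Finset.disjoint_left]
    intro e h1 h2
    rw [Dif, mem_filter] at h1
    rw [Sam, mem_filter] at h2
    apply h1.2.2
    have h3 := h2.2.2
    clear h1 h2
    induction e using Sym2.ind with
    | _ x y =>
      rw [Sym2.map_mk, Sym2.mk_isDiag_iff] at h3 ⊢
      exact q_of_c c h3
  rw [← card_union_of_disjoint hdis, ← Set.ncard_coe_finset]
  refine Set.ncard_le_ncard ?_ (Set.toFinite _)
  intro e he
  rw [coe_union] at he
  rcases he with h | h
  · exact dif_subset c h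
  · exact (mem_filter.1 h).2.1

/-! (b) -/
theorem key_b (hG : G.Connected) : Fintype.card (K c G A) ≤ (Dif c G A).card + 1 := by
  let Q : SimpleGraph (K c G A) := SimpleGraph.fromRel fun x y =>
    ∃ u v, G.Adj u v ∧ q c G A u = x ∧ q c G A v = y
  have hQ : Q.Connected := by
    have h1 : ∀ u v, G.Reachable u v → Q.Reachable (q c G A u) (q c G A v) := by
      intro u v h
      obtain ⟨p⟩ := h
      induction p with
      | nil => exact SimpleGraph.Reachable.refl _
      | @cons a b d hab _ ih =>
        refine SimpleGraph.Reachable.trans ?_ ih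
        by_cases h : q c G A a = q c G A b
        · rw [h]
        · apply SimpleGraph.Adj.reachable
          rw [SimpleGraph.fromRel_adj]
          exact ⟨h, Or.inl ⟨a, b, hab, rfl, rfl⟩⟩
    rw [SimpleGraph.connected_iff]
    obtain ⟨v0⟩ := hG.nonempty
    refine ⟨fun x y => ?_, ⟨q c G A v0⟩⟩
    obtain ⟨u, rfl⟩ := x.exists_rep
    obtain ⟨v, rfl⟩ := y.exists_rep
    exact h1 u v (hG.preconnected u v)
  have h2 := hQ.card_vert_le_card_edgeSet_add_one
  rw [Nat.card_eq_fintype_card] at h2
  have h3 : Q.edgeSet ⊆ ((Dif c G A).image (Sym2.map (q c G A)) : Finset _) := by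
    intro e he
    induction e using Sym2.ind with
    | _ x y =>
      rw [SimpleGraph.mem_edgeSet, SimpleGraph.fromRel_adj] at he
      rw [mem_coe, mem_image]
      rcases he with ⟨hne, ⟨u, v, huv, rfl, rfl⟩ | ⟨u, v, huv, rfl, rfl⟩⟩
      · refine ⟨s(u, v), ?_, rfl⟩
        rw [Dif, mem_filter]
        refine ⟨mem_univ _, huv, ?_⟩
        rw [Sym2.map_mk, Sym2.mk_isDiag_iff]
        exact hne
      · refine ⟨s(v, u), ?_, rfl⟩
        rw [Dif, mem_filter]
        refine ⟨mem_univ _, huv.symm, ?_⟩
        rw [Sym2.map_mk, Sym2.mk_isDiag_iff]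
        exact hne
  have h4 : Nat.card Q.edgeSet ≤ (Dif c G A).card := by
    have h5 : Nat.card Q.edgeSet = Q.edgeSet.ncard := rfl
    rw [h5]
    calc Q.edgeSet.ncard ≤ (((Dif c G A).image (Sym2.map (q c G A)) : Finset _) : Set _).ncard :=
          Set.ncard_le_ncard h3 (finite_toSet _)
      _ = ((Dif c G A).image (Sym2.map (q c G A))).card := Set.ncard_coe_finset _
      _ ≤ (Dif c G A).card := card_image_le
  omega

theorem key_b2 (hG : KEdgeConnected G 2) (hK : 2 ≤ Fintype.card (K c G A)) :
    Fintype.card (K c G A) ≤ (Dif c G A).card := by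
  have h1 : ∀ x : K c G A, 2 ≤ ((Dif c G A).filter fun e => x ∈ e.map (q c G A)).card := by
    intro x
    obtain ⟨u, rfl⟩ := x.exists_rep
    have hnt : Nontrivial (K c G A) := Fintype.one_lt_card_iff_nontrivial.1 (by omega)
    obtain ⟨y, hy⟩ := exists_ne (q c G A u)
    obtain ⟨v, rfl⟩ := y.exists_rep
    have huv : u ≠ v := by
      rintro rfl
      exact hy rfl
    obtain ⟨P, -, hP⟩ := hG u v huv
    have hb : ∀ i : Fin 2, ∃ e ∈ (P i).edges,
        e ∈ (Dif c G A).filter fun e => q c G A u ∈ e.map (q c G A) := by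
      intro i
      obtain ⟨d, hd, hd1, hd2⟩ := (P i).exists_boundary_dart
        {w | q c G A w = q c G A u} rfl (fun h => hy h)
      refine ⟨d.edge, List.mem_map_of_mem (f := SimpleGraph.Dart.edge) hd, ?_⟩
      rw [mem_filter, Dif, mem_filter]
      have e1 : d.edge = s(d.fst, d.snd) := rfl
      refine ⟨⟨mem_univ _, d.edge_mem, ?_⟩, ?_⟩
      · rw [e1, Sym2.map_mk, Sym2.mk_isDiag_iff]
        intro h
        exact hd2 (show q c G A d.snd = q c G A u from h ▸ hd1)
      · rw [e1, Sym2.map_mk]
        exact Sym2.mem_iff.2 (Or.inl hd1.symm)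
    obtain ⟨e0, he0, hf0⟩ := hb 0
    obtain ⟨e1, he1, hf1⟩ := hb 1
    have hne : e0 ≠ e1 := fun h => hP 0 1 (by decide) e0 he0 (h ▸ he1)
    exact (one_lt_card.2 ⟨e0, hf0, e1, hf1, hne⟩)
  have h2 : ∑ x : K c G A, ((Dif c G A).filter fun e => x ∈ e.map (q c G A)).card =
      ∑ e ∈ Dif c G A, ((univ : Finset (K c G A)).filter fun x => x ∈ e.map (q c G A)).card :=
    sum_card_bipartiteAbove_eq_sum_card_bipartiteBelow _
  have h3 : ∀ e ∈ Dif c G A,
      ((univ : Finset (K c G A)).filter fun x => x ∈ e.map (q c G A)).card ≤ 2 := by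
    intro e _
    induction e using Sym2.ind with
    | _ a b =>
      have : ((univ : Finset (K c G A)).filter fun x => x ∈ Sym2.map (q c G A) s(a, b)) ⊆
          {q c G A a, q c G A b} := by
        intro x hx
        rw [mem_filter, Sym2.map_mk, Sym2.mem_iff] at hx
        simpa using hx.2
      exact (card_le_card this).trans card_le_two
  have h4 : ∑ e ∈ Dif c G A,
      ((univ : Finset (K c G A)).filter fun x => x ∈ e.map (q c G A)).card ≤
      (Dif c G A).card * 2 := by
    rw [← smul_eq_mul]
    exact sum_le_card_nsmul _ _ _ h3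
  have h5 : (univ : Finset (K c G A)).card * 2 ≤
      ∑ x : K c G A, ((Dif c G A).filter fun e => x ∈ e.map (q c G A)).card := by
    rw [← smul_eq_mul]
    exact card_nsmul_le_sum _ _ _ fun x _ => h1 x
  rw [card_univ] at h5
  omega

/-! (d) -/

/-- the components met by the colour `i` -/
noncomputable def J (G : SimpleGraph V) (A : Set (Sym2 V)) (i : Fin θ) : Finset (Comp G A) :=
  (univ.filter fun v => c v = i).image (π G A)

theorem card_Im : (Im c G A).card = ∑ i ∈ used c, (J c G A i).card := by
  have : Im c G A = ((used c).sigma (fun i => J c G A i)).map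
      ⟨fun x => (x.1, x.2), fun x y h => by
        obtain ⟨a, b⟩ := x; obtain ⟨a', b'⟩ := y
        simp only [Prod.mk.injEq] at h
        obtain ⟨rfl, rfl⟩ := h
        rfl⟩ := by
    ext ⟨i, j⟩
    constructor
    · intro h
      obtain ⟨v, -, hv⟩ := mem_image.1 h
      obtain ⟨rfl, rfl⟩ := Prod.mk.inj hv
      refine mem_map.2 ⟨⟨c v, π G A v⟩, mem_sigma.2 ⟨mem_used c v, ?_⟩, rfl⟩
      exact mem_image.2 ⟨v, mem_filter.2 ⟨mem_univ _, rfl⟩, rfl⟩
    · intro h
      obtain ⟨⟨a, b⟩, hab, he⟩ := mem_map.1 h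
      obtain ⟨rfl, rfl⟩ := Prod.mk.inj he
      obtain ⟨-, hb⟩ := mem_sigma.1 hab
      obtain ⟨v, hv, rfl⟩ := mem_image.1 hb
      obtain rfl := (mem_filter.1 hv).2
      exact mem_image.2 ⟨v, mem_univ _, rfl⟩
  rw [this, card_map, card_sigma]

/-- ordered pairs of vertices of the same colour in different components -/
noncomputable def OP (G : SimpleGraph V) (A : Set (Sym2 V)) : Finset (V × V) :=
  univ.filter fun x => c x.1 = c x.2 ∧ π G A x.1 ≠ π G A x.2

theorem card_OP (hc : ∀ u v, c u = c v → u ≠ v → G.Adj u v) :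
    (OP c G A).card ≤ 2 * (Sam c A).card := by
  have h1 := card_le_mul_card_image (f := fun x : V × V => s(x.1, x.2)) (OP c G A) 2 (by
    intro e _
    induction e using Sym2.ind with
    | _ a b =>
      have : ((OP c G A).filter fun x => s(x.1, x.2) = s(a, b)) ⊆ {(a, b), (b, a)} := by
        intro x hx
        rw [mem_filter, Sym2.eq_iff] at hx
        rcases hx.2 with ⟨h1, h2⟩ | ⟨h1, h2⟩
        · rw [mem_insert]; left; ext <;> simp [h1, h2]
        · rw [mem_insert, mem_singleton]; right; ext <;> simp [h1, h2]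
      exact (card_le_card this).trans card_le_two)
  refine h1.trans (Nat.mul_le_mul_left 2 (card_le_card ?_))
  intro e he
  obtain ⟨⟨u, v⟩, hx, rfl⟩ := mem_image.1 he
  rw [OP, mem_filter] at hx
  obtain ⟨-, h2, h3⟩ := hx
  simp only at h2 h3
  rw [Sam, mem_filter]
  refine ⟨mem_univ _, ?_, ?_⟩
  · by_contra hA
    apply h3
    apply SimpleGraph.ConnectedComponent.sound
    apply SimpleGraph.Adj.reachable
    rw [SimpleGraph.deleteEdges_adj]
    exact ⟨hc u v h2 (fun h => h3 (by rw [h])), hA⟩
  · simpa using h2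

theorem sum_J_le : ∑ i ∈ used c, ((J c G A i).card * (J c G A i).card - (J c G A i).card) ≤
    (OP c G A).card := by
  -- choose representatives
  have hrep : ∀ x : Fin θ × Comp G A, ∃ v, x ∈ Im c G A → c v = x.1 ∧ π G A v = x.2 := by
    intro x
    by_cases hx : x ∈ Im c G A
    · obtain ⟨v, -, rfl⟩ := mem_image.1 hx
      exact ⟨v, fun _ => ⟨rfl, rfl⟩⟩
    · obtain ⟨v, hv⟩ := x.2.exists_rep
      exact ⟨v, fun h => absurd h hx⟩
  choose r hr using hrep
  have hmem : ∀ i ∈ used c, ∀ j ∈ J c G A i, (i, j) ∈ Im c G A := by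
    intro i _ j hj
    obtain ⟨v, hv, rfl⟩ := mem_image.1 hj
    rw [mem_filter] at hv
    rw [← hv.2]
    exact mem_image_of_mem (fun v => (c v, π G A v)) (mem_univ v)
  have h1 : ∑ i ∈ used c, ((J c G A i).card * (J c G A i).card - (J c G A i).card) =
      ((used c).sigma fun i => (J c G A i).offDiag).card := by
    rw [card_sigma]
    exact sum_congr rfl fun i _ => (offDiag_card _).symm
  rw [h1]
  refine card_le_card_of_injOn (fun x => (r (x.1, x.2.1), r (x.1, x.2.2))) ?_ ?_
  · rintro ⟨i, j, j'⟩ hx
    rw [mem_coe, mem_sigma, mem_offDiag] at hx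
    obtain ⟨hi, hj, hj', hne⟩ := hx
    have a1 := hr _ (hmem i hi j hj)
    have a2 := hr _ (hmem i hi j' hj')
    rw [mem_coe, OP, mem_filter]
    refine ⟨mem_univ _, ?_, ?_⟩
    · simp only
      rw [a1.1, a2.1]
    · simp only
      rw [a1.2, a2.2]
      exact hne
  · rintro ⟨i, j, j'⟩ hx ⟨i2, j2, j2'⟩ hy h
    rw [mem_coe, mem_sigma, mem_offDiag] at hx hy
    obtain ⟨hi, hj, hj', -⟩ := hx
    obtain ⟨hi2, hj2, hj2', -⟩ := hy
    simp only [Prod.mk.injEq] at h
    have a1 := hr _ (hmem i hi j hj)
    have a2 := hr _ (hmem i hi j' hj')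
    have b1 := hr _ (hmem i2 hi2 j2 hj2)
    have b2 := hr _ (hmem i2 hi2 j2' hj2')
    have e1 : i = i2 := a1.1.symm.trans ((congrArg c h.1).trans b1.1)
    subst e1
    have e2 : j = j2 := a1.2.symm.trans ((congrArg (π G A) h.1).trans b1.2)
    have e3 : j' = j2' := a2.2.symm.trans ((congrArg (π G A) h.2).trans b2.2)
    rw [e2, e3]

theorem key_d (hc : ∀ u v, c u = c v → u ≠ v → G.Adj u v) :
    4 * ((Im c G A).card : ℤ) ≤ 6 * (used c).card + 2 * (Sam c A).card := by
  have h1 := (sum_J_le c (G := G) (A := A)).trans (card_OP c hc)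
  have h2 : ∀ n : ℕ, (4 * n : ℤ) ≤ 6 + ((n * n - n : ℕ) : ℤ) := by
    intro n
    have h3 : n ≤ n * n := Nat.le_mul_self n
    push_cast [Nat.cast_sub h3]
    have h4 : 0 ≤ ((n : ℤ) - 2) * ((n : ℤ) - 3) := by
      rcases le_or_gt (n : ℤ) 2 with h | h
      · exact mul_nonneg_of_nonpos_of_nonpos (by linarith) (by linarith)
      · exact mul_nonneg (by linarith) (by linarith [show (3 : ℤ) ≤ n from h])
    nlinarith
  rw [card_Im]
  push_cast
  rw [mul_sum]
  calc ∑ i ∈ used c, (4 * ((J c G A i).card : ℤ))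
      ≤ ∑ i ∈ used c, (6 + (((J c G A i).card * (J c G A i).card - (J c G A i).card : ℕ) : ℤ)) :=
        sum_le_sum fun i _ => h2 _
    _ = 6 * (used c).card +
        ((∑ i ∈ used c, ((J c G A i).card * (J c G A i).card - (J c G A i).card) : ℕ) : ℤ) := by
        rw [sum_add_distrib]
        push_cast
        simp [mul_comm]
    _ ≤ _ := by
        have : ((∑ i ∈ used c, ((J c G A i).card * (J c G A i).card - (J c G A i).card) : ℕ) : ℤ)
            ≤ ((2 * (Sam c A).card : ℕ) : ℤ) := by exact_mod_cast h1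
        push_cast at this ⊢
        linarith

/-! Complete graphs -/
theorem complete_case (hA : ∀ u v : V, u ≠ v → G.Adj u v) :
    Fintype.card V * (Fintype.card (Comp G A) - 1) ≤ 2 * A.ncard := by
  let c0 : V → Fin 1 := fun _ => 0
  have h1 := card_OP (G := G) (A := A) c0 (fun u v _ h => hA u v h)
  have h2 : (Sam c0 A).card ≤ A.ncard := by
    rw [← Set.ncard_coe_finset]
    exact Set.ncard_le_ncard (fun e he => (mem_filter.1 he).2.1) (Set.toFinite _)
  have h3 : Fintype.card V * (Fintype.card (Comp G A) - 1) ≤ (OP c0 G A).card := by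
    have h4 : (OP c0 G A).card =
        ∑ u : V, ((univ : Finset V).filter fun v => π G A u ≠ π G A v).card := by
      have : OP c0 G A = ((univ : Finset V).sigma
          (fun u => (univ : Finset V).filter fun v => π G A u ≠ π G A v)).map
          ⟨fun x => (x.1, x.2), fun x y h => by
            obtain ⟨a, b⟩ := x; obtain ⟨a', b'⟩ := y
            simp only [Prod.mk.injEq] at h
            obtain ⟨rfl, rfl⟩ := h
            rfl⟩ := by
        ext ⟨i, j⟩
        constructor
        · intro h
          have h2 := (mem_filter.1 h).2.2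
          exact mem_map.2 ⟨⟨i, j⟩, mem_sigma.2 ⟨mem_univ _, mem_filter.2 ⟨mem_univ _, h2⟩⟩, rfl⟩
        · intro h
          obtain ⟨⟨a, b⟩, hab, he⟩ := mem_map.1 h
          obtain ⟨rfl, rfl⟩ := Prod.mk.inj he
          exact mem_filter.2 ⟨mem_univ _, rfl, (mem_filter.1 (mem_sigma.1 hab).2).2⟩
      rw [this, card_map, card_sigma]
    rw [h4, ← card_univ, ← smul_eq_mul]
    refine card_nsmul_le_sum _ _ _ fun u _ => ?_
    have h5 : ((univ : Finset (Comp G A)).erase (π G A u)) ⊆
        ((univ : Finset V).filter fun v => π G A u ≠ π G A v).image (π G A) := by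
      intro x hx
      obtain ⟨v, rfl⟩ := x.exists_rep
      have hx1 : (π G A v) ≠ π G A u := (mem_erase.1 hx).1
      exact mem_image.2 ⟨v, mem_filter.2 ⟨mem_univ _, fun h => hx1 h.symm⟩, rfl⟩
    have h6 := (card_le_card h5).trans card_image_le
    rw [card_erase_of_mem (mem_univ _), card_univ] at h6
    exact h6
  omega

end

end Pool.Agent.R33.Decay
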