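import Pool.Agent.R237.LZ.Stm

/-!
# GAM1: lower bound for the Gamma function (project LZ, MP_3f3e0f_an), by helper33
-/

set_option autoImplicit false
open Filter Topology

namespace Pool.Agent.R33.LZGAM1
open Pool.Agent.R237.LZ

theorem norm_half (y : ℝ) : ‖Complex.Gamma ((1 / 2 : ℂ) + y * Complex.I)‖ =
    √Real.pi / √(Real.cosh (Real.pi * y)) := by
  have h1 := Complex.Gamma_mul_Gamma_one_sub ((1 / 2 : ℂ) + y * Complex.I)
  have h2 : (1 : ℂ) - ((1 / 2 : ℂ) + y * Complex.I) =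
      (starRingEnd ℂ) ((1 / 2 : ℂ) + y * Complex.I) := by
    apply Complex.ext <;> simp <;> norm_num
  rw [h2, Complex.Gamma_conj, Complex.mul_conj, Complex.normSq_eq_norm_sq] at h1
  have h3 : Complex.sin (Real.pi * ((1 / 2 : ℂ) + y * Complex.I)) =
      ((Real.cosh (Real.pi * y) : ℝ) : ℂ) := by
    have : (Real.pi : ℂ) * ((1 / 2 : ℂ) + y * Complex.I) =
        ((Real.pi * y : ℝ) : ℂ) * Complex.I + Real.pi / 2 := by push_cast; ring
    rw [this, Complex.sin_add_pi_div_two, Complex.cos_mul_I, Complex.ofReal_cosh]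
  rw [h3] at h1
  have h4 : ‖Complex.Gamma ((1 / 2 : ℂ) + y * Complex.I)‖ ^ 2 =
      Real.pi / Real.cosh (Real.pi * y) := by
    exact_mod_cast h1
  rw [← Real.sqrt_div' _ (Real.cosh_pos _).le, ← h4, Real.sqrt_sq (norm_nonneg _)]

theorem norm_add_mul_I' (t y : ℝ) : ‖(t : ℂ) + y * Complex.I‖ = √(t ^ 2 + y ^ 2) := by
  exact Complex.norm_add_mul_I t y

theorem fac (a y : ℝ) (ha : 1 / 2 ≤ a) (j : ℕ) :
    ‖((a : ℂ) + y * Complex.I) + j‖ * ‖(((1 / 2 : ℝ) : ℂ)) + j‖ ≤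
      ‖(a : ℂ) + j‖ * ‖(((1 / 2 : ℝ) : ℂ) + y * Complex.I) + j‖ := by
  have e1 : ((a : ℂ) + y * Complex.I) + j = ((a + j : ℝ) : ℂ) + y * Complex.I := by
    push_cast; ring
  have e2 : (((1 / 2 : ℝ) : ℂ) + y * Complex.I) + j =
      ((1 / 2 + j : ℝ) : ℂ) + y * Complex.I := by
    push_cast; ring
  have e3 : (((1 / 2 : ℝ) : ℂ)) + j = ((1 / 2 + j : ℝ) : ℂ) := by push_cast; ring
  have e4 : (a : ℂ) + j = ((a + j : ℝ) : ℂ) := by push_cast; ring
  have hj : (0 : ℝ) ≤ j := Nat.cast_nonneg j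
  rw [e1, e2, e3, e4, norm_add_mul_I', norm_add_mul_I', Complex.norm_real, Complex.norm_real,
    Real.norm_of_nonneg (by linarith), Real.norm_of_nonneg (by linarith)]
  have h1 : √((a + j) ^ 2 + y ^ 2) * (1 / 2 + j) =
      √(((a + j) ^ 2 + y ^ 2) * (1 / 2 + j) ^ 2) := by
    rw [Real.sqrt_mul (by positivity), Real.sqrt_sq (by positivity)]
  have h2 : (a + j) * √((1 / 2 + j) ^ 2 + y ^ 2) =
      √((a + j) ^ 2 * ((1 / 2 + j) ^ 2 + y ^ 2)) := by
    rw [Real.sqrt_mul (by positivity), Real.sqrt_sq (by linarith)]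
  rw [h1, h2]
  apply Real.sqrt_le_sqrt
  have h3 : (1 / 2 + (j : ℝ)) ^ 2 ≤ (a + j) ^ 2 := by
    apply pow_le_pow_left₀ (by positivity); linarith
  nlinarith [mul_le_mul_of_nonneg_right h3 (sq_nonneg y)]

theorem normSeq (z : ℂ) (n : ℕ) (hn : 0 < n) : ‖Complex.GammaSeq z n‖ =
    (n : ℝ) ^ z.re * n.factorial / ∏ j ∈ Finset.range (n + 1), ‖z + j‖ := by
  unfold Complex.GammaSeq
  rw [norm_div, norm_mul, Complex.norm_natCast_cpow_of_pos hn, norm_prod]
  simp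

theorem seqLe (a y : ℝ) (ha : 1 / 2 ≤ a) (n : ℕ) (hn : 0 < n) :
    ‖Complex.GammaSeq (a : ℂ) n‖ * ‖Complex.GammaSeq (((1 / 2 : ℝ) : ℂ) + y * Complex.I) n‖ ≤
    ‖Complex.GammaSeq ((a : ℂ) + y * Complex.I) n‖ * ‖Complex.GammaSeq (((1 / 2 : ℝ) : ℂ)) n‖ := by
  rw [normSeq _ _ hn, normSeq _ _ hn, normSeq _ _ hn, normSeq _ _ hn]
  have r1 : (((1 / 2 : ℝ) : ℂ) + y * Complex.I).re = 1 / 2 := by simp
  have r2 : ((a : ℂ) + y * Complex.I).re = a := by simp
  have r3 : ((a : ℂ)).re = a := by simp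
  have r4 : (((1 / 2 : ℝ) : ℂ)).re = 1 / 2 := by simp
  rw [r1, r2, r3, r4, div_mul_div_comm, div_mul_div_comm, ← Finset.prod_mul_distrib,
    ← Finset.prod_mul_distrib]
  have hpos : ∀ (t y : ℝ) (j : ℕ), 0 < t → 0 < ‖((t : ℂ) + y * Complex.I) + j‖ := by
    intro t y j ht
    rw [norm_pos_iff]
    intro h
    have := congrArg Complex.re h
    simp at this
    have hj : (0 : ℝ) ≤ j := Nat.cast_nonneg j
    linarith
  apply div_le_div_of_nonneg_left (by positivity)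
  · apply Finset.prod_pos
    intro j _
    apply mul_pos (hpos _ _ _ (by linarith))
    have := hpos (1 / 2) 0 j (by norm_num)
    simpa using this
  · apply Finset.prod_le_prod
    · intro j _; positivity
    · intro j _
      exact fac a y ha j

theorem t_GAM1 : S_GAM1 := by
  intro s hs
  set a : ℝ := 1 + s.re with ha
  set y : ℝ := s.im with hy
  have ha2 : 1 / 2 ≤ a := by rw [ha]; linarith
  have hs1 : (1 : ℂ) + s = (a : ℂ) + y * Complex.I := by
    apply Complex.ext <;> simp [ha, hy]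
  have hlim : ‖Complex.Gamma (a : ℂ)‖ * ‖Complex.Gamma (((1 / 2 : ℝ) : ℂ) + y * Complex.I)‖ ≤
      ‖Complex.Gamma ((a : ℂ) + y * Complex.I)‖ * ‖Complex.Gamma (((1 / 2 : ℝ) : ℂ))‖ := by
    apply le_of_tendsto_of_tendsto
      ((Complex.GammaSeq_tendsto_Gamma (a : ℂ)).norm.mul
        (Complex.GammaSeq_tendsto_Gamma (((1 / 2 : ℝ) : ℂ) + y * Complex.I)).norm)
      ((Complex.GammaSeq_tendsto_Gamma ((a : ℂ) + y * Complex.I)).norm.mul
        (Complex.GammaSeq_tendsto_Gamma (((1 / 2 : ℝ) : ℂ))).norm)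
    filter_upwards [eventually_gt_atTop 0] with n hn
    exact seqLe a y ha2 n hn
  have g1 : ‖Complex.Gamma (a : ℂ)‖ = Real.Gamma a := by
    rw [Complex.Gamma_ofReal, Complex.norm_real,
      Real.norm_of_nonneg (Real.Gamma_pos_of_pos (by linarith)).le]
  have g2 : ‖Complex.Gamma (((1 / 2 : ℝ) : ℂ))‖ = √Real.pi := by
    rw [Complex.Gamma_ofReal, Complex.norm_real, Real.Gamma_one_half_eq,
      Real.norm_of_nonneg (Real.sqrt_nonneg _)]
  have g3 : ‖Complex.Gamma (((1 / 2 : ℝ) : ℂ) + y * Complex.I)‖ =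
      √Real.pi / √(Real.cosh (Real.pi * y)) := by
    have := norm_half y
    rw [← this]
    push_cast
    rfl
  rw [g1, g2, g3] at hlim
  rw [hs1]
  have hpi : 0 < √Real.pi := Real.sqrt_pos.mpr Real.pi_pos
  have : Real.Gamma a / √(Real.cosh (Real.pi * y)) * √Real.pi ≤
      ‖Complex.Gamma ((a : ℂ) + y * Complex.I)‖ * √Real.pi := by
    calc Real.Gamma a / √(Real.cosh (Real.pi * y)) * √Real.pi =
        Real.Gamma a * (√Real.pi / √(Real.cosh (Real.pi * y))) := by ring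
      _ ≤ _ := hlim
  exact le_of_mul_le_mul_right this hpi

end Pool.Agent.R33.LZGAM1
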