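import Mathlib

/-!
# Oblivious sensors on a ring: the semi-synchronous model

Model for MP_5c423c_lc.  The ring of length `L` is the real line modulo `L`; the position of a
sensor is given by a real number (a lift), and clockwise is the direction of increasing reals.
-/

namespace RingCover

open Filter

/-- A deterministic algorithm for anonymous oblivious sensors.  It gets the visibility radius
(expressed in the unit of length of the sensor) and the set of the coordinates of all the visible
sensors in the local coordinate system of the sensor (centred at the sensor, so itself included
as `0`), and returns the signed distance to move, again in local coordinates. -/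
def Algorithm : Type := ℝ → Set ℝ → ℝ

variable {n : ℕ} [NeZero n]

/-- The point `y` of the line projects to a point of the ring which is occupied by a sensor. -/
def Occupied (L : ℝ) (x : Fin n → ℝ) (y : ℝ) : Prop := ∃ j : Fin n, ∃ k : ℤ, y = x j + k * L

/-- What sensor `i` sees in the configuration `x`, when its visibility range is `V` and its local
coordinate system is given by `c ≠ 0`: the point with local coordinate `u` is at signed clockwise
distance `c * u`.  So `|c|` is its unit of length, and the sign of `c` tells which of its two
directions is clockwise. -/
def view (L V c : ℝ) (x : Fin n → ℝ) (i : Fin n) : Set ℝ :=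
  {u | |c * u| ≤ V ∧ Occupied L x (x i + c * u)}

/-- The displacement (global, signed, clockwise positive) that the algorithm asks of sensor `i`. -/
noncomputable def displacement (A : Algorithm) (L V c : ℝ) (x : Fin n → ℝ) (i : Fin n) : ℝ :=
  c * A (V / |c|) (view L V c x i)

/-- The clockwise distance from sensor `i` to the next sensor `i + 1` (indices modulo `n`). -/
noncomputable def gap (L : ℝ) (x : Fin n → ℝ) (i : Fin n) : ℝ :=
  x (i + 1) - x i + if i.val + 1 = n then L else 0

/-- A run of the algorithm `A` by `n` sensors with visibility range `V` on the ring of length `L`,
under the SSYNC scheduler. -/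
structure Run (A : Algorithm) (n : ℕ) [NeZero n] (L V : ℝ) where
  /-- `pos t i` is the position of sensor `i` at tick `t` -/
  pos : ℕ → Fin n → ℝ
  /-- the local coordinate systems; they may even change from tick to tick -/
  frame : ℕ → Fin n → ℝ
  frame_ne : ∀ t i, frame t i ≠ 0
  /-- the sensors activated at tick `t` -/
  active : ℕ → Set (Fin n)
  /-- a move is not stopped before this distance is covered -/
  δ : ℝ
  δ_pos : 0 < δ
  /-- initially the sensors are at distinct points, in clockwise order -/
  init : ∀ i, 0 < gap L (pos 0) i
  nonempty : ∀ t, (active t).Nonempty
  /-- every sensor is activated infinitely often -/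
  fair : ∀ i T, ∃ t, T ≤ t ∧ i ∈ active t
  idle : ∀ t i, i ∉ active t → pos (t + 1) i = pos t i
  /-- an active sensor moves towards its destination -/
  towards : ∀ t i, i ∈ active t → pos (t + 1) i ∈
    Set.uIcc (pos t i) (pos t i + displacement A L V (frame t i) (pos t) i)
  /-- it reaches its destination or covers at least the distance `δ` -/
  progress : ∀ t i, i ∈ active t →
    min δ |displacement A L V (frame t i) (pos t) i| ≤ |pos (t + 1) i - pos t i|

/-- `ε`-approximate covering of the ring: all the distances between consecutive sensors are within
`ε` of `d = L / n`. -/
def Covers (L ε : ℝ) (x : Fin n → ℝ) : Prop :=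
  ∀ i, L / n - ε ≤ gap L x i ∧ gap L x i ≤ L / n + ε

end RingCover
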