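import Mathlib
import Pool.Agent.R33.RingDefs

namespace RingCover

open Filter

/-- The truncated distance to the nearest sensor in the positive direction. -/
noncomputable def ahead (W : ℝ) (S : Set ℝ) : ℝ := sInf (insert W {u | 0 < u ∧ u ∈ S})

/-- The averaging algorithm. -/
noncomputable def avg : Algorithm := fun W S => (ahead W S - ahead W (-S)) / 4

variable {m : ℕ}

lemma gap_last (L : ℝ) (x : Fin (m + 1) → ℝ) :
    gap L x (Fin.last m) = x 0 + L - x (Fin.last m) := by
  simp [gap]; ring

lemma gap_castSucc (L : ℝ) (x : Fin (m + 1) → ℝ) (i : Fin m) :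
    gap L x i.castSucc = x i.succ - x i.castSucc := by
  unfold gap
  have h1 : (i.castSucc : Fin (m + 1)) + 1 = i.succ := by
    simp
  rw [h1, if_neg]
  · ring
  · simp; omega

lemma mono_of_gap {L : ℝ} {x : Fin (m + 1) → ℝ} (h : ∀ i, 0 < gap L x i) : StrictMono x := by
  rw [Fin.strictMono_iff_lt_succ]
  intro i
  have := h i.castSucc
  rw [gap_castSucc] at this
  linarith

lemma last_lt {L : ℝ} {x : Fin (m + 1) → ℝ} (h : ∀ i, 0 < gap L x i) :
    x (Fin.last m) < x 0 + L := by
  have := h (Fin.last m)
  rw [gap_last] at this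
  linarith

lemma occ_next {L : ℝ} {x : Fin (m + 1) → ℝ} (i : Fin (m + 1)) :
    Occupied L x (x i + gap L x i) := by
  rcases Fin.eq_castSucc_or_eq_last i with ⟨i, rfl⟩ | rfl
  · rw [gap_castSucc]
    exact ⟨i.succ, 0, by simp⟩
  · rw [gap_last]
    exact ⟨0, 1, by simp⟩

lemma L_pos {L : ℝ} {x : Fin (m + 1) → ℝ} (h : ∀ i, 0 < gap L x i) : 0 < L := by
  have h1 := last_lt h
  have h2 := (mono_of_gap h).monotone (Fin.zero_le (Fin.last m))
  linarith

lemma le_next {L : ℝ} {x : Fin (m + 1) → ℝ} (h : ∀ i, 0 < gap L x i) (i : Fin (m + 1)) {y : ℝ}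
    (hy : Occupied L x y) (hiy : x i < y) : x i + gap L x i ≤ y := by
  obtain ⟨j, k, rfl⟩ := hy
  have hL := L_pos h
  have hm := mono_of_gap h
  have hl := last_lt h
  have hj0 : x 0 ≤ x j := hm.monotone (Fin.zero_le j)
  have hi0 : x 0 ≤ x i := hm.monotone (Fin.zero_le i)
  have hjl : x j ≤ x (Fin.last m) := hm.monotone (Fin.le_last j)
  have hub : x i + gap L x i ≤ x 0 + L := by
    rcases Fin.eq_castSucc_or_eq_last i with ⟨i, rfl⟩ | rfl
    · rw [gap_castSucc]
      have := hm.monotone (Fin.le_last i.succ)
      linarith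
    · rw [gap_last]; linarith
  rcases lt_trichotomy k 0 with hk | hk | hk
  · exfalso
    have : (k : ℝ) ≤ -1 := by exact_mod_cast (by omega : k ≤ -1)
    nlinarith
  · subst hk
    simp only [Int.cast_zero, zero_mul, add_zero] at *
    have hij : i < j := hm.lt_iff_lt.mp hiy
    rcases Fin.eq_castSucc_or_eq_last i with ⟨i, rfl⟩ | rfl
    · rw [gap_castSucc]
      have : i.succ ≤ j := by
        rw [Fin.lt_def] at hij
        rw [Fin.le_def]
        simp at *; omega
      have := hm.monotone this
      linarith
    · exact absurd hij (not_lt.mpr (Fin.le_last j))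
  · have : (1 : ℝ) ≤ k := by exact_mod_cast (by omega : 1 ≤ k)
    nlinarith

lemma occ_prev {L : ℝ} {x : Fin (m + 1) → ℝ} (i : Fin (m + 1)) :
    Occupied L x (x i - gap L x (i - 1)) := by
  rcases Fin.eq_castSucc_or_eq_last (i - 1) with ⟨j, hj⟩ | hj
  · have hi : i = j.succ := by
      have : i = (i - 1) + 1 := (sub_add_cancel i 1).symm
      rw [this, hj]; simp
    rw [hj, gap_castSucc, hi]
    exact ⟨j.castSucc, 0, by simp⟩
  · have hi : i = 0 := by
      have : i = (i - 1) + 1 := (sub_add_cancel i 1).symm
      rw [this, hj]; simp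
    rw [hj, gap_last, hi]
    exact ⟨Fin.last m, -1, by simp; ring⟩

lemma prev_le {L : ℝ} {x : Fin (m + 1) → ℝ} (h : ∀ i, 0 < gap L x i) (i : Fin (m + 1)) {y : ℝ}
    (hy : Occupied L x y) (hiy : y < x i) : y ≤ x i - gap L x (i - 1) := by
  obtain ⟨j, k, rfl⟩ := hy
  have hL := L_pos h
  have hm := mono_of_gap h
  have hl := last_lt h
  have hj0 : x 0 ≤ x j := hm.monotone (Fin.zero_le j)
  have hil : x i ≤ x (Fin.last m) := hm.monotone (Fin.le_last i)
  have hjl : x j ≤ x (Fin.last m) := hm.monotone (Fin.le_last j)
  have hlb : x (Fin.last m) - L ≤ x i - gap L x (i - 1) := by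
    rcases Fin.eq_castSucc_or_eq_last (i - 1) with ⟨j, hj⟩ | hj
    · have hi : i = j.succ := by
        have : i = (i - 1) + 1 := (sub_add_cancel i 1).symm
        rw [this, hj]; simp
      rw [hj, gap_castSucc, hi]
      have := hm.monotone (Fin.zero_le j.castSucc)
      linarith
    · have hi : i = 0 := by
        have : i = (i - 1) + 1 := (sub_add_cancel i 1).symm
        rw [this, hj]; simp
      rw [hj, gap_last, hi]; linarith
  rcases lt_trichotomy k 0 with hk | hk | hk
  · have : (k : ℝ) ≤ -1 := by exact_mod_cast (by omega : k ≤ -1)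
    nlinarith
  · subst hk
    simp only [Int.cast_zero, zero_mul, add_zero] at *
    have hij : j < i := hm.lt_iff_lt.mp hiy
    rcases Fin.eq_castSucc_or_eq_last (i - 1) with ⟨q, hq⟩ | hq
    · have hi : i = q.succ := by
        have : i = (i - 1) + 1 := (sub_add_cancel i 1).symm
        rw [this, hq]; simp
      rw [hq, gap_castSucc, hi]
      have : j ≤ q.castSucc := by
        rw [hi, Fin.lt_def] at hij
        rw [Fin.le_def]
        simp at *; omega
      have := hm.monotone this
      linarith
    · have hi : i = 0 := by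
        have : i = (i - 1) + 1 := (sub_add_cancel i 1).symm
        rw [this, hq]; simp
      rw [hi] at hij
      exact absurd hij (not_lt.mpr (Fin.zero_le j))
  · exfalso
    have : (1 : ℝ) ≤ k := by exact_mod_cast (by omega : 1 ≤ k)
    nlinarith

lemma ahead_eq {W g : ℝ} {S : Set ℝ} (hW : 0 < W) (hg : 0 < g) (h1 : g ≤ W → g ∈ S)
    (h2 : ∀ u ∈ S, 0 < u → g ≤ u) : ahead W S = min W g := by
  unfold ahead
  apply le_antisymm
  · apply le_min
    · apply csInf_le _ (Set.mem_insert _ _)
      refine ⟨0, ?_⟩
      rintro u (rfl | ⟨hu, _⟩)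
      · exact hW.le
      · exact hu.le
    · rcases le_or_gt g W with h | h
      · apply csInf_le
        · refine ⟨0, ?_⟩
          rintro u (rfl | ⟨hu, _⟩)
          · exact hW.le
          · exact hu.le
        · right
          exact ⟨hg, h1 h⟩
      · have : sInf (insert W {u | 0 < u ∧ u ∈ S}) ≤ W := by
          apply csInf_le _ (Set.mem_insert _ _)
          refine ⟨0, ?_⟩
          rintro u (rfl | ⟨hu, _⟩)
          · exact hW.le
          · exact hu.le
        linarith
  · apply le_csInf ⟨W, Set.mem_insert _ _⟩
    rintro u (rfl | ⟨hu, hS⟩)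
    · exact min_le_left _ _
    · exact (min_le_right _ _).trans (h2 u hS hu)

lemma displacement_avg {L V c : ℝ} (hV : 0 < V) (hc : c ≠ 0) {x : Fin (m + 1) → ℝ}
    (h : ∀ i, 0 < gap L x i) (i : Fin (m + 1)) :
    displacement avg L V c x i = (min V (gap L x i) - min V (gap L x (i - 1))) / 4 := by
  unfold displacement avg
  have hgi := h i
  have hgj := h (i - 1)
  rcases lt_or_gt_of_ne hc with hneg | hpos
  · -- reversed orientation
    have hab : |c| = -c := abs_of_neg hneg
    have hc' : 0 < -c := by linarith
    have e1 : ahead (V / |c|) (view L V c x i) = min (V / |c|) (gap L x (i - 1) / |c|) := by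
      rw [hab]
      apply ahead_eq (div_pos hV hc') (div_pos hgj hc')
      · intro hle
        have hcg : c * (gap L x (i - 1) / -c) = - gap L x (i - 1) := by field_simp
        refine ⟨?_, ?_⟩
        · rw [hcg, abs_neg, abs_of_pos hgj]
          exact (div_le_div_iff_of_pos_right hc').mp hle
        · rw [hcg]
          have := occ_prev (L := L) (x := x) i
          rwa [sub_eq_add_neg] at this
      · rintro u ⟨_, hocc⟩ hu
        have : x i + c * u < x i := by nlinarith
        have := prev_le h i hocc this
        rw [div_le_iff₀ hc']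
        linarith
    have e2 : ahead (V / |c|) (-(view L V c x i)) = min (V / |c|) (gap L x i / |c|) := by
      rw [hab]
      apply ahead_eq (div_pos hV hc') (div_pos hgi hc')
      · intro hle
        have hcg : c * (-(gap L x i / -c)) = gap L x i := by field_simp
        rw [Set.mem_neg]
        refine ⟨?_, ?_⟩
        · rw [hcg, abs_of_pos hgi]
          exact (div_le_div_iff_of_pos_right hc').mp hle
        · rw [hcg]
          exact occ_next i
      · intro u hu hu0
        rw [Set.mem_neg] at hu
        obtain ⟨_, hocc⟩ := hu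
        have : x i < x i + c * (-u) := by nlinarith
        have := le_next h i hocc this
        rw [div_le_iff₀ hc']
        linarith
    rw [e1, e2, min_div_div_right (abs_nonneg c), min_div_div_right (abs_nonneg c), hab]
    field_simp
    ring
  · have hab : |c| = c := abs_of_pos hpos
    have e1 : ahead (V / |c|) (view L V c x i) = min (V / |c|) (gap L x i / |c|) := by
      rw [hab]
      apply ahead_eq (div_pos hV hpos) (div_pos hgi hpos)
      · intro hle
        have hcg : c * (gap L x i / c) = gap L x i := by field_simp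
        refine ⟨?_, ?_⟩
        · rw [hcg, abs_of_pos hgi]
          exact (div_le_div_iff_of_pos_right hpos).mp hle
        · rw [hcg]
          exact occ_next i
      · rintro u ⟨_, hocc⟩ hu
        have : x i < x i + c * u := by nlinarith
        have := le_next h i hocc this
        rw [div_le_iff₀ hpos]
        linarith
    have e2 : ahead (V / |c|) (-(view L V c x i)) = min (V / |c|) (gap L x (i - 1) / |c|) := by
      rw [hab]
      apply ahead_eq (div_pos hV hpos) (div_pos hgj hpos)
      · intro hle
        have hcg : c * (-(gap L x (i - 1) / c)) = - gap L x (i - 1) := by field_simp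
        rw [Set.mem_neg]
        refine ⟨?_, ?_⟩
        · rw [hcg, abs_neg, abs_of_pos hgj]
          exact (div_le_div_iff_of_pos_right hpos).mp hle
        · rw [hcg]
          have := occ_prev (L := L) (x := x) i
          rwa [sub_eq_add_neg] at this
      · intro u hu hu0
        rw [Set.mem_neg] at hu
        obtain ⟨_, hocc⟩ := hu
        have : x i + c * (-u) < x i := by nlinarith
        have := prev_le h i hocc this
        rw [div_le_iff₀ hpos]
        linarith
    rw [e1, e2, min_div_div_right (abs_nonneg c), min_div_div_right (abs_nonneg c), hab]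
    field_simp

end RingCover
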