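import Mathlib
import Pool.Agent.R33.RingView

namespace RingCover

open Filter Topology

variable {m : ℕ}

/-- truncated gap -/
noncomputable def tg (L V : ℝ) (x : Fin (m + 1) → ℝ) (i : Fin (m + 1)) : ℝ := min V (gap L x i)

/-- One step of the dynamics, for the displacements `e`. -/
structure Step (L V : ℝ) (x x' : Fin (m + 1) → ℝ) : Prop where
  up : ∀ i, x' i - x i ≤ max 0 ((tg L V x i - tg L V x (i - 1)) / 4)
  down : ∀ i, x i - x' i ≤ max 0 ((tg L V x (i - 1) - tg L V x i) / 4)

lemma tg_sub_le {L V : ℝ} (x : Fin (m + 1) → ℝ) (i j : Fin (m + 1)) :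
    max 0 (tg L V x i - tg L V x j) ≤ max 0 (gap L x i - gap L x j) := by
  unfold tg
  apply max_le (le_max_left _ _)
  rcases le_total (gap L x i) (gap L x j) with h | h
  · have : min V (gap L x i) ≤ min V (gap L x j) := min_le_min le_rfl h
    exact le_trans (by linarith) (le_max_left _ _)
  · apply le_trans _ (le_max_right _ _)
    rcases le_total V (gap L x j) with h2 | h2
    · rw [min_eq_left h2, min_eq_left (h2.trans h)]; linarith
    · rw [min_eq_right h2]
      have := min_le_right V (gap L x i)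
      linarith

lemma gap_update (L : ℝ) (x x' : Fin (m + 1) → ℝ) (i : Fin (m + 1)) :
    gap L x' i = gap L x i + (x' (i + 1) - x (i + 1)) - (x' i - x i) := by
  unfold gap; ring

lemma Step.up' {L V : ℝ} {x x' : Fin (m + 1) → ℝ} (h : Step L V x x') (i : Fin (m + 1)) :
    x' i - x i ≤ (max 0 (gap L x i - gap L x (i - 1))) / 4 := by
  have h1 := h.up i
  have h2 := tg_sub_le (L := L) (V := V) x i (i - 1)
  have h3 : max 0 ((tg L V x i - tg L V x (i - 1)) / 4) =
      max 0 (tg L V x i - tg L V x (i - 1)) / 4 := by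
    rw [← max_div_div_right (by norm_num : (0 : ℝ) ≤ 4)]; simp
  rw [h3] at h1
  linarith

lemma Step.down' {L V : ℝ} {x x' : Fin (m + 1) → ℝ} (h : Step L V x x') (i : Fin (m + 1)) :
    x i - x' i ≤ (max 0 (gap L x (i - 1) - gap L x i)) / 4 := by
  have h1 := h.down i
  have h2 := tg_sub_le (L := L) (V := V) x (i - 1) i
  have h3 : max 0 ((tg L V x (i - 1) - tg L V x i) / 4) =
      max 0 (tg L V x (i - 1) - tg L V x i) / 4 := by
    rw [← max_div_div_right (by norm_num : (0 : ℝ) ≤ 4)]; simp
  rw [h3] at h1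
  linarith

lemma Step.pos {L V : ℝ} {x x' : Fin (m + 1) → ℝ} (h : Step L V x x')
    (hg : ∀ i, 0 < gap L x i) (i : Fin (m + 1)) : 0 < gap L x' i := by
  rw [gap_update L x x' i]
  have h1 := h.up' i
  have h2 := h.down' (i + 1)
  rw [add_sub_cancel_right] at h2
  have g1 := hg i
  have g2 := hg (i - 1)
  have g3 := hg (i + 1)
  have m1 : max 0 (gap L x i - gap L x (i - 1)) ≤ gap L x i := max_le g1.le (by linarith)
  have m2 : max 0 (gap L x i - gap L x (i + 1)) ≤ gap L x i := max_le g1.le (by linarith)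
  linarith

lemma sum_gap (L : ℝ) (x : Fin (m + 1) → ℝ) : ∑ i, gap L x i = L := by
  have h1 : ∑ i, gap L x i = ∑ i, (x (i + 1) - x i) +
      ∑ i : Fin (m + 1), (if i.val + 1 = m + 1 then L else 0) := by
    rw [← Finset.sum_add_distrib]; rfl
  have h2 : ∑ i : Fin (m + 1), x (i + 1) = ∑ i : Fin (m + 1), x i :=
    Equiv.sum_comp (Equiv.addRight (1 : Fin (m + 1))) x
  rw [h1, Finset.sum_sub_distrib, h2, sub_self, zero_add]
  rw [Fin.sum_univ_castSucc]
  simp
  apply Finset.sum_eq_zero
  intro i _
  rw [if_neg]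
  have := i.isLt
  omega

/-- energy -/
noncomputable def energy (L : ℝ) (x : Fin (m + 1) → ℝ) : ℝ := ∑ i, (gap L x i) ^ 2

lemma energy_step {L V : ℝ} {x x' : Fin (m + 1) → ℝ} (h : Step L V x x') :
    energy L x' ≤ energy L x - 4 * ∑ i, (x' i - x i) ^ 2 := by
  set e : Fin (m + 1) → ℝ := fun i => x' i - x i with he
  have h1 : ∀ i, (gap L x' i) ^ 2 = (gap L x i) ^ 2 + 2 * (gap L x i * e (i + 1))
      - 2 * (gap L x i * e i) + (e (i + 1) - e i) ^ 2 := by
    intro i
    rw [gap_update L x x' i]
    simp only [he]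
    ring
  have h2 : ∑ i, gap L x i * e (i + 1) = ∑ i, gap L x (i - 1) * e i := by
    rw [← Equiv.sum_comp (Equiv.addRight (1 : Fin (m + 1))) (fun i => gap L x (i - 1) * e i)]
    simp
  have h3 : ∑ i, (e (i + 1)) ^ 2 = ∑ i, (e i) ^ 2 :=
    Equiv.sum_comp (Equiv.addRight (1 : Fin (m + 1))) (fun i => (e i) ^ 2)
  have h4 : ∑ i, (e (i + 1) - e i) ^ 2 ≤ 4 * ∑ i, (e i) ^ 2 := by
    have : ∑ i, (e (i + 1) - e i) ^ 2 ≤ ∑ i, (2 * (e (i + 1)) ^ 2 + 2 * (e i) ^ 2) := by
      apply Finset.sum_le_sum
      intro i _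
      nlinarith [sq_nonneg (e (i + 1) + e i)]
    rw [Finset.sum_add_distrib, ← Finset.mul_sum, ← Finset.mul_sum, h3] at this
    linarith
  have h5 : ∀ i, 4 * (e i) ^ 2 ≤ (gap L x i - gap L x (i - 1)) * e i := by
    intro i
    have hu := h.up' i
    have hd := h.down' i
    have hd' : - e i ≤ (max 0 (gap L x (i - 1) - gap L x i)) / 4 := by
      simp only [he]; linarith
    have hu' : e i ≤ (max 0 (gap L x i - gap L x (i - 1))) / 4 := hu
    rcases le_total (gap L x i) (gap L x (i - 1)) with hh | hh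
    · rw [max_eq_left (by linarith)] at hu'
      rw [max_eq_right (by linarith)] at hd'
      nlinarith
    · rw [max_eq_right (by linarith)] at hu'
      rw [max_eq_left (by linarith)] at hd'
      nlinarith
  have h6 : 4 * ∑ i, (e i) ^ 2 ≤ ∑ i, (gap L x i * e i) - ∑ i, (gap L x (i - 1) * e i) := by
    rw [← Finset.sum_sub_distrib, Finset.mul_sum]
    apply Finset.sum_le_sum
    intro i _
    have := h5 i
    linarith
  unfold energy
  have h7 : ∑ i, (gap L x' i) ^ 2 = ∑ i, (gap L x i) ^ 2 + 2 * ∑ i, (gap L x (i - 1) * e i)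
      - 2 * ∑ i, (gap L x i * e i) + ∑ i, (e (i + 1) - e i) ^ 2 := by
    rw [← h2]
    simp_rw [h1, Finset.sum_add_distrib, Finset.sum_sub_distrib, Finset.sum_add_distrib,
      ← Finset.mul_sum]
  rw [h7]
  linarith

/-- low/high separation is preserved while no boundary sensor moves -/
lemma sep_step {L V : ℝ} {x x' : Fin (m + 1) → ℝ} (h : Step L V x x')
    (Λ : Set (Fin (m + 1))) (a b : ℝ)
    (ha : ∀ i ∈ Λ, gap L x i ≤ a) (hb : ∀ i, i ∉ Λ → b ≤ gap L x i)
    (hbd : ∀ i, ¬ (i ∈ Λ ↔ i - 1 ∈ Λ) → x' i = x i) :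
    (∀ i ∈ Λ, gap L x' i ≤ a) ∧ (∀ i, i ∉ Λ → b ≤ gap L x' i) := by
  constructor
  · intro i hi
    rw [gap_update L x x' i]
    have h1 : x i - x' i ≤ (a - gap L x i) / 4 := by
      by_cases hc : i - 1 ∈ Λ
      · have := h.down' i
        have g1 := ha i hi
        have g2 := ha _ hc
        have : max 0 (gap L x (i - 1) - gap L x i) ≤ a - gap L x i :=
          max_le (by linarith) (by linarith)
        linarith
      · have := hbd i (fun hh => hc (hh.mp hi))
        have g1 := ha i hi
        rw [this]; linarith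
    have h2 : x' (i + 1) - x (i + 1) ≤ (a - gap L x i) / 4 := by
      by_cases hc : i + 1 ∈ Λ
      · have := h.up' (i + 1)
        rw [add_sub_cancel_right] at this
        have g1 := ha i hi
        have g2 := ha _ hc
        have : max 0 (gap L x (i + 1) - gap L x i) ≤ a - gap L x i :=
          max_le (by linarith) (by linarith)
        linarith
      · have := hbd (i + 1) (fun hh => hc (hh.mpr (by rwa [add_sub_cancel_right])))
        have g1 := ha i hi
        rw [this]; linarith
    have g1 := ha i hi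
    linarith
  · intro i hi
    rw [gap_update L x x' i]
    have h1 : x' i - x i ≤ (gap L x i - b) / 4 := by
      by_cases hc : i - 1 ∈ Λ
      · have := hbd i (fun hh => hi (hh.mpr hc))
        have g1 := hb i hi
        rw [this]; linarith
      · have := h.up' i
        have g1 := hb i hi
        have g2 := hb _ hc
        have : max 0 (gap L x i - gap L x (i - 1)) ≤ gap L x i - b :=
          max_le (by linarith) (by linarith)
        linarith
    have h2 : x (i + 1) - x' (i + 1) ≤ (gap L x i - b) / 4 := by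
      by_cases hc : i + 1 ∈ Λ
      · have := hbd (i + 1) (fun hh => hi (by
          have := hh.mp hc
          rwa [add_sub_cancel_right] at this))
        have g1 := hb i hi
        rw [this]; linarith
      · have := h.down' (i + 1)
        rw [add_sub_cancel_right] at this
        have g1 := hb i hi
        have g2 := hb _ hc
        have : max 0 (gap L x i - gap L x (i + 1)) ≤ gap L x i - b :=
          max_le (by linarith) (by linarith)
        linarith
    have g1 := hb i hi
    linarith

/-- There is a boundary sensor. -/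
lemma exists_boundary (Λ : Set (Fin (m + 1))) (i0 i1 : Fin (m + 1)) (h0 : i0 ∈ Λ)
    (h1 : i1 ∉ Λ) : ∃ i, ¬ (i ∈ Λ ↔ i - 1 ∈ Λ) := by
  by_contra hc
  push Not at hc
  have key : ∀ i : Fin (m + 1), (i ∈ Λ ↔ (0 : Fin (m + 1)) ∈ Λ) := by
    intro i
    induction i using Fin.induction with
    | zero => exact Iff.rfl
    | succ i ih =>
      have h2 := hc i.succ
      have h3 : i.succ - 1 = i.castSucc := by
        rw [sub_eq_iff_eq_add]; simp
      rw [h3] at h2
      exact h2.trans ih
  exact h1 ((key i1).mpr ((key i0).mp h0))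

end RingCover
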