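import Mathlib
import Pool.Agent.R33.RingConv

namespace RingCover

open Filter Topology

variable {m : ℕ}

lemma run_inv {L V : ℝ} (hV : 0 < V) (R : Run avg (m + 1) L V) (t : ℕ) :
    ∀ i, 0 < gap L (R.pos t) i := by
  induction t with
  | zero => exact R.init
  | succ t ih =>
    have hs : Step L V (R.pos t) (R.pos (t + 1)) := by
      constructor
      · intro i
        by_cases ha : i ∈ R.active t
        · have h := R.towards t i ha
          rw [displacement_avg hV (R.frame_ne t i) ih i] at h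
          rw [Set.mem_uIcc] at h
          unfold tg
          rcases h with ⟨h1, h2⟩ | ⟨h1, h2⟩
          · exact le_trans (by linarith) (le_max_right _ _)
          · exact le_trans (by linarith) (le_max_left _ _)
        · rw [R.idle t i ha]; simp
      · intro i
        by_cases ha : i ∈ R.active t
        · have h := R.towards t i ha
          rw [displacement_avg hV (R.frame_ne t i) ih i] at h
          rw [Set.mem_uIcc] at h
          unfold tg
          rcases h with ⟨h1, h2⟩ | ⟨h1, h2⟩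
          · exact le_trans (by linarith) (le_max_left _ _)
          · exact le_trans (by linarith) (le_max_right _ _)
        · rw [R.idle t i ha]; simp
    exact hs.pos ih

lemma run_step {L V : ℝ} (hV : 0 < V) (R : Run avg (m + 1) L V) (t : ℕ) :
    Step L V (R.pos t) (R.pos (t + 1)) := by
  have ih := run_inv hV R t
  constructor
  · intro i
    by_cases ha : i ∈ R.active t
    · have h := R.towards t i ha
      rw [displacement_avg hV (R.frame_ne t i) ih i] at h
      rw [Set.mem_uIcc] at h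
      unfold tg
      rcases h with ⟨h1, h2⟩ | ⟨h1, h2⟩
      · exact le_trans (by linarith) (le_max_right _ _)
      · exact le_trans (by linarith) (le_max_left _ _)
    · rw [R.idle t i ha]; simp
  · intro i
    by_cases ha : i ∈ R.active t
    · have h := R.towards t i ha
      rw [displacement_avg hV (R.frame_ne t i) ih i] at h
      rw [Set.mem_uIcc] at h
      unfold tg
      rcases h with ⟨h1, h2⟩ | ⟨h1, h2⟩
      · exact le_trans (by linarith) (le_max_left _ _)
      · exact le_trans (by linarith) (le_max_right _ _)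
    · rw [R.idle t i ha]; simp

lemma energy_nonneg (L : ℝ) (x : Fin (m + 1) → ℝ) : 0 ≤ energy L x :=
  Finset.sum_nonneg fun i _ => sq_nonneg _

lemma energy_anti {L V : ℝ} (hV : 0 < V) (R : Run avg (m + 1) L V) :
    Antitone (fun t => energy L (R.pos t)) := by
  apply antitone_nat_of_succ_le
  intro t
  have h1 := energy_step (run_step hV R t)
  have h2 : 0 ≤ ∑ i, (R.pos (t + 1) i - R.pos t i) ^ 2 := Finset.sum_nonneg fun i _ => sq_nonneg _
  linarith

lemma drop_small {L V : ℝ} (hV : 0 < V) (R : Run avg (m + 1) L V) {κ : ℝ} (hκ : 0 < κ) :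
    ∃ T, ∀ t, T ≤ t → energy L (R.pos t) - energy L (R.pos (t + 1)) < κ := by
  have hb : BddBelow (Set.range (fun t => energy L (R.pos t))) :=
    ⟨0, by rintro _ ⟨t, rfl⟩; exact energy_nonneg _ _⟩
  have h1 := tendsto_atTop_ciInf (energy_anti hV R) hb
  have h2 := (tendsto_add_atTop_iff_nat 1).mpr h1
  have h3 := h1.sub h2
  rw [sub_self] at h3
  have h4 := h3.eventually (gt_mem_nhds hκ)
  rw [eventually_atTop] at h4
  exact h4

theorem avg_covers {L V : ℝ} (hL : 0 < L) (hVd : L / ((m + 1 : ℕ) : ℝ) < V)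
    (R : Run avg (m + 1) L V) {ε : ℝ} (hε : 0 < ε) :
    ∃ T, ∀ t, T ≤ t → Covers L ε (R.pos t) := by
  classical
  have hn : (0 : ℝ) < ((m + 1 : ℕ) : ℝ) := by positivity
  have hd0 : 0 < L / ((m + 1 : ℕ) : ℝ) := div_pos hL hn
  have hV : 0 < V := hd0.trans hVd
  by_contra hcon
  push Not at hcon
  -- a cluster point of the gap vectors at the bad times
  set g : ℕ → Fin (m + 1) → ℝ := fun t i => gap L (R.pos t) i with hg
  set K : Set (Fin (m + 1) → ℝ) := Set.pi Set.univ (fun _ => Set.Icc 0 L) ∩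
    {s | ∑ i, s i = L} with hK
  have hKc : IsCompact K := by
    apply (isCompact_univ_pi fun _ => isCompact_Icc).inter_right
    exact isClosed_eq (continuous_finsetSum _ fun i _ => continuous_apply i) continuous_const
  have hgK : ∀ t, g t ∈ K := by
    intro t
    refine ⟨?_, sum_gap L (R.pos t)⟩
    intro i _
    have hp := run_inv hV R t
    refine ⟨(hp i).le, ?_⟩
    rw [← sum_gap L (R.pos t)]
    exact Finset.single_le_sum (f := fun i => gap L (R.pos t) i) (fun j _ => (hp j).le)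
      (Finset.mem_univ i)
  set F : Filter ℕ := atTop ⊓ 𝓟 {t | ¬ Covers L ε (R.pos t)} with hF
  have hFne : F.NeBot := by
    rw [hF, ← frequently_iff_neBot, frequently_atTop]
    intro T
    obtain ⟨t, h1, h2⟩ := hcon T
    exact ⟨t, h1, h2⟩
  obtain ⟨s, hsK, hs⟩ := hKc (f := map g F) (by
    rw [le_principal_iff, mem_map]
    exact Filter.univ_mem' hgK)
  have hclose : ∀ ρ, 0 < ρ → ∀ T, ∃ t, T ≤ t ∧ ¬ Covers L ε (R.pos t) ∧
      ∀ i, |gap L (R.pos t) i - s i| < ρ := by
    intro ρ hρ T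
    have h1 : Metric.ball s ρ ∈ 𝓝 s := Metric.ball_mem_nhds s hρ
    have h2 : g '' ({t | T ≤ t} ∩ {t | ¬ Covers L ε (R.pos t)}) ∈ map g F := by
      apply image_mem_map
      exact inter_mem_inf (mem_atTop T) (mem_principal_self _)
    obtain ⟨z, hz1, t, ⟨ht1, ht2⟩, rfl⟩ := (clusterPt_iff_nonempty.mp hs) h1 h2
    refine ⟨t, ht1, ht2, fun i => ?_⟩
    have := (dist_pi_lt_iff hρ).mp (Metric.mem_ball.mp hz1) i
    rwa [Real.dist_eq] at this
  have hsum : ∑ i, s i = L := hsK.2
  -- the smallest value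
  obtain ⟨i0, -, hi0⟩ := Finset.exists_min_image (Finset.univ : Finset (Fin (m + 1))) s
    Finset.univ_nonempty
  set μ := s i0 with hμ
  set Λ : Set (Fin (m + 1)) := {i | s i = μ} with hΛ
  have hne : ∃ i, i ∉ Λ := by
    by_contra hc
    push Not at hc
    have hall : ∀ i, s i = L / ((m + 1 : ℕ) : ℝ) := by
      have h1 : ∑ i, s i = ((m + 1 : ℕ) : ℝ) * μ := by
        rw [Finset.sum_congr rfl (fun i _ => hc i)]
        simp
      intro i
      have h2 : s i = μ := hc i
      rw [h2, eq_div_iff hn.ne', mul_comm, ← h1, hsum]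
    obtain ⟨t, _, h2, h3⟩ := hclose ε hε 0
    apply h2
    intro i
    have h4 := h3 i
    rw [hall i, abs_lt] at h4
    constructor <;> linarith [h4.1, h4.2]
  obtain ⟨i1, hi1⟩ := hne
  -- the second smallest value
  obtain ⟨i2, hi2, hi2'⟩ := Finset.exists_min_image
    (Finset.univ.filter (fun i => i ∉ Λ) : Finset (Fin (m + 1))) s ⟨i1, by simp [hi1]⟩
  have hi2Λ : i2 ∉ Λ := by simpa using hi2
  have hμ2 : μ < s i2 := lt_of_le_of_ne (hi0 i2 (Finset.mem_univ _)) (fun h => hi2Λ h.symm)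
  have hμd : μ < L / ((m + 1 : ℕ) : ℝ) := by
    rw [lt_div_iff₀ hn, ← hsum]
    have h1 : ∑ _i : Fin (m + 1), μ < ∑ i, s i :=
      Finset.sum_lt_sum (fun i _ => hi0 i (Finset.mem_univ _)) ⟨i2, Finset.mem_univ _, hμ2⟩
    have h2 : ∑ _i : Fin (m + 1), μ = μ * ((m + 1 : ℕ) : ℝ) := by simp [mul_comm]
    linarith
  have hμV : μ < V := hμd.trans hVd
  set ρ : ℝ := min ((V - μ) / 2) ((s i2 - μ) / 4) with hρ
  have hρ0 : 0 < ρ := lt_min (by linarith) (by linarith)
  have hρ1 : ρ ≤ (V - μ) / 2 := min_le_left _ _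
  have hρ2 : ρ ≤ (s i2 - μ) / 4 := min_le_right _ _
  set a := μ + ρ with ha
  set b := s i2 - ρ with hb
  have hab : a < b := by rw [ha, hb]; linarith
  have haV : a < V := by rw [ha]; linarith
  set β := min V b - a with hβ
  have hβ0 : 0 < β := by
    have : a < min V b := lt_min haV hab
    linarith
  have hκ : 0 < 4 * (min R.δ (β / 4)) ^ 2 := by
    have : 0 < min R.δ (β / 4) := lt_min R.δ_pos (by linarith)
    positivity
  obtain ⟨T, hT⟩ := drop_small hV R hκ
  obtain ⟨t0, ht0, _, hcl⟩ := hclose ρ hρ0 T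
  have hsep0 : (∀ i ∈ Λ, gap L (R.pos t0) i ≤ a) ∧ (∀ i, i ∉ Λ → b ≤ gap L (R.pos t0) i) := by
    constructor
    · intro i hi
      have h1 := abs_lt.mp (hcl i)
      have h2 : s i = μ := hi
      rw [ha]; linarith [h1.2]
    · intro i hi
      have h1 := abs_lt.mp (hcl i)
      have h2 : s i2 ≤ s i := hi2' i (by simp [hi])
      rw [hb]; linarith [h1.1]
  obtain ⟨ib, hib⟩ := exists_boundary Λ i0 i1 rfl hi1
  have hex : ∃ k, ∃ i, ¬ (i ∈ Λ ↔ i - 1 ∈ Λ) ∧ i ∈ R.active (t0 + k) := by
    obtain ⟨t, ht, hact⟩ := R.fair ib t0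
    refine ⟨t - t0, ib, hib, ?_⟩
    rwa [Nat.add_sub_cancel' ht]
  set k0 := Nat.find hex with hk0
  have hk0s := Nat.find_spec hex
  have hk0m : ∀ k, k < k0 → ∀ i, ¬ (i ∈ Λ ↔ i - 1 ∈ Λ) → i ∉ R.active (t0 + k) := by
    intro k hk i hi hact
    exact Nat.find_min hex hk ⟨i, hi, hact⟩
  have hsep : ∀ k, k ≤ k0 → (∀ i ∈ Λ, gap L (R.pos (t0 + k)) i ≤ a) ∧
      (∀ i, i ∉ Λ → b ≤ gap L (R.pos (t0 + k)) i) := by
    intro k
    induction k with
    | zero => intro _; exact hsep0
    | succ k ih =>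
      intro hk
      have h1 := ih (by omega)
      exact sep_step (run_step hV R (t0 + k)) Λ a b h1.1 h1.2
        (fun i hi => R.idle (t0 + k) i (hk0m k (by omega) i hi))
  obtain ⟨i, hi, hact⟩ := hk0s
  rw [← hk0] at hact
  obtain ⟨hs1, hs2⟩ := hsep k0 le_rfl
  have hdisp : β / 4 ≤ |displacement avg L V (R.frame (t0 + k0) i) (R.pos (t0 + k0)) i| := by
    rw [displacement_avg hV (R.frame_ne _ _) (run_inv hV R _) i]
    by_cases h1 : i ∈ Λ
    · have h2 : i - 1 ∉ Λ := fun h => hi ⟨fun _ => h, fun _ => h1⟩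
      have h3 : min V (gap L (R.pos (t0 + k0)) i) ≤ a := (min_le_right _ _).trans (hs1 i h1)
      have h4 : min V b ≤ min V (gap L (R.pos (t0 + k0)) (i - 1)) :=
        min_le_min le_rfl (hs2 _ h2)
      rw [abs_of_nonpos (by linarith)]
      linarith
    · have h2 : i - 1 ∈ Λ := by
        by_contra h; exact hi ⟨fun hh => absurd hh h1, fun hh => absurd hh h⟩
      have h3 : min V (gap L (R.pos (t0 + k0)) (i - 1)) ≤ a := (min_le_right _ _).trans (hs1 _ h2)
      have h4 : min V b ≤ min V (gap L (R.pos (t0 + k0)) i) :=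
        min_le_min le_rfl (hs2 _ h1)
      rw [abs_of_nonneg (by linarith)]
      linarith
  have hmv : min R.δ (β / 4) ≤ |R.pos (t0 + k0 + 1) i - R.pos (t0 + k0) i| :=
    (min_le_min le_rfl hdisp).trans (R.progress _ i hact)
  have hsq : (min R.δ (β / 4)) ^ 2 ≤ (R.pos (t0 + k0 + 1) i - R.pos (t0 + k0) i) ^ 2 := by
    rw [← sq_abs (R.pos (t0 + k0 + 1) i - R.pos (t0 + k0) i)]
    have : 0 ≤ min R.δ (β / 4) := (lt_min R.δ_pos (by linarith)).le
    exact pow_le_pow_left₀ this hmv 2
  have hdrop := energy_step (run_step hV R (t0 + k0))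
  have hsingle : (R.pos (t0 + k0 + 1) i - R.pos (t0 + k0) i) ^ 2 ≤
      ∑ j, (R.pos (t0 + k0 + 1) j - R.pos (t0 + k0) j) ^ 2 :=
    Finset.single_le_sum (f := fun j => (R.pos (t0 + k0 + 1) j - R.pos (t0 + k0) j) ^ 2)
      (fun j _ => sq_nonneg _) (Finset.mem_univ i)
  have := hT (t0 + k0) (by omega)
  linarith

end RingCover
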