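import Mathlib

/-!
Helper file for MP_d14146_co: an `ℓ₁`-embeddable sphere-of-influence metric for every connected
graph.
-/

set_option autoImplicit false

namespace Pool.Agent.R33.SIG

open Finset Classical

/-- A rooted search order of a graph: `rk` is an injective rank, `root` has the smallest rank, and
`p v` is the neighbour of `v` of smallest rank (for `v ≠ root`). -/
structure Order {V : Type} (G : SimpleGraph V) where
  rk : V → ℕ
  inj : Function.Injective rk
  root : V
  p : V → V
  p_root : p root = root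
  p_adj : ∀ v, v ≠ root → G.Adj v (p v)
  p_lt : ∀ v, v ≠ root → rk (p v) < rk v
  p_min : ∀ v u, v ≠ root → G.Adj v u → rk (p v) ≤ rk u
  root_min : ∀ v, rk root ≤ rk v

variable {V : Type} {G : SimpleGraph V} (O : Order G)

namespace Order

/-- `v` is a descendant of `j`. -/
def D (j v : V) : Prop := ∃ i : ℕ, (O.p^[i]) v = j

theorem D_refl (v : V) : O.D v v := ⟨0, rfl⟩

theorem D_iff (j v : V) : O.D j v ↔ v = j ∨ O.D j (O.p v) := by
  constructor
  · rintro ⟨i, hi⟩
    cases i with
    | zero => left; simpa using hi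
    | succ i => right; exact ⟨i, by simpa [Function.iterate_succ_apply] using hi⟩
  · rintro (h | ⟨i, hi⟩)
    · exact ⟨0, by simpa using h⟩
    · exact ⟨i + 1, by simpa [Function.iterate_succ_apply] using hi⟩

theorem p_le (v : V) : O.rk (O.p v) ≤ O.rk v := by
  by_cases h : v = O.root
  · rw [h, O.p_root]
  · exact (O.p_lt v h).le

theorem D_rk {j v : V} (h : O.D j v) : O.rk j ≤ O.rk v := by
  obtain ⟨i, hi⟩ := h
  induction i generalizing v with
  | zero => simp at hi; rw [hi]
  | succ i ih =>
    have := ih (v := O.p v) (by simpa [Function.iterate_succ_apply] using hi)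
    exact this.trans (O.p_le v)

theorem not_D {j v : V} (h : O.rk v < O.rk j) : ¬ O.D j v := fun hD => by
  have := O.D_rk hD
  omega

theorem D_up {j s : V} (h : O.D j (O.p s)) : O.D j s := (O.D_iff j s).2 (Or.inr h)

theorem ne_root_of_lt {u s : V} (h : O.rk u < O.rk s) : s ≠ O.root := by
  rintro rfl
  have := O.root_min u
  omega

/-- The edges of `G` outside the tree. -/
def A (j k : V) : Prop := G.Adj j k ∧ O.rk (O.p k) < O.rk j ∧ O.rk j < O.rk k

/-- The cuts. -/
def S (j k v : V) : Prop := O.D j v ∨ (O.A j k ∧ O.D k v)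

/-- indicator -/
noncomputable def f (j k v : V) : ℝ := if O.S j k v then 1 else 0

variable [Fintype V]

/-- weights -/
noncomputable def w (j : V) : ℝ := ((Fintype.card V : ℝ) + 1) ^ (O.rk j)

theorem w_pos (j : V) : 0 < O.w j := by
  unfold w; positivity

/-- the metric -/
noncomputable def dd (u v : V) : ℝ := ∑ j, ∑ k, O.w j * |O.f j k u - O.f j k v|

theorem dd_symm (u v : V) : O.dd u v = O.dd v u := by
  unfold dd
  refine sum_congr rfl fun j _ => sum_congr rfl fun k _ => ?_
  rw [abs_sub_comm]

theorem dd_nonneg (u v : V) : 0 ≤ O.dd u v :=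
  sum_nonneg fun j _ => sum_nonneg fun k _ => mul_nonneg (O.w_pos j).le (abs_nonneg _)

theorem dd_tri (u v x : V) : O.dd u x ≤ O.dd u v + O.dd v x := by
  unfold dd
  rw [← sum_add_distrib]
  refine sum_le_sum fun j _ => ?_
  rw [← sum_add_distrib]
  refine sum_le_sum fun k _ => ?_
  rw [← mul_add]
  exact mul_le_mul_of_nonneg_left (abs_sub_le _ _ _) (O.w_pos j).le

/-- the correction term -/
noncomputable def corr (s u : V) : ℝ := ∑ j, (if O.A j s ∧ O.D j u then O.w j else 0)

theorem corr_nonneg (s u : V) : 0 ≤ O.corr s u :=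
  sum_nonneg fun j _ => by split_ifs <;> [exact (O.w_pos j).le; exact le_rfl]

theorem term {s u : V} (h : O.rk u < O.rk s) (j k : V) :
    |O.f j k s - O.f j k (O.p s)| + |O.f j k (O.p s) - O.f j k u| =
      |O.f j k s - O.f j k u| + 2 * (if k = s ∧ O.A j s ∧ O.D j u then 1 else 0) := by
  have hs : s ≠ O.root := O.ne_root_of_lt h
  have hps := O.p_lt s hs
  have hmono : O.S j k (O.p s) → O.S j k s := by
    rintro (h1 | ⟨h1, h2⟩)
    · exact Or.inl (O.D_up h1)
    · exact Or.inr ⟨h1, O.D_up h2⟩
  by_cases hfs : O.S j k s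
  · by_cases hfp : O.S j k (O.p s)
    · have hno : ¬ (k = s ∧ O.A j s ∧ O.D j u) := by
        rintro ⟨rfl, hA, -⟩
        rcases hfp with h1 | ⟨-, h1⟩
        · exact O.not_D hA.2.1 h1
        · exact O.not_D hps h1
      rw [if_neg hno]
      have e1 : O.f j k s = 1 := if_pos hfs
      have e2 : O.f j k (O.p s) = 1 := if_pos hfp
      rw [e1, e2]; simp
    · have e1 : O.f j k s = 1 := if_pos hfs
      have e2 : O.f j k (O.p s) = 0 := if_neg hfp
      have key : O.S j k u ↔ (k = s ∧ O.A j s ∧ O.D j u) := by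
        have h1 : ¬ O.D j (O.p s) := fun h1 => hfp (Or.inl h1)
        have h2 : ¬ (O.A j k ∧ O.D k (O.p s)) := fun h2 => hfp (Or.inr h2)
        rcases hfs with h3 | ⟨h3, h4⟩
        · rw [O.D_iff] at h3
          rcases h3 with rfl | h3
          · constructor
            · rintro (h5 | ⟨h5, h6⟩)
              · exact absurd h5 (O.not_D h)
              · exact absurd h6 (O.not_D (h.trans h5.2.2))
            · rintro ⟨rfl, h5, -⟩
              exact absurd h5.2.2 (lt_irrefl _)
          · exact absurd h3 h1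
        · rw [O.D_iff] at h4
          rcases h4 with rfl | h4
          · constructor
            · rintro (h5 | ⟨h5, h6⟩)
              · exact ⟨rfl, h3, h5⟩
              · exact absurd h6 (O.not_D h)
            · rintro ⟨-, -, h5⟩
              exact Or.inl h5
          · exact absurd ⟨h3, h4⟩ h2
      by_cases hfu : O.S j k u
      · have e3 : O.f j k u = 1 := if_pos hfu
        rw [e1, e2, e3, if_pos (key.1 hfu)]; norm_num
      · have e3 : O.f j k u = 0 := if_neg hfu
        rw [e1, e2, e3, if_neg (fun h5 => hfu (key.2 h5))]; norm_num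
  · have hfp : ¬ O.S j k (O.p s) := fun h1 => hfs (hmono h1)
    have e1 : O.f j k s = 0 := if_neg hfs
    have e2 : O.f j k (O.p s) = 0 := if_neg hfp
    have hno : ¬ (k = s ∧ O.A j s ∧ O.D j u) := by
      rintro ⟨rfl, hA, -⟩
      exact hfs (Or.inr ⟨hA, O.D_refl _⟩)
    rw [e1, e2, if_neg hno]; simp

theorem formula {s u : V} (h : O.rk u < O.rk s) :
    O.dd s (O.p s) + O.dd (O.p s) u = O.dd s u + 2 * O.corr s u := by
  unfold dd corr
  rw [← sum_add_distrib, mul_sum, ← sum_add_distrib]
  refine sum_congr rfl fun j _ => ?_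
  rw [← sum_add_distrib]
  have : ∀ k, O.w j * |O.f j k s - O.f j k (O.p s)| + O.w j * |O.f j k (O.p s) - O.f j k u| =
      O.w j * |O.f j k s - O.f j k u| +
        (if k = s then 2 * (if O.A j s ∧ O.D j u then O.w j else 0) else 0) := by
    intro k
    rw [← mul_add, O.term h j k, mul_add]
    congr 1
    by_cases hk : k = s
    · by_cases h2 : O.A j s ∧ O.D j u
      · simp [hk, h2]; ring
      · rw [if_neg (fun h3 => h2 h3.2), if_pos hk, if_neg h2]; ring
    · rw [if_neg (fun h3 => hk h3.1), if_neg hk]; ring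
  rw [sum_congr rfl fun k _ => this k, sum_add_distrib]
  congr 1
  simp

/-- two special coordinates of `j` give a lower bound -/
theorem two_coord {j u v : V} (hj : j ≠ O.root) (hu : ¬ O.D j u) (hv : O.D j v) :
    2 * O.w j ≤ ∑ k, O.w j * |O.f j k u - O.f j k v| := by
  have hne : j ≠ O.p j := fun h => by
    have := O.p_lt j hj
    rw [← h] at this
    exact lt_irrefl _ this
  have hsub : ({j, O.p j} : Finset V) ⊆ univ := subset_univ _
  refine le_trans ?_ (sum_le_sum_of_subset_of_nonneg hsub fun k _ _ =>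
    mul_nonneg (O.w_pos j).le (abs_nonneg _))
  rw [sum_pair hne]
  have a1 : ¬ O.A j j := fun h => lt_irrefl _ h.2.2
  have a2 : ¬ O.A j (O.p j) := fun h => by
    have := O.p_le j
    have := h.2.2
    omega
  have f1 : ∀ x, O.S j j x ↔ O.D j x := fun x =>
    ⟨fun h => h.elim id fun h => absurd h.1 a1, Or.inl⟩
  have f2 : ∀ x, O.S j (O.p j) x ↔ O.D j x := fun x =>
    ⟨fun h => h.elim id fun h => absurd h.1 a2, Or.inl⟩
  have e1 : O.f j j u = 0 := if_neg (fun h => hu ((f1 u).1 h))
  have e2 : O.f j j v = 1 := if_pos ((f1 v).2 hv)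
  have e3 : O.f j (O.p j) u = 0 := if_neg (fun h => hu ((f2 u).1 h))
  have e4 : O.f j (O.p j) v = 1 := if_pos ((f2 v).2 hv)
  rw [e1, e2, e3, e4]
  norm_num
  linarith

theorem corr_le {s : V} (v : V) : 2 * O.corr s v ≤ O.dd (O.p s) v := by
  unfold corr dd
  rw [mul_sum]
  refine sum_le_sum fun j _ => ?_
  split_ifs with h
  · refine O.two_coord ?_ (O.not_D h.1.2.1) h.2
    exact O.ne_root_of_lt h.1.2.1
  · rw [mul_zero]
    exact sum_nonneg fun k _ => mul_nonneg (O.w_pos j).le (abs_nonneg _)

theorem two_w_le {s : V} (hs : s ≠ O.root) : 2 * O.w s ≤ O.dd s (O.p s) := by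
  rw [O.dd_symm]
  have h := O.two_coord hs (O.not_D (O.p_lt s hs)) (O.D_refl s)
  refine h.trans ?_
  unfold dd
  exact single_le_sum (f := fun j => ∑ k, O.w j * |O.f j k (O.p s) - O.f j k s|)
    (fun j _ => sum_nonneg fun k _ => mul_nonneg (O.w_pos j).le (abs_nonneg _)) (mem_univ s)

theorem f_zero {j k v : V} (h : O.rk v < O.rk j) : O.f j k v = 0 := by
  refine if_neg ?_
  rintro (h1 | ⟨h1, h2⟩)
  · exact O.not_D h h1
  · exact O.not_D (h.trans h1.2.2) h2

theorem f_abs_le (j k u v : V) : |O.f j k u - O.f j k v| ≤ 1 := by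
  unfold f
  split_ifs <;> norm_num

theorem dd_lt {u v : V} {R : ℕ} (hu : O.rk u < R) (hv : O.rk v < R) :
    O.dd u v < ((Fintype.card V : ℝ) + 1) ^ R := by
  set n : ℝ := (Fintype.card V : ℝ) with hn
  have h1 : O.dd u v ≤ ∑ j, (if O.rk j < R then n * O.w j else 0) := by
    unfold dd
    refine sum_le_sum fun j _ => ?_
    split_ifs with h
    · calc ∑ k, O.w j * |O.f j k u - O.f j k v| ≤ ∑ _k : V, O.w j * 1 :=
            sum_le_sum fun k _ => mul_le_mul_of_nonneg_left (O.f_abs_le j k u v) (O.w_pos j).le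
        _ = n * O.w j := by simp [hn]
    · refine (sum_eq_zero fun k _ => ?_).le
      rw [O.f_zero (lt_of_lt_of_le hu (not_lt.1 h)), O.f_zero (lt_of_lt_of_le hv (not_lt.1 h))]
      simp
  have h2 : ∑ j, (if O.rk j < R then n * O.w j else 0) ≤ ∑ i ∈ range R, n * (n + 1) ^ i := by
    rw [← sum_filter]
    have : ∑ j ∈ univ.filter (fun j => O.rk j < R), n * O.w j =
        ∑ i ∈ (univ.filter (fun j => O.rk j < R)).image O.rk, n * (n + 1) ^ i := by
      rw [sum_image (fun a _ b _ h => O.inj h)]
      rfl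
    rw [this]
    refine sum_le_sum_of_subset_of_nonneg ?_ fun i _ _ => by positivity
    intro i hi
    simp only [mem_image, mem_filter, mem_univ, true_and] at hi
    obtain ⟨j, hj, rfl⟩ := hi
    exact mem_range.2 hj
  have h3 : ∑ i ∈ range R, n * (n + 1) ^ i = (n + 1) ^ R - 1 := by
    have := geom_sum_mul (n + 1) R
    rw [← mul_sum]
    linarith [this]
  linarith

/-- (i) -/
theorem rho_le {s u : V} (h : O.rk u < O.rk s) : O.dd s (O.p s) ≤ O.dd s u := by
  have h1 := O.formula h
  have h2 := O.corr_le (s := s) u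
  linarith

theorem rho_mono {u s : V} (h : O.rk u < O.rk s) (hu : u ≠ O.root) :
    O.dd u (O.p u) < O.dd s (O.p s) := by
  have h1 := O.two_w_le (O.ne_root_of_lt h)
  have h2 := O.dd_lt (R := O.rk s) h ((O.p_lt u hu).trans h)
  have h3 := O.w_pos s
  unfold w at h1 h3
  linarith

theorem rho_le_any {v u : V} (hv : v ≠ O.root) (huv : u ≠ v) : O.dd v (O.p v) ≤ O.dd v u := by
  rcases lt_trichotomy (O.rk u) (O.rk v) with h | h | h
  · exact O.rho_le h
  · exact absurd (O.inj h) huv
  · have h1 := O.rho_mono h hv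
    have h2 := O.rho_le h
    rw [O.dd_symm v u]
    linarith

theorem corr_eq_zero {s u : V} (h : ∀ j, O.A j s → O.D j u → False) : O.corr s u = 0 :=
  sum_eq_zero fun j _ => if_neg fun h1 => h j h1.1 h1.2

/-- (ii) -/
theorem nonadj_ge {s u : V} (h : O.rk u < O.rk s) (hna : ¬ G.Adj u s) (r : ℝ)
    (hr : ∀ v, v ≠ u → r ≤ O.dd u v) : O.dd s (O.p s) + r ≤ O.dd s u := by
  have hs := O.ne_root_of_lt h
  have hup : O.p s ≠ u := fun h1 => hna (h1 ▸ (O.p_adj s hs).symm)
  have h1 := O.formula h
  suffices hsuff : r + 2 * O.corr s u ≤ O.dd (O.p s) u by linarith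
  by_cases hj : ∃ j, O.A j s ∧ O.D j u
  · obtain ⟨j0, hA0, hD0⟩ := hj
    have hju : u ≠ j0 := fun h2 => hna (h2 ▸ hA0.1)
    have hD1 : O.D j0 (O.p u) := ((O.D_iff j0 u).1 hD0).resolve_left hju
    have r1 := O.D_rk hD1
    have r0 := O.D_rk hD0
    have hA1 := hA0.2.1
    have hpu : O.rk (O.p s) < O.rk u := by omega
    have hur := O.ne_root_of_lt hpu
    have h2 := O.formula hpu
    have h3 : O.corr u (O.p s) = 0 := by
      apply O.corr_eq_zero
      intro j hA hD
      have := O.D_rk hD
      have := hA.2.1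
      omega
    rw [h3] at h2
    have h4 := O.corr_le (s := s) (O.p u)
    have h5 : O.corr s u ≤ O.corr s (O.p u) := by
      unfold corr
      refine sum_le_sum fun j _ => ?_
      split_ifs with c1 c2
      · exact le_rfl
      · exfalso
        apply c2
        refine ⟨c1.1, ((O.D_iff j u).1 c1.2).resolve_left ?_⟩
        rintro rfl
        exact hna c1.1.1
      · exact (O.w_pos j).le
      · exact le_rfl
    have h6 := hr (O.p u) (fun h7 => by
      have := O.p_lt u hur
      rw [h7] at this
      exact lt_irrefl _ this)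
    rw [O.dd_symm (O.p s) u]
    rw [O.dd_symm (O.p s) (O.p u)] at h4
    linarith
  · push Not at hj
    rw [O.corr_eq_zero fun j hA hD => hj j hA hD]
    have := hr (O.p s) hup
    rw [O.dd_symm (O.p s) u]
    linarith

/-- (iii) -/
theorem adj_lt {s u : V} (h : O.rk u < O.rk s) (ha : G.Adj u s) (hup : u ≠ O.p s) :
    u ≠ O.root ∧ O.dd s u < O.dd s (O.p s) + O.dd u (O.p u) := by
  have hs := O.ne_root_of_lt h
  have hlt : O.rk (O.p s) < O.rk u :=
    lt_of_le_of_ne (O.p_min s u hs ha.symm) fun h1 => hup (O.inj h1).symm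
  have hur := O.ne_root_of_lt hlt
  refine ⟨hur, ?_⟩
  have h1 := O.formula h
  have h2 : O.w u ≤ O.corr s u := by
    unfold corr
    have := single_le_sum (f := fun j => if O.A j s ∧ O.D j u then O.w j else 0)
      (fun j _ => by
        show 0 ≤ (if O.A j s ∧ O.D j u then O.w j else 0)
        split_ifs <;> [exact (O.w_pos j).le; exact le_rfl]) (mem_univ u)
    have h3 : (if O.A u s ∧ O.D u u then O.w u else 0) = O.w u :=
      if_pos ⟨⟨ha, hlt, h⟩, O.D_refl u⟩
    simp only [h3] at this
    exact this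
  have h3 := O.dd_tri (O.p s) (O.p u) u
  have h4 := O.dd_lt (R := O.rk u) hlt (O.p_lt u hur)
  have h5 := O.w_pos u
  rw [O.dd_symm (O.p u) u] at h3
  unfold w at h2 h5
  linarith

end Order

/-- Every finite connected graph with at least one vertex has a search order. -/
theorem exists_order [Fintype V] (hG : G.Connected) : Nonempty (Order G) := by
  obtain ⟨r⟩ := hG.nonempty
  set e := Fintype.equivFin V with he
  set n := Fintype.card V with hn
  let rk : V → ℕ := fun v => if v = r then 0 else G.dist r v * n + (e v : ℕ)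
  have hrk0 : rk r = 0 := if_pos rfl
  have hrk : ∀ v, v ≠ r → rk v = G.dist r v * n + (e v : ℕ) := fun v hv => if_neg hv
  have hlt : ∀ v, ((e v : Fin n) : ℕ) < n := fun v => (e v).2
  have hdpos : ∀ v, v ≠ r → 1 ≤ G.dist r v := fun v hv =>
    (hG.pos_dist_of_ne (Ne.symm hv))
  have hpos : ∀ v, v ≠ r → n ≤ rk v := by
    intro v hv
    rw [hrk v hv]
    have := Nat.mul_le_mul_right n (hdpos v hv)
    omega
  have hnpos : ∀ v : V, 0 < n := fun v => lt_of_le_of_lt (Nat.zero_le _) (hlt v)
  have hinj : Function.Injective rk := by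
    intro a b hab
    by_cases ha : a = r
    · by_cases hb : b = r
      · rw [ha, hb]
      · exfalso
        have h1 := hpos b hb
        rw [← hab, ha, hrk0] at h1
        have := hnpos a
        omega
    · by_cases hb : b = r
      · exfalso
        have h1 := hpos a ha
        rw [hab, hb, hrk0] at h1
        have := hnpos a
        omega
      · rw [hrk a ha, hrk b hb] at hab
        have h1 : ((e a : Fin n) : ℕ) = e b := by
          have := congrArg (· % n) hab
          simpa [Nat.mul_add_mod', Nat.mod_eq_of_lt (hlt a), Nat.mod_eq_of_lt (hlt b)] using this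
        exact e.injective (Fin.ext h1)
  -- a neighbour of smaller rank
  have hnb : ∀ v, v ≠ r → ∃ u, G.Adj v u ∧ rk u < rk v := by
    intro v hv
    obtain ⟨q, hq⟩ := hG.exists_walk_length_eq_dist v r
    cases q with
    | nil => exact absurd rfl hv
    | @cons _ u _ huv q' =>
      refine ⟨u, huv, ?_⟩
      have h1 : G.dist u r ≤ q'.length := SimpleGraph.dist_le q'
      have h2 : q'.length + 1 = G.dist v r := by simpa using hq
      rw [hrk v hv]
      by_cases hu : u = r
      · rw [hu, hrk0]
        have := hpos v hv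
        rw [hrk v hv] at this
        have := hnpos v
        omega
      · rw [hrk u hu]
        rw [SimpleGraph.dist_comm (u := r) (v := u), SimpleGraph.dist_comm (u := r) (v := v)]
        have h3 : (G.dist u r + 1) * n ≤ G.dist v r * n := Nat.mul_le_mul_right n (by omega)
        have := hlt u
        rw [Nat.add_mul] at h3
        omega
  have hmin : ∀ v, v ≠ r → ∃ u, G.Adj v u ∧ ∀ x, G.Adj v x → rk u ≤ rk x := by
    intro v hv
    have hne : (G.neighborSet v).Nonempty := by
      obtain ⟨u, hu, -⟩ := hnb v hv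
      exact ⟨u, hu⟩
    obtain ⟨u, hu, hu2⟩ := (G.neighborSet v).toFinite.exists_minimalFor rk _ hne
    refine ⟨u, hu, fun x hx => ?_⟩
    by_contra hlt
    push Not at hlt
    exact absurd (hu2 hx hlt.le) (by omega)
  choose! q hq1 hq2 using hmin
  refine ⟨{ rk := rk, inj := hinj, root := r, p := fun v => if v = r then r else q v,
            p_root := if_pos rfl, p_adj := ?_, p_lt := ?_, p_min := ?_, root_min := ?_ }⟩
  · intro v hv
    rw [if_neg hv]
    exact hq1 v hv
  · intro v hv
    rw [if_neg hv]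
    obtain ⟨u, hu1, hu2⟩ := hnb v hv
    exact lt_of_le_of_lt (hq2 v hv u hu1) hu2
  · intro v u hv hvu
    rw [if_neg hv]
    exact hq2 v hv u hvu
  · intro v
    rw [hrk0]
    exact Nat.zero_le _

end Pool.Agent.R33.SIG
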