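import Pool.Agent.R59.SP.Defs

/-!
# LA3 (MP_dc5c84_pr): determinant of a positive semidefinite matrix with diagonal entries at most one
-/

set_option autoImplicit false

namespace Pool.Agent.R33

open R59.SP
open scoped ComplexOrder

theorem la3 : S_LA3 := by
  intro n A hA hd
  have hH := hA.isHermitian
  have hdet : A.det = ((∏ i, hH.eigenvalues i : ℝ) : ℂ) := by
    rw [hH.det_eq_prod_eigenvalues]
    push_cast
    rfl
  have htr : ∑ i, hH.eigenvalues i ≤ n := by
    have h1 := hH.trace_eq_sum_eigenvalues
    have h2 : (A.trace).re = ∑ i, hH.eigenvalues i := by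
      rw [h1]
      simp
    rw [← h2, Matrix.trace, Complex.re_sum]
    calc ∑ i, (A.diag i).re ≤ ∑ _i : Fin n, (1 : ℝ) := Finset.sum_le_sum fun i _ => hd i
      _ = n := by simp
  have hpos : ∀ i, 0 ≤ hH.eigenvalues i := hA.eigenvalues_nonneg
  refine ⟨?_, ?_, ?_⟩
  · rw [hdet, Complex.ofReal_re]
    exact Finset.prod_nonneg fun i _ => hpos i
  · rw [hdet, Complex.ofReal_re]
    calc ∏ i, hH.eigenvalues i ≤ ∏ i, Real.exp (hH.eigenvalues i - 1) :=
          Finset.prod_le_prod (fun i _ => hpos i) fun i _ => by
            have := Real.add_one_le_exp (hH.eigenvalues i - 1)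
            linarith
      _ = Real.exp (∑ i, (hH.eigenvalues i - 1)) := (Real.exp_sum _ _).symm
      _ ≤ 1 := by
        rw [Real.exp_le_one_iff, Finset.sum_sub_distrib]
        simp only [Finset.sum_const, Finset.card_univ, Fintype.card_fin, nsmul_eq_mul, mul_one]
        linarith
  · rw [hdet, Complex.ofReal_im]

end Pool.Agent.R33
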