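import Pool.Agent.R59.SP.Defs

/-!
# PROBINT (MP_dc5c84_pr): integrability of the sums over tuples of points
-/

set_option autoImplicit false

namespace Pool.Agent.R33.SPP

open R59.SP MeasureTheory Filter Topology
open scoped ENNReal

/-- the power of a sum is the sum over tuples -/
lemma tsum_pow_eq {ι : Type} (Φ : ι → ℝ≥0∞) (n : ℕ) :
    ∑' f : Fin n → ι, ∏ i, Φ (f i) = (∑' j, Φ j) ^ n := by
  induction n with
  | zero =>
    rw [pow_zero, tsum_eq_single (default : Fin 0 → ι) (fun b hb => absurd (Subsingleton.elim _ _) hb)]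
    simp
  | succ n ih =>
    rw [← (Fin.consEquiv (fun _ : Fin (n + 1) => ι)).tsum_eq, ENNReal.tsum_prod', pow_succ', ← ih,
      ← ENNReal.tsum_mul_right]
    refine tsum_congr fun a => ?_
    rw [← ENNReal.tsum_mul_left]
    refine tsum_congr fun g => ?_
    rw [Fin.prod_univ_succ]
    simp [Fin.consEquiv]

/-- Hölder's inequality for a weighted sum -/
lemma holder (a X : ℤ → ℝ≥0∞) (n : ℕ) (hn : 1 ≤ n) :
    (∑' L, a L * X L) ^ n ≤
      ((∑' L, a L) ^ (1 - (n : ℝ)⁻¹)) ^ n * ∑' L, a L * X L ^ n := by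
  have hn1 : (1 : ℝ) ≤ n := by exact_mod_cast hn
  have hfin : ∀ s : Finset ℤ, (∑ L ∈ s, a L * X L) ^ n ≤
      ((∑' L, a L) ^ (1 - (n : ℝ)⁻¹)) ^ n * ∑' L, a L * X L ^ n := by
    intro s
    have h := ENNReal.inner_le_weight_mul_Lp_of_nonneg s hn1 a X
    have h1 : (∑ L ∈ s, a L * X L) ^ n ≤
        ((∑ i ∈ s, a i) ^ (1 - (n : ℝ)⁻¹) * (∑ i ∈ s, a i * X i ^ (n : ℝ)) ^ (n : ℝ)⁻¹) ^ n :=
      pow_le_pow_left₀ zero_le h n
    refine h1.trans ?_
    rw [mul_pow, ENNReal.rpow_inv_natCast_pow (by omega)]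
    refine mul_le_mul' ?_ ?_
    · refine pow_le_pow_left₀ zero_le ?_ n
      refine ENNReal.rpow_le_rpow (ENNReal.sum_le_tsum s) ?_
      rw [sub_nonneg]
      exact inv_le_one_of_one_le₀ hn1
    · calc ∑ i ∈ s, a i * X i ^ (n : ℝ) = ∑ i ∈ s, a i * X i ^ n := by
            simp only [ENNReal.rpow_natCast]
        _ ≤ _ := ENNReal.sum_le_tsum s
  have hT : Tendsto (fun s : Finset ℤ => (∑ L ∈ s, a L * X L) ^ n) atTop
      (𝓝 ((∑' L, a L * X L) ^ n)) :=
    ENNReal.Tendsto.pow (ENNReal.summable.hasSum)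
  exact le_of_tendsto' hT hfin

/-- the weights -/
noncomputable def wt (C : ℝ) (L : ℤ) : ℝ≥0∞ := ENNReal.ofReal (3 * C / (1 + (L : ℝ) ^ 2))

lemma wt_sum (C : ℝ) (hC : 0 ≤ C) : ∑' L, wt C L ≠ ∞ := by
  have hs : Summable (fun L : ℤ => 3 * C / (1 + (L : ℝ) ^ 2)) := by
    have h1 : Summable (fun L : ℤ => 1 / (L : ℝ) ^ 2) :=
      Real.summable_one_div_int_pow.mpr (by norm_num)
    have h2 : Summable (fun L : ℤ => (3 * C) * (1 / (L : ℝ) ^ 2) + (if L = 0 then 3 * C else 0)) := by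
      refine (h1.mul_left _).add ?_
      exact summable_of_ne_finset_zero (s := {0}) (fun b hb => by
        rw [if_neg (by simpa using hb)])
    refine Summable.of_nonneg_of_le (fun L => by positivity) (fun L => ?_) h2
    by_cases hL : L = 0
    · subst hL
      simp
    · rw [if_neg hL, add_zero]
      have : (0 : ℝ) < (L : ℝ) ^ 2 := by positivity
      rw [mul_one_div]
      exact div_le_div_of_nonneg_left (by positivity) this (by linarith)
  unfold wt
  rw [← ENNReal.ofReal_tsum_of_nonneg (fun L => by positivity) hs]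
  exact ENNReal.ofReal_ne_top

theorem probint : S_PROBINT := by
  intro Ω _ P _ u hpp hulm φ hφc hφ0 hφC
  obtain ⟨C, hC⟩ := hφC
  have hC0 : 0 ≤ C := by
    have := (hφ0 0).trans (hC 0)
    simpa using this
  let Φ : ℤ → Ω → ℝ≥0∞ := fun j ω => ENNReal.ofReal (φ (u j ω))
  have hΦm : ∀ j, Measurable (Φ j) := fun j =>
    ENNReal.measurable_ofReal.comp (hφc.measurable.comp (hpp.meas j))
  let X : ℤ → Ω → ℝ≥0∞ := fun L ω => ∑' j : ℤ, (Set.Icc (L : ℝ) (L + 1)).indicator 1 (u j ω)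
  have hXm : ∀ L, Measurable (X L) := fun L =>
    Measurable.tsum fun j => (measurable_one.indicator measurableSet_Icc).comp (hpp.meas j)
  have hXe : ∀ (L : ℤ) ω, X L ω = (({j : ℤ | u j ω ∈ Set.Icc (L : ℝ) (L + 1)}.encard : ℕ∞) : ℝ≥0∞) := by
    intro L ω
    rw [← ENNReal.tsum_set_one, tsum_subtype _ (fun _ : ℤ => (1 : ℝ≥0∞))]
    refine tsum_congr fun j => ?_
    by_cases h : u j ω ∈ Set.Icc (L : ℝ) (L + 1)
    · rw [Set.indicator_of_mem h, Set.indicator_of_mem (by exact h)]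
      rfl
    · rw [Set.indicator_of_notMem h, Set.indicator_of_notMem (by exact h)]
  let T : Ω → ℝ≥0∞ := fun ω => ∑' j, Φ j ω
  have hTm : Measurable T := Measurable.tsum hΦm
  -- the pointwise bound
  have hTX : ∀ ω, T ω ≤ ∑' L, wt C L * X L ω := by
    intro ω
    have h1 : ∀ j, Φ j ω ≤ ∑' L : ℤ, wt C L * (Set.Icc (L : ℝ) (L + 1)).indicator 1 (u j ω) := by
      intro j
      set x := u j ω with hx
      have hfl : x ∈ Set.Icc ((⌊x⌋ : ℤ) : ℝ) ((⌊x⌋ : ℤ) + 1) := ⟨Int.floor_le x, (Int.lt_floor_add_one x).le⟩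
      refine le_trans ?_ (ENNReal.le_tsum ⌊x⌋)
      rw [Set.indicator_of_mem hfl]
      simp only [Pi.one_apply, mul_one]
      refine ENNReal.ofReal_le_ofReal ((hC x).trans ?_)
      rw [div_le_div_iff₀ (by positivity) (by positivity)]
      have h2 : (1 + ((⌊x⌋ : ℤ) : ℝ) ^ 2) ≤ 3 * (1 + x ^ 2) := by
        have a1 := hfl.1
        have a2 := hfl.2
        nlinarith [sq_nonneg (x + 1), sq_nonneg (x - 1), sq_nonneg (x + (x - ⌊x⌋)),
          sq_nonneg ((⌊x⌋ : ℝ) - 2 * x), sq_nonneg (x - (⌊x⌋ : ℝ))]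
      calc C * (1 + ((⌊x⌋ : ℤ) : ℝ) ^ 2) ≤ C * (3 * (1 + x ^ 2)) := mul_le_mul_of_nonneg_left h2 hC0
        _ = 3 * C * (1 + x ^ 2) := by ring
    calc T ω ≤ ∑' j : ℤ, ∑' L : ℤ, wt C L * (Set.Icc (L : ℝ) (L + 1)).indicator 1 (u j ω) :=
          ENNReal.tsum_le_tsum h1
      _ = ∑' L : ℤ, ∑' j : ℤ, wt C L * (Set.Icc (L : ℝ) (L + 1)).indicator 1 (u j ω) :=
          ENNReal.tsum_comm
      _ = ∑' L, wt C L * X L ω := by
          refine tsum_congr fun L => ?_
          rw [ENNReal.tsum_mul_left]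
  have hTn : ∀ n : ℕ, ∫⁻ ω, T ω ^ n ∂P ≠ ∞ := by
    intro n
    rcases Nat.eq_zero_or_pos n with rfl | hn
    · simp
    obtain ⟨K, hK, hKb⟩ := hulm n hn
    have hA := wt_sum C hC0
    set A := ∑' L, wt C L with hAdef
    have hcst : (A ^ (1 - (n : ℝ)⁻¹)) ^ n ≠ ∞ := by
      refine ENNReal.pow_ne_top (ENNReal.rpow_ne_top_of_nonneg ?_ hA)
      rw [sub_nonneg]
      exact inv_le_one_of_one_le₀ (by exact_mod_cast hn)
    have hb : ∫⁻ ω, T ω ^ n ∂P ≤ (A ^ (1 - (n : ℝ)⁻¹)) ^ n * (A * K) := by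
      calc ∫⁻ ω, T ω ^ n ∂P
          ≤ ∫⁻ ω, (A ^ (1 - (n : ℝ)⁻¹)) ^ n * ∑' L, wt C L * X L ω ^ n ∂P := by
            refine lintegral_mono fun ω => ?_
            exact (pow_le_pow_left₀ zero_le (hTX ω) n).trans (holder _ _ n hn)
        _ = (A ^ (1 - (n : ℝ)⁻¹)) ^ n * ∑' L, wt C L * ∫⁻ ω, X L ω ^ n ∂P := by
            rw [lintegral_const_mul _ (Measurable.tsum fun L =>
              ((hXm L).pow_const n).const_mul _), lintegral_tsum fun L =>
              (((hXm L).pow_const n).const_mul _).aemeasurable]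
            congr 1
            refine tsum_congr fun L => ?_
            rw [lintegral_const_mul _ ((hXm L).pow_const n)]
        _ ≤ (A ^ (1 - (n : ℝ)⁻¹)) ^ n * ∑' L, wt C L * K := by
            refine mul_le_mul' le_rfl (ENNReal.tsum_le_tsum fun L => mul_le_mul' le_rfl ?_)
            have := hKb (L : ℝ)
            simpa only [hXe] using this
        _ = _ := by rw [ENNReal.tsum_mul_right]
    exact ne_top_of_le_ne_top (ENNReal.mul_ne_top hcst (ENNReal.mul_ne_top hA hK)) hb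
  refine ⟨?_, fun n => ?_⟩
  · have h1 := hTn 1
    simp only [pow_one] at h1
    filter_upwards [ae_lt_top hTm h1] with ω hω
    have := ENNReal.summable_toReal hω.ne
    refine this.congr fun j => ?_
    exact ENNReal.toReal_ofReal (hφ0 _)
  · let V : Ω → ℝ≥0∞ := fun ω => ∑' j : (Fin n ↪ ℤ), ∏ i, Φ (j i) ω
    have hcount : Countable (Fin n ↪ ℤ) :=
      (DFunLike.coe_injective : Function.Injective (fun (f : Fin n ↪ ℤ) => (f : Fin n → ℤ))).countable
    have hVm : Measurable V := Measurable.tsum fun j =>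
      Finset.measurable_prod _ fun i _ => hΦm (j i)
    have hVT : ∀ ω, V ω ≤ T ω ^ n := by
      intro ω
      have h1 := ENNReal.tsum_comp_le_tsum_of_injective
        (DFunLike.coe_injective : Function.Injective (fun (f : Fin n ↪ ℤ) => (f : Fin n → ℤ)))
        (fun f : Fin n → ℤ => ∏ i, Φ (f i) ω)
      rw [tsum_pow_eq (fun j => Φ j ω) n] at h1
      exact h1
    have hWV : (fun ω => W n φ (fun j => u j ω)) = fun ω => (V ω).toReal := by
      funext ω
      have hne : ∀ j : (Fin n ↪ ℤ), ∏ i, Φ (j i) ω ≠ ∞ := fun j =>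
        ENNReal.prod_ne_top fun i _ => ENNReal.ofReal_ne_top
      rw [ENNReal.tsum_toReal_eq hne]
      unfold W
      refine tsum_congr fun j => ?_
      rw [ENNReal.toReal_prod]
      refine Finset.prod_congr rfl fun i _ => ?_
      exact (ENNReal.toReal_ofReal (hφ0 _)).symm
    rw [hWV]
    refine integrable_toReal_of_lintegral_ne_top hVm.aemeasurable ?_
    exact ne_top_of_le_ne_top (hTn n) (lintegral_mono hVT)

end Pool.Agent.R33.SPP
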