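import Mathlib

/-!
# Asynchronous oblivious sensors on a segment: the model

Model for MP_362848_lc.
-/

namespace SegCover

open Filter

/-- A local coordinate system of the line: the point with global coordinate `x` has local
coordinate `scale * x + shift`.  A negative `scale` means that the orientation is reversed. -/
structure Frame where
  /-- signed unit length -/
  scale : ℝ
  /-- local coordinate of the global origin -/
  shift : ℝ
  /-- the map is invertible -/
  scale_ne : scale ≠ 0

/-- From global to local coordinates. -/
def Frame.toLocal (φ : Frame) (x : ℝ) : ℝ := φ.scale * x + φ.shift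

/-- From local to global coordinates. -/
noncomputable def Frame.toGlobal (φ : Frame) (y : ℝ) : ℝ := (y - φ.shift) / φ.scale

/-- A deterministic protocol for anonymous oblivious sensors: from the sensor's own position and
the multiset of the positions of all the sensors it sees (itself included), everything in its
local coordinates, it computes a destination, again in local coordinates. -/
def Protocol : Type := ℝ → Multiset ℝ → ℝ

/-- Neighbour visibility: `i` sees `j` when no sensor lies strictly between them. So `i` sees, in
each direction, the nearest sensor (all of them, if several sit at the nearest occupied point),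
the sensors at its own point, and nothing beyond. -/
def Sees {n : ℕ} (x : Fin n → ℝ) (i j : Fin n) : Prop := ∀ k, x k ∉ Set.uIoo (x i) (x j)

open Classical in
/-- What sensor `i` sees in the configuration `x`, in the coordinate system `φ`. -/
noncomputable def snapshot {n : ℕ} (φ : Frame) (x : Fin n → ℝ) (i : Fin n) : Multiset ℝ :=
  (Finset.univ.filter (fun j => Sees x i j)).val.map (fun j => φ.toLocal (x j))

/-- The destination (in global coordinates) that the protocol gives to sensor `i`, if `i` looks in
the configuration `x` and has the local coordinate system `φ`. -/
noncomputable def destination {n : ℕ} (P : Protocol) (φ : Frame) (x : Fin n → ℝ) (i : Fin n) : ℝ :=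
  φ.toGlobal (P (φ.toLocal (x i)) (snapshot φ x i))

/-- The inner sensors are all but the two end sensors. -/
def Inner {n : ℕ} (i : Fin n) : Prop := 0 < i.val ∧ i.val + 1 < n

/-- An admissible ASYNC execution of the protocol `P` by `n` sensors on the segment `[0,1]`. -/
structure Execution (P : Protocol) (n : ℕ) where
  /-- the local coordinate system of each sensor -/
  frame : Fin n → Frame
  /-- `pos i t` is the position of sensor `i` at time `t ≥ 0`, in global coordinates -/
  pos : Fin n → ℝ → ℝ
  /-- `look i k` is the time of the snapshot of the `k`-th cycle of sensor `i` -/
  look : Fin n → ℕ → ℝ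
  /-- `start i k` is the time at which the `k`-th move of sensor `i` starts -/
  start : Fin n → ℕ → ℝ
  /-- `stop i k` is the time at which the `k`-th move of sensor `i` ends -/
  stop : Fin n → ℕ → ℝ
  /-- a move is not stopped before this distance is covered -/
  δ : ℝ
  δ_pos : 0 < δ
  /-- initially the sensors are at distinct points, in the order of their indices -/
  init : StrictMono (fun i => pos i 0)
  /-- the first sensor is always at `0` -/
  first : ∀ i : Fin n, i.val = 0 → ∀ t, 0 ≤ t → pos i t = 0
  /-- the last sensor is always at `1` -/
  last : ∀ i : Fin n, i.val + 1 = n → ∀ t, 0 ≤ t → pos i t = 1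
  /-- the motion is continuous -/
  cont : ∀ i, ContinuousOn (pos i) (Set.Ici 0)
  look_zero : ∀ i, Inner i → 0 ≤ look i 0
  /-- the phases (computing, moving, waiting) follow each other and have positive duration -/
  look_lt_start : ∀ i, Inner i → ∀ k, look i k < start i k
  start_lt_stop : ∀ i, Inner i → ∀ k, start i k < stop i k
  stop_lt_look : ∀ i, Inner i → ∀ k, stop i k < look i (k + 1)
  /-- the infinitely many cycles of a sensor take infinite time -/
  unbounded : ∀ i, Inner i → Tendsto (look i) atTop atTop
  /-- no motion before the first cycle -/
  rest_init : ∀ i, Inner i → ∀ t, 0 ≤ t → t ≤ look i 0 → pos i t = pos i 0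
  /-- no motion between the snapshot and the start of the move -/
  rest_compute : ∀ i, Inner i → ∀ k t, look i k ≤ t → t ≤ start i k → pos i t = pos i (look i k)
  /-- no motion between a move and the next snapshot -/
  rest_wait : ∀ i, Inner i → ∀ k t, stop i k ≤ t → t ≤ look i (k + 1) → pos i t = pos i (stop i k)
  /-- during the move, the sensor moves towards the destination computed from the snapshot -/
  towards : ∀ i, Inner i → ∀ k s t, start i k ≤ s → s ≤ t → t ≤ stop i k →
    pos i t ∈ Set.uIcc (pos i s) (destination P (frame i) (fun j => pos j (look i k)) i)
  /-- the move either reaches the destination or covers a distance at least `δ` -/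
  progress : ∀ i, Inner i → ∀ k,
    min δ |destination P (frame i) (fun j => pos j (look i k)) i - pos i (start i k)| ≤
      |pos i (stop i k) - pos i (start i k)|

/-- `ε`-approximate covering: with `d = 1/(n-1)`, consecutive sensors are at distance between
`d - ε` and `d + ε`. -/
def Covers {n : ℕ} (ε : ℝ) (x : Fin n → ℝ) : Prop :=
  ∀ i j : Fin n, i.val + 1 = j.val →
    1 / ((n : ℝ) - 1) - ε ≤ |x j - x i| ∧ |x j - x i| ≤ 1 / ((n : ℝ) - 1) + ε

/-- Approximate covering of the segment is solvable (ASYNC, neighbour visibility). -/
def Solvable : Prop :=
  ∃ P : Protocol, ∀ n : ℕ, 2 ≤ n → ∀ E : Execution P n, ∀ ε : ℝ, 0 < ε →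
    ∃ t, 0 ≤ t ∧ Covers ε (fun i => E.pos i t)

end SegCover
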