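import Mathlib

/-! Piecewise linear interpolation of an integer-time motion. -/

namespace SegCover

noncomputable def ramp (s : ℝ) : ℝ := max 0 (min 1 (3 * s - 1))

lemma ramp_mono : Monotone ramp := by
  intro a b h
  unfold ramp
  exact max_le_max le_rfl (min_le_min le_rfl (by linarith))

lemma ramp_nonneg (s : ℝ) : 0 ≤ ramp s := le_max_left _ _

lemma ramp_le_one (s : ℝ) : ramp s ≤ 1 := max_le zero_le_one (min_le_left _ _)

lemma ramp_eq_zero {s : ℝ} (h : s ≤ 1 / 3) : ramp s = 0 := by
  unfold ramp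
  apply max_eq_left
  exact (min_le_right _ _).trans (by linarith)

lemma ramp_eq_one {s : ℝ} (h : 2 / 3 ≤ s) : ramp s = 1 := by
  unfold ramp
  rw [min_eq_left (by linarith)]
  exact max_eq_right zero_le_one

lemma ramp_cont : Continuous ramp := by
  unfold ramp
  fun_prop

noncomputable def path (X : ℕ → ℝ) (t : ℝ) : ℝ :=
  X 0 + ∑ m ∈ Finset.range ⌈t⌉₊, ramp (t - m) * (X (m + 1) - X m)

lemma path_eq (X : ℕ → ℝ) (t : ℝ) (M : ℕ) (h : t ≤ M) :
    path X t = X 0 + ∑ m ∈ Finset.range M, ramp (t - m) * (X (m + 1) - X m) := by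
  unfold path
  congr 1
  apply Finset.sum_subset
  · intro m hm
    rw [Finset.mem_range] at *
    exact lt_of_lt_of_le hm (Nat.ceil_le.mpr h)
  · intro m _ hm
    rw [Finset.mem_range, not_lt, Nat.ceil_le] at hm
    rw [ramp_eq_zero (by linarith), zero_mul]

lemma path_continuous (X : ℕ → ℝ) : Continuous (path X) := by
  rw [continuous_iff_continuousAt]
  intro t
  obtain ⟨M, hM⟩ := exists_nat_gt t
  have h1 : ContinuousAt (fun t : ℝ =>
      X 0 + ∑ m ∈ Finset.range M, ramp (t - m) * (X (m + 1) - X m)) t := by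
    apply Continuous.continuousAt
    refine continuous_const.add (continuous_finsetSum _ fun m _ => ?_)
    exact (ramp_cont.comp (continuous_id.sub continuous_const)).mul continuous_const
  refine h1.congr ?_
  filter_upwards [Iio_mem_nhds hM] with s hs
  exact (path_eq X s M (le_of_lt hs)).symm

lemma path_const (X : ℕ → ℝ) (s t : ℝ) (hst : s ≤ t)
    (h : ∀ m : ℕ, s < m + 2 / 3 → (m : ℝ) + 1 / 3 < t → X (m + 1) = X m) :
    path X t = path X s := by
  obtain ⟨M, hM⟩ := exists_nat_gt t
  rw [path_eq X t M hM.le, path_eq X s M (hst.trans hM.le)]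
  congr 1
  apply Finset.sum_congr rfl
  intro m _
  by_cases h1 : s < m + 2 / 3
  · by_cases h2 : (m : ℝ) + 1 / 3 < t
    · rw [h m h1 h2]; simp
    · push Not at h2
      rw [ramp_eq_zero (by linarith : t - m ≤ 1 / 3), ramp_eq_zero (by linarith : s - m ≤ 1 / 3)]
  · push Not at h1
    rw [ramp_eq_one (by linarith : 2 / 3 ≤ t - m), ramp_eq_one (by linarith : 2 / 3 ≤ s - m)]

lemma path_on (X : ℕ → ℝ) (m : ℕ) (t : ℝ) (h0 : (m : ℝ) ≤ t) (h1 : t ≤ m + 1) :
    path X t = X m + ramp (t - m) * (X (m + 1) - X m) := by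
  rw [path_eq X t (m + 1) (by push_cast; exact h1), Finset.sum_range_succ]
  have h2 : ∑ j ∈ Finset.range m, ramp (t - j) * (X (j + 1) - X j) = X m - X 0 := by
    rw [← Finset.sum_range_sub]
    apply Finset.sum_congr rfl
    intro j hj
    rw [Finset.mem_range] at hj
    have : (j : ℝ) + 1 ≤ m := by exact_mod_cast hj
    rw [ramp_eq_one (by linarith), one_mul]
  rw [h2]; ring

lemma path_nat (X : ℕ → ℝ) (m : ℕ) : path X m = X m := by
  rw [path_on X m m le_rfl (by linarith), ramp_eq_zero (by linarith)]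
  ring

end SegCover
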