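import Mathlib
import Pool.Agent.R33.SegDefs
import Pool.Agent.R33.SegPath

/-! Turning an integer-time schedule into an execution. -/

namespace SegCover

open Filter

/-- Data of an integer-time schedule. -/
structure Sched (P : Protocol) (n : ℕ) (φ : Frame) where
  X : ℕ → Fin n → ℝ
  l : Fin n → ℕ → ℕ
  u : Fin n → ℕ → ℕ
  δ : ℝ
  δ_pos : 0 < δ
  init : StrictMono (X 0)
  first : ∀ i : Fin n, i.val = 0 → ∀ m, X m i = 0
  last : ∀ i : Fin n, i.val + 1 = n → ∀ m, X m i = 1
  l_le : ∀ i, Inner i → ∀ k, l i k ≤ u i k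
  u_lt : ∀ i, Inner i → ∀ k, u i k < l i (k + 1)
  idle : ∀ i, Inner i → ∀ m, (∀ k, u i k ≠ m) → X (m + 1) i = X m i
  move : ∀ i, Inner i → ∀ k,
    X (u i k + 1) i ∈ Set.uIcc (X (u i k) i) (destination P φ (X (l i k)) i)
  prog : ∀ i, Inner i → ∀ k,
    min δ |destination P φ (X (l i k)) i - X (u i k) i| ≤ |X (u i k + 1) i - X (u i k) i|

lemma mem_uIcc_aux {p q D a b : ℝ} (hq : q ∈ Set.uIcc p D) (hab : a ≤ b) (hb1 : b ≤ 1) :
    p + b * (q - p) ∈ Set.uIcc (p + a * (q - p)) D := by
  rw [Set.mem_uIcc] at *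
  rcases hq with ⟨h1, h2⟩ | ⟨h1, h2⟩
  · left
    constructor <;> nlinarith
  · right
    constructor <;> nlinarith

lemma exists_execution {P : Protocol} {n : ℕ} {φ : Frame} (S : Sched P n φ) :
    ∃ E : Execution P n, (∀ i, E.frame i = φ) ∧ (∀ i, E.pos i = path (fun m => S.X m i)) := by
  have hmono : ∀ i, Inner i → ∀ k, S.l i k < S.l i (k + 1) :=
    fun i hi k => lt_of_le_of_lt (S.l_le i hi k) (S.u_lt i hi k)
  have hsm : ∀ i, Inner i → StrictMono (S.l i) := fun i hi => strictMono_nat_of_lt_succ (hmono i hi)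
  have hpos : ∀ (i : Fin n) (m : ℕ), path (fun m => S.X m i) (m : ℝ) = S.X m i :=
    fun i m => path_nat (fun m => S.X m i) m
  have hdest : ∀ i k, (fun j => path (fun m => S.X m j) ((S.l i k : ℕ) : ℝ)) = S.X (S.l i k) := by
    intro i k
    funext j
    exact hpos j _
  -- no move starts strictly between
  have hidle1 : ∀ i, Inner i → ∀ k m, S.l i k ≤ m → m < S.u i k → S.X (m + 1) i = S.X m i := by
    intro i hi k m h1 h2
    apply S.idle i hi
    intro k' hk'
    rcases lt_trichotomy k' k with h | h | h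
    · have h3 : S.u i k' < S.l i (k' + 1) := S.u_lt i hi k'
      have h4 : S.l i (k' + 1) ≤ S.l i k := (hsm i hi).monotone h
      omega
    · subst h; omega
    · have h3 : S.u i k < S.l i (k + 1) := S.u_lt i hi k
      have h4 : S.l i (k + 1) ≤ S.l i k' := (hsm i hi).monotone h
      have h5 := S.l_le i hi k'
      omega
  have hidle2 : ∀ i, Inner i → ∀ k m, S.u i k < m → m < S.l i (k + 1) →
      S.X (m + 1) i = S.X m i := by
    intro i hi k m h1 h2
    apply S.idle i hi
    intro k' hk'
    rcases lt_or_ge k k' with h | h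
    · have h4 : S.l i (k + 1) ≤ S.l i k' := (hsm i hi).monotone h
      have h5 := S.l_le i hi k'
      omega
    · rcases eq_or_lt_of_le h with h | h
      · subst h; omega
      · have h3 : S.u i k' < S.l i (k' + 1) := S.u_lt i hi k'
        have h4 : S.l i (k' + 1) ≤ S.l i k := (hsm i hi).monotone h
        have h5 := S.l_le i hi k
        omega
  have hidle0 : ∀ i, Inner i → ∀ m, m < S.l i 0 → S.X (m + 1) i = S.X m i := by
    intro i hi m h2
    apply S.idle i hi
    intro k' hk'
    have h4 : S.l i 0 ≤ S.l i k' := (hsm i hi).monotone (Nat.zero_le _)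
    have h5 := S.l_le i hi k'
    omega
  have hon : ∀ i k t, ((S.u i k : ℕ) : ℝ) ≤ t → t ≤ (S.u i k : ℕ) + 1 →
      path (fun m => S.X m i) t = S.X (S.u i k) i +
        ramp (t - (S.u i k : ℕ)) * (S.X (S.u i k + 1) i - S.X (S.u i k) i) :=
    fun i k t h0 h1 => path_on (fun m => S.X m i) (S.u i k) t h0 h1
  refine ⟨{
    frame := fun _ => φ
    pos := fun i => path (fun m => S.X m i)
    look := fun i k => (S.l i k : ℝ)
    start := fun i k => (S.u i k : ℝ) + 1 / 3
    stop := fun i k => (S.u i k : ℝ) + 2 / 3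
    δ := S.δ
    δ_pos := S.δ_pos
    init := ?_
    first := ?_
    last := ?_
    cont := fun i => (path_continuous _).continuousOn
    look_zero := fun i _ => Nat.cast_nonneg _
    look_lt_start := ?_
    start_lt_stop := fun i _ k => by linarith
    stop_lt_look := ?_
    unbounded := ?_
    rest_init := ?_
    rest_compute := ?_
    rest_wait := ?_
    towards := ?_
    progress := ?_ }, fun i => rfl, fun i => rfl⟩
  · intro i j hij
    have h := S.init hij
    have e1 := hpos i 0
    have e2 := hpos j 0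
    rw [Nat.cast_zero] at e1 e2
    show path (fun m => S.X m i) 0 < path (fun m => S.X m j) 0
    rw [e1, e2]; exact h
  · intro i hi t _
    have h : (fun m => S.X m i) = fun _ => (0 : ℝ) := by
      funext m; exact S.first i hi m
    show path (fun m => S.X m i) t = 0
    rw [h]
    simp [path]
  · intro i hi t _
    have h : (fun m => S.X m i) = fun _ => (1 : ℝ) := by
      funext m; exact S.last i hi m
    show path (fun m => S.X m i) t = 1
    rw [h]
    simp [path]
  · intro i hi k
    have : (S.l i k : ℝ) ≤ S.u i k := by exact_mod_cast S.l_le i hi k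
    show (S.l i k : ℝ) < S.u i k + 1 / 3
    linarith
  · intro i hi k
    have : (S.u i k : ℝ) + 1 ≤ S.l i (k + 1) := by exact_mod_cast S.u_lt i hi k
    show (S.u i k : ℝ) + 2 / 3 < S.l i (k + 1)
    linarith
  · intro i hi
    exact tendsto_natCast_atTop_atTop.comp (hsm i hi).tendsto_atTop
  · intro i hi t h0 h1
    show path (fun m => S.X m i) t = path (fun m => S.X m i) 0
    apply path_const _ _ _ h0
    intro m _ h3
    apply hidle0 i hi
    have : (m : ℝ) < S.l i 0 := by
      have h1' : t ≤ (S.l i 0 : ℝ) := h1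
      linarith
    exact_mod_cast this
  · intro i hi k t h0 h1
    show path (fun m => S.X m i) t = path (fun m => S.X m i) (S.l i k)
    have h0' : (S.l i k : ℝ) ≤ t := h0
    have h1' : t ≤ (S.u i k : ℝ) + 1 / 3 := h1
    apply path_const _ _ _ h0'
    intro m h2 h3
    apply hidle1 i hi k
    · by_contra hc
      push Not at hc
      have : (m : ℝ) + 1 ≤ S.l i k := by exact_mod_cast hc
      linarith
    · have : (m : ℝ) < S.u i k := by linarith
      exact_mod_cast this
  · intro i hi k t h0 h1
    show path (fun m => S.X m i) t = path (fun m => S.X m i) ((S.u i k : ℝ) + 2 / 3)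
    have h0' : (S.u i k : ℝ) + 2 / 3 ≤ t := h0
    have h1' : t ≤ (S.l i (k + 1) : ℝ) := h1
    apply path_const _ _ _ h0'
    intro m h2 h3
    apply hidle2 i hi k
    · have : (S.u i k : ℝ) < m := by linarith
      exact_mod_cast this
    · have : (m : ℝ) < S.l i (k + 1) := by linarith
      exact_mod_cast this
  · intro i hi k s t h0 h1 h2
    have h0' : (S.u i k : ℝ) + 1 / 3 ≤ s := h0
    have h2' : t ≤ (S.u i k : ℝ) + 2 / 3 := h2
    show path (fun m => S.X m i) t ∈ Set.uIcc (path (fun m => S.X m i) s)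
      (destination P φ (fun j => path (fun m => S.X m j) ((S.l i k : ℕ) : ℝ)) i)
    rw [hdest i k, hon i k t (by linarith) (by linarith), hon i k s (by linarith) (by linarith)]
    exact mem_uIcc_aux (S.move i hi k) (ramp_mono (by linarith)) (ramp_le_one _)
  · intro i hi k
    show min S.δ |destination P φ (fun j => path (fun m => S.X m j) ((S.l i k : ℕ) : ℝ)) i -
      path (fun m => S.X m i) ((S.u i k : ℝ) + 1 / 3)| ≤
      |path (fun m => S.X m i) ((S.u i k : ℝ) + 2 / 3) -
        path (fun m => S.X m i) ((S.u i k : ℝ) + 1 / 3)|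
    rw [hdest i k, hon i k _ (by linarith) (by linarith : (S.u i k : ℝ) + 1 / 3 ≤ _),
      hon i k _ (by linarith) (by linarith : (S.u i k : ℝ) + 2 / 3 ≤ _),
      ramp_eq_zero (by linarith : (S.u i k : ℝ) + 1 / 3 - (S.u i k : ℝ) ≤ 1 / 3),
      ramp_eq_one (by linarith : 2 / 3 ≤ (S.u i k : ℝ) + 2 / 3 - (S.u i k : ℝ))]
    have := S.prog i hi k
    simp only [zero_mul, add_zero, one_mul, add_sub_cancel]
    exact this

end SegCover
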