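import Mathlib
import Pool.Agent.R33.SegReal

/-! Lemmas on snapshots and the collision lemma. -/

namespace SegCover

open Filter

lemma destination_congr {n : ℕ} (P : Protocol) (φ : Frame) (x : Fin n → ℝ) (i j : Fin n)
    (h : x i = x j) : destination P φ x i = destination P φ x j := by
  unfold destination snapshot Sees
  rw [h]

/-- The destination for a sensor at `b` whose neighbours are at `a` and `c`. -/
noncomputable def tgt (P : Protocol) (φ : Frame) (a b c : ℝ) : ℝ :=
  φ.toGlobal (P (φ.toLocal b) {φ.toLocal a, φ.toLocal b, φ.toLocal c})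

lemma destination_eq {n : ℕ} (P : Protocol) (φ : Frame) (x : Fin n → ℝ) (hx : StrictMono x)
    (p i q : Fin n) (hp : p.val + 1 = i.val) (hq : i.val + 1 = q.val) :
    destination P φ x i = tgt P φ (x p) (x i) (x q) := by
  classical
  unfold destination tgt snapshot
  have hf : (Finset.univ.filter (fun j => Sees x i j)) = {p, i, q} := by
    ext j
    simp only [Finset.mem_filter, Finset.mem_univ, true_and, Finset.mem_insert,
      Finset.mem_singleton]
    have hpi : p < i := by rw [Fin.lt_def]; omega
    have hiq : i < q := by rw [Fin.lt_def]; omega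
    constructor
    · intro h
      by_contra hc
      push Not at hc
      obtain ⟨h1, h2, h3⟩ := hc
      rcases lt_or_gt_of_ne h2 with h4 | h4
      · have h5 : j < p := by
          rw [Fin.lt_def] at *
          have : j.val ≠ p.val := fun h => h1 (Fin.ext h)
          omega
        apply h p
        rw [Set.uIoo, Set.mem_Ioo, min_eq_right (hx h4).le, max_eq_left (hx h4).le]
        exact ⟨hx h5, hx hpi⟩
      · have h5 : q < j := by
          rw [Fin.lt_def] at *
          have : j.val ≠ q.val := fun h => h3 (Fin.ext h)
          omega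
        apply h q
        rw [Set.uIoo, Set.mem_Ioo, min_eq_left (hx h4).le, max_eq_right (hx h4).le]
        exact ⟨hx hiq, hx h5⟩
    · rintro (h | h | h)
      · subst h
        intro k hk
        rw [Set.uIoo, Set.mem_Ioo, min_eq_right (hx hpi).le, max_eq_left (hx hpi).le] at hk
        have h1 := hx.lt_iff_lt.mp hk.1
        have h2 := hx.lt_iff_lt.mp hk.2
        rw [Fin.lt_def] at *
        omega
      · subst h
        intro k hk
        rw [Set.uIoo, Set.mem_Ioo, min_self, max_self] at hk
        exact absurd hk.1 (not_lt.mpr hk.2.le)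
      · subst h
        intro k hk
        rw [Set.uIoo, Set.mem_Ioo, min_eq_left (hx hiq).le, max_eq_right (hx hiq).le] at hk
        have h1 := hx.lt_iff_lt.mp hk.1
        have h2 := hx.lt_iff_lt.mp hk.2
        rw [Fin.lt_def] at *
        omega
  have hpi : p ≠ i := fun h => by subst h; omega
  have hiq : i ≠ q := fun h => by subst h; omega
  have hpq : p ≠ q := fun h => by subst h; omega
  have hv : ((Finset.univ.filter (fun j => Sees x i j)).val.map (fun j => φ.toLocal (x j))) =
      {φ.toLocal (x p), φ.toLocal (x i), φ.toLocal (x q)} := by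
    rw [hf, Finset.insert_val_of_notMem (by simp [hpi, hpq]),
      Finset.insert_val_of_notMem (by simp [hiq])]
    simp
  rw [← hv]

lemma tgt_symm (P : Protocol) (φ : Frame) (a b c : ℝ) : tgt P φ a b c = tgt P φ c b a := by
  unfold tgt
  congr 2
  simp only [Multiset.insert_eq_cons]
  rw [Multiset.cons_swap, ← Multiset.singleton_add, ← Multiset.singleton_add,
    ← Multiset.singleton_add, ← Multiset.singleton_add]
  rw [add_comm {φ.toLocal a}, ← add_assoc, add_comm {φ.toLocal b}, add_assoc]

/-- The frame `x ↦ φ (a x + b)`. -/
def Frame.comp (φ : Frame) (a b : ℝ) (ha : a ≠ 0) : Frame where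
  scale := φ.scale * a
  shift := φ.scale * b + φ.shift
  scale_ne := mul_ne_zero φ.scale_ne ha

lemma Frame.comp_toLocal (φ : Frame) (a b : ℝ) (ha : a ≠ 0) (x : ℝ) :
    (φ.comp a b ha).toLocal x = φ.toLocal (a * x + b) := by
  simp only [Frame.comp, Frame.toLocal]; ring

lemma Frame.comp_toGlobal (φ : Frame) (a b : ℝ) (ha : a ≠ 0) (y : ℝ) :
    (φ.comp a b ha).toGlobal y = (φ.toGlobal y - b) / a := by
  have := φ.scale_ne
  simp only [Frame.comp, Frame.toGlobal]
  field_simp
  ring

lemma tgt_comp (P : Protocol) (φ : Frame) (a b : ℝ) (ha : a ≠ 0) (x y z : ℝ) :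
    tgt P (φ.comp a b ha) x y z = (tgt P φ (a * x + b) (a * y + b) (a * z + b) - b) / a := by
  simp only [tgt, Frame.comp_toLocal, Frame.comp_toGlobal]

/-- `P` always succeeds if all the sensors use the same coordinate system. -/
def Good (P : Protocol) : Prop :=
  ∀ n : ℕ, 2 ≤ n → ∀ E : Execution P n, (∀ i j, E.frame i = E.frame j) → ∀ ε : ℝ, 0 < ε →
    ∃ t, 0 ≤ t ∧ Covers ε (fun i => E.pos i t)

lemma Good.sched {P : Protocol} (hP : Good P) {n : ℕ} (hn : 2 ≤ n) {φ : Frame}
    (S : Sched P n φ) {ε : ℝ} (hε : 0 < ε) :
    ∃ t, 0 ≤ t ∧ Covers ε (fun i => path (fun m => S.X m i) t) := by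
  obtain ⟨E, h1, h2⟩ := exists_execution S
  obtain ⟨t, ht, hc⟩ := hP n hn E (fun i j => by rw [h1, h1]) ε hε
  refine ⟨t, ht, ?_⟩
  convert hc using 2
  rw [h2]

lemma path_congr_after {X Y : ℕ → ℝ} {T : ℕ} (h : ∀ m, T ≤ m → X m = Y m) {t : ℝ}
    (ht : (T : ℝ) ≤ t) : path X t = path Y t := by
  have h0 : 0 ≤ t := le_trans (Nat.cast_nonneg _) ht
  have hf : ((⌊t⌋₊ : ℕ) : ℝ) ≤ t := Nat.floor_le h0
  have hf' : t ≤ (⌊t⌋₊ : ℕ) + 1 := (Nat.lt_floor_add_one t).le
  have hT : T ≤ ⌊t⌋₊ := Nat.le_floor ht
  rw [path_on X ⌊t⌋₊ t hf hf', path_on Y ⌊t⌋₊ t hf hf', h _ hT, h _ (by omega)]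

/-- `iter f a m`: start with `a`, then apply `f 0`, `f 1`, ..., `f (m-1)`. -/
def iter {α : Type} (f : ℕ → α → α) (a : α) : ℕ → α
  | 0 => a
  | m + 1 => f m (iter f a m)

open Classical in
noncomputable def stepC (P : Protocol) (φ : Frame) (c : ℝ) (m : ℕ) (x : Fin 5 → ℝ) :
    Fin 5 → ℝ :=
  fun i => if m = 0 then (if i.val = 1 then c else x i) else
    (if Inner i then destination P φ x i else x i)

lemma collision_right {P : Protocol} (hP : Good P) (φ : Frame) (a c : ℝ) (h0 : 0 < a)
    (hac : a < c) (hc1 : c < 1) : tgt P φ 0 a c < c := by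
  classical
  by_contra hcon
  push Not at hcon
  set e : ℝ := (max c (3 / 4) + 1) / 2 with he
  have he1 : c < e := by
    have := le_max_left c (3 / 4); rw [he]; linarith
  have he2 : 3 / 4 < e := by
    have := le_max_right c (3 / 4); rw [he]; linarith
  have he3 : e < 1 := by
    have : max c (3 / 4) < 1 := max_lt hc1 (by norm_num)
    rw [he]; linarith
  set x0 : Fin 5 → ℝ := ![0, a, c, e, 1] with hx0
  have hmono : StrictMono x0 := by
    rw [Fin.strictMono_iff_lt_succ]
    intro i
    fin_cases i <;> simp [hx0] <;> assumption
  set X : ℕ → Fin 5 → ℝ := iter (stepC P φ c) x0 with hX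
  have hXs : ∀ m, X (m + 1) = stepC P φ c m (X m) := fun m => rfl
  have hX1 : X 1 = fun i => if i.val = 1 then c else x0 i := by
    rw [hXs]; funext i; simp [stepC, hX, iter]
  have hXs' : ∀ m, 1 ≤ m → ∀ i, X (m + 1) i = if Inner i then destination P φ (X m) i else X m i := by
    intro m hm i
    rw [hXs]
    simp only [stepC]
    rw [if_neg (by omega : ¬ m = 0)]
  have hnoninner : ∀ i : Fin 5, ¬ Inner i → ∀ m, X m i = x0 i := by
    intro i hi m
    induction m with
    | zero => rfl
    | succ m ih =>
      rcases Nat.eq_zero_or_pos m with h | h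
      · subst h
        rw [hX1]
        have : i.val ≠ 1 := by
          intro h; apply hi; unfold Inner; omega
        simp [this]
      · rw [hXs' m h, if_neg hi, ih]
  have hsync : ∀ m, 1 ≤ m → X m 1 = X m 2 := by
    intro m hm
    induction m, hm using Nat.le_induction with
    | base => rw [hX1]; simp [hx0]
    | succ m hm ih =>
      rw [hXs' m hm, hXs' m hm, if_pos (by unfold Inner; decide), if_pos (by unfold Inner; decide)]
      exact destination_congr P φ _ _ _ ih
  have hd1 : destination P φ (X 0) 1 = tgt P φ 0 a c := by
    have := destination_eq P φ x0 hmono 0 1 2 rfl rfl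
    show destination P φ x0 1 = _
    rw [this]
    simp [hx0]
  let S : Sched P 5 φ :=
    { X := X
      l := fun i k => if i.val = 1 then k else k + 1
      u := fun i k => if i.val = 1 then k else k + 1
      δ := c - a
      δ_pos := by linarith
      init := hmono
      first := by
        intro i hi m
        rw [hnoninner i (by unfold Inner; omega) m]
        have : i = 0 := Fin.ext hi
        subst this; rfl
      last := by
        intro i hi m
        rw [hnoninner i (by unfold Inner; omega) m]
        have : i = 4 := by apply Fin.ext; simp; omega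
        subst this; rfl
      l_le := fun i _ k => le_rfl
      u_lt := by
        intro i _ k
        by_cases h : i.val = 1 <;> simp [h]
      idle := by
        intro i hi m hm
        by_cases h : i.val = 1
        · exfalso; apply hm m; simp [h]
        · rcases Nat.eq_zero_or_pos m with h0 | h0
          · subst h0
            rw [hX1]; simp [h]; rfl
          · exfalso; apply hm (m - 1); simp [h]; omega
      move := by
        intro i hi k
        by_cases h : i.val = 1
        · simp only [h, if_true]
          have hi1 : i = 1 := Fin.ext h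
          subst hi1
          rcases Nat.eq_zero_or_pos k with h0 | h0
          · subst h0
            rw [hd1, hX1, Set.mem_uIcc]
            left
            constructor
            · show x0 1 ≤ _
              simp [hx0]; linarith
            · simpa using hcon
          · rw [hXs' k h0, if_pos hi]
            exact Set.right_mem_uIcc
        · simp only [h, if_false]
          rw [hXs' (k + 1) (by omega), if_pos hi]
          exact Set.right_mem_uIcc
      prog := by
        intro i hi k
        by_cases h : i.val = 1
        · simp only [h, if_true]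
          have hi1 : i = 1 := Fin.ext h
          subst hi1
          rcases Nat.eq_zero_or_pos k with h0 | h0
          · subst h0
            rw [hX1]
            apply (min_le_left _ _).trans
            show c - a ≤ |(if (1 : Fin 5).val = 1 then c else x0 1) - x0 1|
            have := le_abs_self (c - a)
            simp [hx0]
            linarith
          · rw [hXs' k h0, if_pos hi]
            exact min_le_right _ _
        · simp only [h, if_false]
          rw [hXs' (k + 1) (by omega), if_pos hi]
          exact min_le_right _ _ }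
  obtain ⟨t, ht, hcov⟩ := hP.sched (by norm_num) S (ε := (e - 3 / 4) / 2) (by linarith)
  have hSX : S.X = X := rfl
  rcases le_or_gt t 1 with ht1 | ht1
  · -- before the collision
    have h34 := (hcov 3 4 rfl).1
    have e3 : path (fun m => S.X m 3) t = e := by
      rw [path_on _ 0 t (by simpa using ht) (by simpa using ht1)]
      have h1 : S.X 0 3 = e := by rw [hSX]; rfl
      have h2 : S.X (0 + 1) 3 = e := by rw [hSX, zero_add, hX1]; simp [hx0]
      simp only [h1, h2]; simp
    have e4 : path (fun m => S.X m 4) t = 1 := by
      rw [path_on _ 0 t (by simpa using ht) (by simpa using ht1)]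
      have h1 : S.X 0 4 = 1 := by rw [hSX]; rfl
      have h2 : S.X (0 + 1) 4 = 1 := by rw [hSX, zero_add, hX1]; simp [hx0]
      simp only [h1, h2]; simp
    beta_reduce at h34
    rw [e3, e4, abs_of_pos (by linarith)] at h34
    norm_num at h34
    linarith
  · have h12 := (hcov 1 2 rfl).1
    have : path (fun m => S.X m 1) t = path (fun m => S.X m 2) t := by
      apply path_congr_after (T := 1)
      · intro m hm; exact hsync m hm
      · simpa using ht1.le
    beta_reduce at h12
    rw [this, sub_self, abs_zero] at h12
    norm_num at h12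
    linarith

lemma tgt_between {P : Protocol} (hP : Good P) (φ : Frame) (l p r : ℝ) (hlp : l < p)
    (hpr : p < r) (hlr : r - l < 1) : l < tgt P φ l p r ∧ tgt P φ l p r < r := by
  constructor
  · have h := collision_right hP (φ.comp (-1) r (by norm_num)) (r - p) (r - l) (by linarith)
      (by linarith) hlr
    rw [tgt_comp] at h
    have e1 : (-1 : ℝ) * 0 + r = r := by ring
    have e2 : (-1 : ℝ) * (r - p) + r = p := by ring
    have e3 : (-1 : ℝ) * (r - l) + r = l := by ring
    rw [e1, e2, e3, tgt_symm] at h
    have e4 : (tgt P φ l p r - r) / -1 = r - tgt P φ l p r := by ring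
    rw [e4] at h
    linarith
  · have h := collision_right hP (φ.comp 1 l (by norm_num)) (p - l) (r - l) (by linarith)
      (by linarith) hlr
    rw [tgt_comp] at h
    have e1 : (1 : ℝ) * 0 + l = l := by ring
    have e2 : (1 : ℝ) * (p - l) + l = p := by ring
    have e3 : (1 : ℝ) * (r - l) + l = r := by ring
    rw [e1, e2, e3] at h
    have e4 : (tgt P φ l p r - l) / 1 = tgt P φ l p r - l := by ring
    rw [e4] at h
    linarith

end SegCover
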