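import Mathlib
import Pool.Agent.R33.SegLem

/-! The main construction. -/

namespace SegCover

open Filter

/-! ### Round robin run of `N` inner sensors -/

open Classical in
noncomputable def stepR (P : Protocol) (φ : Frame) (N : ℕ) (m : ℕ) (y : Fin (N + 2) → ℝ) :
    Fin (N + 2) → ℝ :=
  fun j => if Inner j ∧ m % N + 1 = j.val then destination P φ y j else y j

lemma stepR_mono {P : Protocol} (hP : Good P) (φ : Frame) {N : ℕ} (hN : 2 ≤ N) (m : ℕ)
    {y : Fin (N + 2) → ℝ} (hy : StrictMono y) (h0 : y 0 = 0) (h1 : y (Fin.last (N + 1)) = 1) :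
    StrictMono (stepR P φ N m y) ∧ stepR P φ N m y 0 = 0 ∧
      stepR P φ N m y (Fin.last (N + 1)) = 1 := by
  have hbet : ∀ p i q : Fin (N + 2), p.val + 1 = i.val → i.val + 1 = q.val →
      y p < destination P φ y i ∧ destination P φ y i < y q := by
    intro p i q hp hq
    rw [destination_eq P φ y hy p i q hp hq]
    have hpi : p < i := by rw [Fin.lt_def]; omega
    have hiq : i < q := by rw [Fin.lt_def]; omega
    apply tgt_between hP φ _ _ _ (hy hpi) (hy hiq)
    have hp0 : 0 ≤ y p := by rw [← h0]; exact hy.monotone (Fin.zero_le _)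
    have hq1 : y q ≤ 1 := by rw [← h1]; exact hy.monotone (Fin.le_last _)
    rcases Nat.eq_zero_or_pos p.val with h | h
    · have hq1' : y q < 1 := by
        rw [← h1]; apply hy; rw [Fin.lt_def, Fin.val_last]; omega
      linarith
    · have hp0' : 0 < y p := by
        rw [← h0]; apply hy; rw [Fin.lt_def]; exact h
      linarith
  refine ⟨?_, ?_, ?_⟩
  · rw [Fin.strictMono_iff_lt_succ]
    intro i
    have hlt : y i.castSucc < y i.succ := hy Fin.castSucc_lt_succ
    simp only [stepR]
    by_cases ha : Inner i.castSucc ∧ m % N + 1 = i.castSucc.val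
    · rw [if_pos ha, if_neg (by
        rintro ⟨_, h⟩
        have := ha.2
        simp only [Fin.val_castSucc, Fin.val_succ] at *
        omega)]
      have hin := ha.1
      have hpos : 0 < i.castSucc.val := hin.1
      exact (hbet ⟨i.castSucc.val - 1, by omega⟩ i.castSucc i.succ (by simp at *; omega)
        (by simp)).2
    · rw [if_neg ha]
      by_cases hb : Inner i.succ ∧ m % N + 1 = i.succ.val
      · rw [if_pos hb]
        have hlt' : i.succ.val + 1 < N + 2 := hb.1.2
        exact (hbet i.castSucc i.succ ⟨i.succ.val + 1, hlt'⟩ (by simp) (by simp)).1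
      · rw [if_neg hb]; exact hlt
  · simp only [stepR]
    rw [if_neg (by rintro ⟨h, _⟩; unfold Inner at h; simp at h)]
    exact h0
  · simp only [stepR]
    rw [if_neg (by rintro ⟨h, _⟩; unfold Inner at h; simp at h)]
    exact h1

lemma iter_mono {P : Protocol} (hP : Good P) (φ : Frame) {N : ℕ} (hN : 2 ≤ N)
    {y : Fin (N + 2) → ℝ} (hy : StrictMono y) (h0 : y 0 = 0) (h1 : y (Fin.last (N + 1)) = 1)
    (m : ℕ) :
    StrictMono (iter (stepR P φ N) y m) ∧ iter (stepR P φ N) y m 0 = 0 ∧
      iter (stepR P φ N) y m (Fin.last (N + 1)) = 1 := by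
  induction m with
  | zero => exact ⟨hy, h0, h1⟩
  | succ m ih => exact stepR_mono hP φ hN m ih.1 ih.2.1 ih.2.2

noncomputable def schedR {P : Protocol} (hP : Good P) (φ : Frame) {N : ℕ} (hN : 2 ≤ N)
    {y : Fin (N + 2) → ℝ} (hy : StrictMono y) (h0 : y 0 = 0) (h1 : y (Fin.last (N + 1)) = 1) :
    Sched P (N + 2) φ where
  X := iter (stepR P φ N) y
  l := fun i k => k * N + (i.val - 1)
  u := fun i k => k * N + (i.val - 1)
  δ := 1
  δ_pos := one_pos
  init := hy
  first := by
    intro i hi m
    have : i = 0 := Fin.ext hi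
    subst this
    exact (iter_mono hP φ hN hy h0 h1 m).2.1
  last := by
    intro i hi m
    have : i = Fin.last (N + 1) := Fin.ext (by simp; omega)
    subst this
    exact (iter_mono hP φ hN hy h0 h1 m).2.2
  l_le := fun i _ k => le_rfl
  u_lt := by
    intro i _ k
    simp only [add_mul]
    omega
  idle := by
    intro i hi m hm
    show stepR P φ N m (iter (stepR P φ N) y m) i = _
    simp only [stepR]
    rw [if_neg]
    rintro ⟨_, h⟩
    apply hm (m / N)
    have := Nat.div_add_mod' m N
    have e : i.val - 1 = m % N := by omega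
    rw [e]; exact this
  move := by
    intro i hi k
    show stepR P φ N _ (iter (stepR P φ N) y _) i ∈ _
    simp only [stepR]
    rw [if_pos]
    · exact Set.right_mem_uIcc
    · refine ⟨hi, ?_⟩
      have h1 := hi.1
      have h2 := hi.2
      rw [Nat.mul_add_mod_of_lt (by omega)]
      omega
  prog := by
    intro i hi k
    show _ ≤ |stepR P φ N _ (iter (stepR P φ N) y _) i - _|
    simp only [stepR]
    rw [if_pos]
    · exact min_le_right _ _
    · refine ⟨hi, ?_⟩
      have h1 := hi.1
      have h2 := hi.2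
      rw [Nat.mul_add_mod_of_lt (by omega)]
      omega

end SegCover
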