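import Mathlib
import Pool.Agent.R33.SegMain

/-! The pending sensor. -/

namespace SegCover

open Filter

/-- placing the configuration `y` of the segment `[0,1]` on the segment `[x₁, x₁ + lam]`, and one
more sensor at `0` -/
noncomputable def emb {N : ℕ} (x1 lam : ℝ) (y : Fin (N + 2) → ℝ) : Fin (N + 3) → ℝ :=
  Fin.cons 0 (fun j => lam * y j + x1)

lemma emb_mono {N : ℕ} {x1 lam : ℝ} (hx : 0 < x1) (hl : 0 < lam) {y : Fin (N + 2) → ℝ}
    (hy : StrictMono y) (h0 : y 0 = 0) : StrictMono (emb x1 lam y) := by
  unfold emb
  intro i j hij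
  induction i using Fin.cases with
  | zero =>
    induction j using Fin.cases with
    | zero => exact absurd hij (lt_irrefl _)
    | succ j =>
      simp only [Fin.cons_zero, Fin.cons_succ]
      have : 0 ≤ y j := by rw [← h0]; exact hy.monotone (Fin.zero_le _)
      have := mul_nonneg hl.le this
      linarith
  | succ i =>
    induction j using Fin.cases with
    | zero => exact absurd hij (by simp)
    | succ j =>
      simp only [Fin.cons_succ]
      have := hy (Fin.succ_lt_succ_iff.mp hij)
      nlinarith

open Classical in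
noncomputable def stepX (P : Protocol) (φ : Frame) (N T : ℕ) (m : ℕ) (x : Fin (N + 3) → ℝ) :
    Fin (N + 3) → ℝ :=
  fun i => if i.val = 1 then
      (if m = T then x 2 else if T < m ∧ m % N = 0 then destination P φ x i else x i)
    else if Inner i ∧ m % N + 2 = i.val then destination P φ x i else x i

/-- Indistinguishability. -/
lemma stepX_emb (P : Protocol) (φ : Frame) {N T m : ℕ} (hm : m < T) {x1 lam : ℝ} (hx : 0 < x1)
    (hl : 0 < lam) {y : Fin (N + 2) → ℝ} (hy : StrictMono y) (h0 : y 0 = 0) :
    stepX P φ N T m (emb x1 lam y) = emb x1 lam (stepR P (φ.comp lam x1 hl.ne') N m y) := by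
  funext i
  have hmono := emb_mono (x1 := x1) (lam := lam) hx hl hy h0
  induction i using Fin.cases with
  | zero =>
    simp only [stepX]
    rw [if_neg (by simp), if_neg (by rintro ⟨h, _⟩; unfold Inner at h; simp at h)]
    rfl
  | succ j =>
    by_cases hj : j.val = 0
    · simp only [stepX]
      rw [if_pos (by simp [hj]), if_neg (by omega), if_neg (by omega)]
      simp only [emb, Fin.cons_succ, stepR]
      rw [if_neg (by rintro ⟨h, _⟩; unfold Inner at h; omega)]
    · simp only [stepX]
      rw [if_neg (by simp [hj])]
      by_cases ha : Inner j ∧ m % N + 1 = j.val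
      · have ha' : Inner j.succ ∧ m % N + 2 = j.succ.val := by
          obtain ⟨h1, h2⟩ := ha
          unfold Inner at *
          simp only [Fin.val_succ]
          omega
        rw [if_pos ha']
        have hin := ha.1
        unfold Inner at hin
        have hj1 : (⟨j.val - 1, by omega⟩ : Fin (N + 2)).val + 1 = j.val := by simp; omega
        have hj2 : j.val + 1 = (⟨j.val + 1, by omega⟩ : Fin (N + 2)).val := rfl
        rw [destination_eq P φ _ hmono (Fin.succ ⟨j.val - 1, by omega⟩) j.succ
          (Fin.succ ⟨j.val + 1, by omega⟩) (by simp; omega) (by simp)]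
        simp only [emb, Fin.cons_succ, stepR]
        rw [if_pos ha, destination_eq P _ y hy _ j _ hj1 hj2, tgt_comp]
        field_simp
        ring
      · rw [if_neg (by
          rintro ⟨h1, h2⟩
          apply ha
          unfold Inner at *
          simp only [Fin.val_succ] at *
          omega)]
        simp only [emb, Fin.cons_succ, stepR]
        rw [if_neg ha]

lemma main_lemma {P : Protocol} (hP : Good P) (φ : Frame) (x1 : ℝ) (hx1 : 1 / 4 ≤ x1)
    (hx2 : x1 ≤ 1 / 2) (hg : x1 < tgt P φ 0 x1 (3 / 4)) : False := by
  classical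
  have hg2 : tgt P φ 0 x1 (3 / 4) < 3 / 4 :=
    (tgt_between hP φ 0 x1 (3 / 4) (by linarith) (by linarith) (by norm_num)).2
  set g := tgt P φ 0 x1 (3 / 4) with hgdef
  set f : ℝ := g - x1 with hf
  have hf0 : 0 < f := by linarith
  set lam : ℝ := 1 - x1 with hlam
  have hlam0 : 0 < lam := by linarith
  have hlam1 : lam < 1 := by linarith
  obtain ⟨N0, hN0⟩ := exists_nat_gt (2 / f)
  set N : ℕ := max N0 6 with hN
  have hN6 : 6 ≤ N := le_max_right _ _
  have hNr : (6 : ℝ) ≤ N := by exact_mod_cast hN6
  have hNf : 1 / ((N : ℝ) + 1) < f / 2 := by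
    have h1 : (N0 : ℝ) ≤ N := by exact_mod_cast le_max_left _ _
    have h2 : 2 / f < (N : ℝ) + 1 := by linarith
    rw [div_lt_iff₀ hf0] at h2
    rw [div_lt_div_iff₀ (by linarith) (by norm_num)]
    linarith
  -- initial configuration
  set y0 : Fin (N + 2) → ℝ := fun j =>
    if j.val = 0 then 0 else ((3 / 4 + ((j.val : ℝ) - 1) / (4 * N)) - x1) / lam with hy0
  have hNpos : (0 : ℝ) < 4 * N := by linarith
  have hy0mono : StrictMono y0 := by
    intro i j hij
    rw [Fin.lt_def] at hij
    simp only [hy0]
    by_cases hi : i.val = 0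
    · rw [if_pos hi, if_neg (by omega)]
      have h1 : (1 : ℝ) ≤ j.val := by exact_mod_cast (by omega : 1 ≤ j.val)
      have h2 : 0 ≤ ((j.val : ℝ) - 1) / (4 * N) := div_nonneg (by linarith) hNpos.le
      apply div_pos _ hlam0
      linarith
    · rw [if_neg hi, if_neg (by omega)]
      have h1 : (i.val : ℝ) < j.val := by exact_mod_cast hij
      apply div_lt_div_of_pos_right _ hlam0
      have h2 : ((i.val : ℝ) - 1) / (4 * N) < ((j.val : ℝ) - 1) / (4 * N) :=
        div_lt_div_of_pos_right (by linarith) hNpos
      linarith
  have hy00 : y0 0 = 0 := by simp [hy0]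
  have hy01 : y0 (Fin.last (N + 1)) = 1 := by
    simp only [hy0, Fin.val_last]
    rw [if_neg (by omega)]
    push_cast
    rw [hlam]
    have : (1 : ℝ) - x1 ≠ 0 := by linarith
    field_simp
    ring
  have hy0one : y0 1 = (3 / 4 - x1) / lam := by
    simp [hy0]
  set φ' := φ.comp lam x1 hlam0.ne' with hφ'
  set Y : ℕ → Fin (N + 2) → ℝ := iter (stepR P φ' N) y0 with hY
  have hYs : ∀ m, Y (m + 1) = stepR P φ' N m (Y m) := fun m => rfl
  have hYm : ∀ m, StrictMono (Y m) ∧ Y m 0 = 0 ∧ Y m (Fin.last (N + 1)) = 1 :=
    fun m => iter_mono hP φ' (by omega) hy0mono hy00 hy01 m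
  have hY1pos : ∀ m, 0 < Y m 1 := by
    intro m
    rw [← (hYm m).2.1]
    apply (hYm m).1
    rw [Fin.lt_def]; simp
  -- some time at which the second sensor is close to the first
  obtain ⟨m, hm⟩ : ∃ m, Y m 1 < f := by
    obtain ⟨t, ht, hcov⟩ := hP.sched (by omega)
      (schedR hP φ' (by omega : 2 ≤ N) hy0mono hy00 hy01) (ε := f / 2) (by linarith)
    have h01 := (hcov 0 1 (by simp)).2
    have hX : (schedR hP φ' (by omega : 2 ≤ N) hy0mono hy00 hy01).X = Y := rfl
    beta_reduce at h01
    rw [hX] at h01
    have hf1 : ((⌊t⌋₊ : ℕ) : ℝ) ≤ t := Nat.floor_le ht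
    have hf2 : t ≤ (⌊t⌋₊ : ℕ) + 1 := (Nat.lt_floor_add_one t).le
    rw [path_on (fun m => Y m 0) ⌊t⌋₊ t hf1 hf2, path_on (fun m => Y m 1) ⌊t⌋₊ t hf1 hf2,
      (hYm _).2.1, (hYm _).2.1] at h01
    set k := ⌊t⌋₊ with hk
    set th := ramp (t - k) with hth
    have hth0 : 0 ≤ th := ramp_nonneg _
    have hth1 : th ≤ 1 := ramp_le_one _
    by_contra hc
    push Not at hc
    have h1 := hc k
    have h2 := hc (k + 1)
    have h3 : f ≤ Y k 1 + th * (Y (k + 1) 1 - Y k 1) := by nlinarith
    have h01' : |Y k 1 + th * (Y (k + 1) 1 - Y k 1) - (0 + th * (0 - 0))| ≤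
        1 / (((N + 2 : ℕ) : ℝ) - 1) + f / 2 := h01
    have h4 := le_abs_self (Y k 1 + th * (Y (k + 1) 1 - Y k 1) - (0 + th * (0 - 0)))
    have h5 : 1 / (((N + 2 : ℕ) : ℝ) - 1) < f / 2 := by
      have : ((N + 2 : ℕ) : ℝ) - 1 = (N : ℝ) + 1 := by push_cast; ring
      rw [this]; exact hNf
    have h6 := h4.trans h01'
    have h7 : (0 : ℝ) + th * (0 - 0) = 0 := by ring
    rw [h7, sub_zero] at h6
    have h8 := h3.trans h6
    generalize 1 / (((N + 2 : ℕ) : ℝ) - 1) = z at h8 h5
    linarith
  -- the second sensor does not move for a while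
  have hstay : ∀ q r, r < N → Y (q * N + 1 + r) 1 = Y (q * N + 1) 1 := by
    intro q r
    induction r with
    | zero => intro _; rfl
    | succ r ih =>
      intro hr
      rw [← add_assoc, hYs]
      simp only [stepR]
      rw [if_neg]
      · exact ih (by omega)
      · rintro ⟨_, h⟩
        have : (q * N + 1 + r) % N = 1 + r := by
          rw [add_assoc, Nat.mul_add_mod_of_lt (by omega)]
        rw [this] at h
        simp at h
  obtain ⟨q, hq⟩ : ∃ q, Y (q * N + 1) 1 < f := by
    rcases Nat.eq_zero_or_pos m with h | h
    · exfalso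
      subst h
      have h1 : Y 0 1 = (3 / 4 - x1) / lam := hy0one
      rw [h1, div_lt_iff₀ hlam0] at hm
      nlinarith
    · refine ⟨(m - 1) / N, ?_⟩
      have h1 := hstay ((m - 1) / N) ((m - 1) % N) (Nat.mod_lt _ (by omega))
      have h2 := Nat.div_add_mod' (m - 1) N
      have h3 : (m - 1) / N * N + 1 + (m - 1) % N = m := by omega
      rw [h3] at h1
      rw [← h1]; exact hm
  set T := q * N + 1 with hT
  have hTmod : T % N = 1 := by rw [hT, Nat.mul_add_mod_of_lt (by omega)]
  set X : ℕ → Fin (N + 3) → ℝ := iter (stepX P φ N T) (emb x1 lam y0) with hX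
  have hXs : ∀ m, X (m + 1) = stepX P φ N T m (X m) := fun m => rfl
  have hXe : ∀ m, m ≤ T → X m = emb x1 lam (Y m) := by
    intro m
    induction m with
    | zero => intro _; rfl
    | succ m ih =>
      intro hmT
      rw [hXs, ih (by omega), stepX_emb P φ (by omega) (by linarith) hlam0 (hYm m).1 (hYm m).2.1,
        hYs]
  have hX1 : ∀ m, m ≤ T → X m 1 = x1 := by
    intro m hm
    rw [hXe m hm]
    have : (1 : Fin (N + 3)) = Fin.succ 0 := rfl
    rw [this]
    simp only [emb, Fin.cons_succ]
    rw [(hYm m).2.1]; ring
  have hXT2 : X T 2 = lam * Y T 1 + x1 := by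
    rw [hXe T le_rfl]
    have : (2 : Fin (N + 3)) = Fin.succ 1 := rfl
    rw [this]
    simp only [emb, Fin.cons_succ]
  have hXT2a : x1 < X T 2 := by
    rw [hXT2]; have := mul_pos hlam0 (hY1pos T); linarith
  have hXT2b : X T 2 < g := by
    rw [hXT2]
    have h1 := hY1pos T
    nlinarith
  have hv1 : (1 : Fin (N + 3)).val = 1 := rfl
  have hv2 : (2 : Fin (N + 3)).val = 2 := rfl
  have hin1 : Inner (1 : Fin (N + 3)) := by
    unfold Inner; rw [hv1]; omega
  have hin2 : Inner (2 : Fin (N + 3)) := by
    unfold Inner; rw [hv2]; omega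
  have hXT1 : X (T + 1) 1 = X T 2 := by
    rw [hXs]; simp only [stepX]; rw [if_pos hv1]; simp
  have hXT1' : X (T + 1) 2 = X T 2 := by
    rw [hXs]; simp only [stepX]
    rw [if_neg (by omega), if_neg]
    rintro ⟨_, h⟩
    rw [hTmod, hv2] at h
    omega
  have hsync : ∀ m, T + 1 ≤ m → X m 1 = X m 2 := by
    intro m hm
    induction m, hm using Nat.le_induction with
    | base => rw [hXT1, hXT1']
    | succ m hm ih =>
      have e1 : X (m + 1) 1 = if m % N = 0 then destination P φ (X m) 1 else X m 1 := by
        rw [hXs]
        simp only [stepX]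
        rw [if_pos hv1, if_neg (by omega : ¬ m = T)]
        by_cases h : m % N = 0
        · rw [if_pos ⟨by omega, h⟩, if_pos h]
        · rw [if_neg (fun hh => h hh.2), if_neg h]
      have e2 : X (m + 1) 2 = if m % N = 0 then destination P φ (X m) 2 else X m 2 := by
        rw [hXs]
        simp only [stepX]
        rw [if_neg (by rw [hv2]; omega : ¬ (2 : Fin (N + 3)).val = 1)]
        by_cases h : m % N = 0
        · rw [if_pos ⟨hin2, by rw [h, hv2]⟩, if_pos h]
        · rw [if_neg h, if_neg]
          rintro ⟨_, hh⟩
          rw [hv2] at hh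
          omega
      rw [e1, e2]
      by_cases h : m % N = 0
      · rw [if_pos h, if_pos h]
        exact destination_congr P φ _ _ _ ih
      · rw [if_neg h, if_neg h]
        exact ih
  have hnot1 : ∀ i : Fin (N + 3), Inner i → i.val ≠ 1 → ∀ k, k * N + (i.val - 2) =
      k * N + (i.val - 2) ∧ (k * N + (i.val - 2)) % N + 2 = i.val := by
    intro i hi hi1 k
    refine ⟨rfl, ?_⟩
    unfold Inner at hi
    rw [Nat.mul_add_mod_of_lt (by omega)]
    omega
  have hqk : ∀ k, 1 ≤ k → T < (q + k) * N ∧ (q + k) * N ≠ T := by
    intro k hk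
    have h1 : (q + k) * N = q * N + k * N := by ring
    have h2 : N ≤ k * N := Nat.le_mul_of_pos_left _ (by omega)
    constructor <;> omega
  let S : Sched P (N + 3) φ :=
    { X := X
      l := fun i k => if i.val = 1 then (if k = 0 then 0 else (q + k) * N) else k * N + (i.val - 2)
      u := fun i k => if i.val = 1 then (if k = 0 then T else (q + k) * N) else k * N + (i.val - 2)
      δ := X T 2 - x1
      δ_pos := by linarith
      init := by
        show StrictMono (X 0)
        rw [hXe 0 (Nat.zero_le _)]
        exact emb_mono (by linarith) hlam0 (hYm 0).1 (hYm 0).2.1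
      first := by
        intro i hi m
        have : i = 0 := Fin.ext hi
        subst this
        induction m with
        | zero => rfl
        | succ m ih =>
          rw [hXs]
          simp only [stepX]
          rw [if_neg (by simp), if_neg (by rintro ⟨h, _⟩; unfold Inner at h; simp at h)]
          exact ih
      last := by
        intro i hi m
        have hi' : i = Fin.last (N + 2) := Fin.ext (by simp; omega)
        subst hi'
        induction m with
        | zero =>
          have : Fin.last (N + 2) = Fin.succ (Fin.last (N + 1)) := rfl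
          show emb x1 lam y0 (Fin.last (N + 2)) = 1
          rw [this]
          simp only [emb, Fin.cons_succ]
          rw [hy01, hlam]; ring
        | succ m ih =>
          rw [hXs]
          simp only [stepX]
          rw [if_neg (by simp), if_neg (by rintro ⟨h, _⟩; unfold Inner at h; simp at h)]
          exact ih
      l_le := by
        intro i _ k
        by_cases h : i.val = 1
        · simp only [h, if_true]
          by_cases hk : k = 0
          · simp [hk]
          · simp [hk]
        · simp [h]
      u_lt := by
        intro i _ k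
        by_cases h : i.val = 1
        · simp only [h, if_true]
          rw [if_neg (by omega : ¬ k + 1 = 0)]
          by_cases hk : k = 0
          · rw [if_pos hk]; exact (hqk _ (by omega)).1
          · rw [if_neg hk]
            have : (q + (k + 1)) * N = (q + k) * N + N := by ring
            omega
        · simp only [h, if_false]
          have : (k + 1) * N = k * N + N := by ring
          omega
      idle := by
        intro i hi m hm
        show stepX P φ N T m (X m) i = X m i
        simp only [stepX]
        by_cases h : i.val = 1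
        · rw [if_pos h]
          have hT0 : ¬ m = T := by
            intro hc
            apply hm 0
            simp [h, hc]
          rw [if_neg hT0, if_neg]
          rintro ⟨h1, h2⟩
          have h3 := Nat.div_add_mod' m N
          rw [h2, add_zero] at h3
          have h4 : q < m / N := by
            by_contra hc
            push Not at hc
            have : m / N * N ≤ q * N := Nat.mul_le_mul_right _ hc
            omega
          apply hm (m / N - q)
          simp only [h, if_true]
          rw [if_neg (by omega)]
          have : q + (m / N - q) = m / N := by omega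
          rw [this]; exact h3
        · rw [if_neg h, if_neg]
          rintro ⟨_, h2⟩
          apply hm (m / N)
          simp only [h, if_false]
          have h3 := Nat.div_add_mod' m N
          have : i.val - 2 = m % N := by omega
          rw [this]; exact h3
      move := by
        intro i hi k
        show stepX P φ N T _ (X _) i ∈ _
        by_cases h : i.val = 1
        · simp only [h, if_true]
          have hi1 : i = 1 := Fin.ext h
          subst hi1
          by_cases hk : k = 0
          · simp only [hk, if_true]
            have e1 : stepX P φ N T T (X T) 1 = X T 2 := by rw [← hXT1]; rfl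
            have e2 : destination P φ (X 0) 1 = g := by
              have hm0 : StrictMono (X 0) := by
                rw [hXe 0 (Nat.zero_le _)]
                exact emb_mono (by linarith) hlam0 (hYm 0).1 (hYm 0).2.1
              rw [destination_eq P φ (X 0) hm0 0 1 2 (by simp) (by rw [hv1, hv2])]
              rw [hX1 0 (Nat.zero_le _)]
              have e3 : X 0 2 = 3 / 4 := by
                have : (2 : Fin (N + 3)) = Fin.succ 1 := rfl
                show emb x1 lam y0 2 = 3 / 4
                rw [this]
                simp only [emb, Fin.cons_succ]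
                rw [hy0one]
                field_simp
                ring
              have e4 : X 0 0 = 0 := rfl
              rw [e3, e4]
            rw [e1, e2, hX1 T le_rfl, Set.mem_uIcc]
            left
            exact ⟨hXT2a.le, hXT2b.le⟩
          · simp only [hk, if_false]
            obtain ⟨h1, h2⟩ := hqk k (by omega)
            simp only [stepX]
            rw [if_pos hv1, if_neg h2, if_pos ⟨h1, Nat.mul_mod_left _ _⟩]
            exact Set.right_mem_uIcc
        · simp only [h, if_false]
          simp only [stepX]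
          rw [if_neg h, if_pos ⟨hi, (hnot1 i hi h k).2⟩]
          exact Set.right_mem_uIcc
      prog := by
        intro i hi k
        show _ ≤ |stepX P φ N T _ (X _) i - _|
        by_cases h : i.val = 1
        · simp only [h, if_true]
          have hi1 : i = 1 := Fin.ext h
          subst hi1
          by_cases hk : k = 0
          · simp only [hk, if_true]
            have e1 : stepX P φ N T T (X T) 1 = X T 2 := by rw [← hXT1]; rfl
            rw [e1, hX1 T le_rfl]
            exact (min_le_left _ _).trans (le_abs_self _)
          · simp only [hk, if_false]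
            obtain ⟨h1, h2⟩ := hqk k (by omega)
            simp only [stepX]
            rw [if_pos hv1, if_neg h2, if_pos ⟨h1, Nat.mul_mod_left _ _⟩]
            exact min_le_right _ _
        · simp only [h, if_false]
          simp only [stepX]
          rw [if_neg h, if_pos ⟨hi, (hnot1 i hi h k).2⟩]
          exact min_le_right _ _ }
  have hSX : S.X = X := rfl
  have hεpos : (0 : ℝ) < 1 / (2 * ((N : ℝ) + 2)) := by positivity
  obtain ⟨t, ht, hcov⟩ := hP.sched (by omega) S hεpos
  have hd : (((N + 3 : ℕ) : ℝ) - 1) = (N : ℝ) + 2 := by push_cast; ring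
  rcases lt_or_ge t ((T + 1 : ℕ) : ℝ) with h | h
  · -- before the collision the first gap is too large
    have h01 := (hcov 0 1 (by simp)).2
    beta_reduce at h01
    rw [hSX, hd] at h01
    have e0 : path (fun m => X m 0) t = 0 := by
      have : (fun m => X m 0) = fun _ => (0 : ℝ) := by
        funext m; exact S.first 0 rfl m
      rw [this]; simp [path]
    have hf1 : ((⌊t⌋₊ : ℕ) : ℝ) ≤ t := Nat.floor_le ht
    have hf2 : t ≤ (⌊t⌋₊ : ℕ) + 1 := (Nat.lt_floor_add_one t).le
    have hkT : ⌊t⌋₊ ≤ T := by
      have : ⌊t⌋₊ < T + 1 := (Nat.floor_lt ht).mpr h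
      omega
    have e1 : x1 ≤ path (fun m => X m 1) t := by
      rw [path_on (fun m => X m 1) ⌊t⌋₊ t hf1 hf2]
      have h1 : X ⌊t⌋₊ 1 = x1 := hX1 _ hkT
      have h2 : x1 ≤ X (⌊t⌋₊ + 1) 1 := by
        rcases eq_or_lt_of_le hkT with h | h
        · rw [h, hXT1]; exact hXT2a.le
        · rw [hX1 _ h]
      have h3 := ramp_nonneg (t - (⌊t⌋₊ : ℕ))
      show x1 ≤ X ⌊t⌋₊ 1 + ramp (t - (⌊t⌋₊ : ℕ)) * (X (⌊t⌋₊ + 1) 1 - X ⌊t⌋₊ 1)
      rw [h1]
      nlinarith
    rw [e0] at h01
    have h2 := le_abs_self (path (fun m => X m 1) t - 0)
    have h3 : 1 / ((N : ℝ) + 2) ≤ 1 / 8 := by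
      rw [div_le_div_iff₀ (by linarith) (by norm_num)]; linarith
    have h4 : 1 / (2 * ((N : ℝ) + 2)) ≤ 1 / 16 := by
      rw [div_le_div_iff₀ (by linarith) (by norm_num)]; linarith
    linarith
  · -- afterwards two sensors stay together
    have h12 := (hcov 1 2 (by rw [hv1, hv2])).1
    beta_reduce at h12
    have e : path (fun m => S.X m 1) t = path (fun m => S.X m 2) t := by
      apply path_congr_after (T := T + 1)
      · intro m hm; exact hsync m hm
      · exact h
    rw [e, sub_self, abs_zero, hd] at h12
    have h5 : 1 / ((N : ℝ) + 2) = 1 / (2 * ((N : ℝ) + 2)) + 1 / (2 * ((N : ℝ) + 2)) := by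
      field_simp
      norm_num
    linarith

/-- A sensor which is not in the middle has to move. -/
lemma moves {P : Protocol} (hP : Good P) : P (1 / 3) {0, 1 / 3, 1} ≠ 1 / 3 := by
  intro hc
  let φ : Frame := ⟨1, 0, one_ne_zero⟩
  have hmono : StrictMono (![0, 1 / 3, 1] : Fin 3 → ℝ) := by
    rw [Fin.strictMono_iff_lt_succ]
    intro i
    fin_cases i <;> simp <;> norm_num
  have hd : destination P φ ![0, 1 / 3, 1] 1 = 1 / 3 := by
    rw [destination_eq P φ _ hmono 0 1 2 rfl rfl]
    have hl : ∀ x, φ.toLocal x = x := by intro x; simp [Frame.toLocal, φ]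
    have hgl : ∀ x, φ.toGlobal x = x := by intro x; simp [Frame.toGlobal, φ]
    simp only [tgt, hl, hgl]
    exact hc
  have hin : ∀ i : Fin 3, Inner i → i = 1 := by
    intro i hi
    unfold Inner at hi
    apply Fin.ext
    simp
    omega
  let S : Sched P 3 φ :=
    { X := fun _ => ![0, 1 / 3, 1]
      l := fun _ k => k
      u := fun _ k => k
      δ := 1
      δ_pos := one_pos
      init := hmono
      first := by
        intro i hi m
        have : i = 0 := Fin.ext hi
        subst this; rfl
      last := by
        intro i hi m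
        have : i = 2 := by apply Fin.ext; simp; omega
        subst this; rfl
      l_le := fun i _ k => le_rfl
      u_lt := fun i _ k => Nat.lt_succ_self k
      idle := fun i _ m _ => rfl
      move := fun i _ k => Set.left_mem_uIcc
      prog := by
        intro i hi k
        have := hin i hi
        subst this
        rw [hd]
        simp }
  obtain ⟨t, ht, hcov⟩ := hP.sched (by norm_num) S (ε := 1 / 12) (by norm_num)
  have h01 := (hcov 0 1 rfl).1
  beta_reduce at h01
  have e0 : path (fun m => S.X m 0) t = 0 := by
    simp [path, S]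
  have e1 : path (fun m => S.X m 1) t = 1 / 3 := by
    simp [path, S]
  rw [e0, e1] at h01
  norm_num at h01

theorem not_good (P : Protocol) : ¬ Good P := by
  intro hP
  have hm := moves hP
  rcases lt_or_gt_of_ne hm with h | h
  · -- the sensor moves towards the local origin
    let φ : Frame := ⟨-(4 / 3), 1, by norm_num⟩
    apply main_lemma hP φ (1 / 2) (by norm_num) le_rfl
    rw [tgt_symm]
    have : tgt P φ (3 / 4) (1 / 2) 0 = (P (1 / 3) {0, 1 / 3, 1} - 1) / (-(4 / 3)) := by
      simp only [tgt, Frame.toLocal, Frame.toGlobal, φ]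
      norm_num
    rw [this]
    rw [lt_div_iff_of_neg (by norm_num)]
    linarith
  · let φ : Frame := ⟨4 / 3, 0, by norm_num⟩
    apply main_lemma hP φ (1 / 4) le_rfl (by norm_num)
    have : tgt P φ 0 (1 / 4) (3 / 4) = P (1 / 3) {0, 1 / 3, 1} / (4 / 3) := by
      simp only [tgt, Frame.toLocal, Frame.toGlobal, φ]
      norm_num
    rw [this, lt_div_iff₀ (by norm_num)]
    linarith

end SegCover
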