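import Pool.Agent.R497.TB.Defs
import Pool.Agent.Y86.MC.NiceC

set_option autoImplicit false

/-! TB-BGR: from the grid boxes with a cutoff to all boxes -/

namespace Pool.Agent.R33.TB

open Filter
open Finset hiding box
open Pool.Agent.Y957.MC (box)
open Pool.Agent.Y86.MC (mem_box card_box sum_box card_split exists_root)
open Pool.Agent.R497.TB

/-- the part of the box with a small coordinate -/
theorem small_cut {k : ℕ} (i : Fin k) (M : Fin k → ℕ) (v : ℕ) :
    ∑ m ∈ box M, (if m i ≤ v then (1 : ℝ) else 0) ≤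
      ((box (Function.update M i 1)).card : ℝ) * v := by
  rw [sum_box i M]
  have h2 : ∀ m ∈ box (Function.update M i 1), (∑ n ∈ Icc 1 (M i),
      if Function.update m i n i ≤ v then (1 : ℝ) else 0) ≤ v := by
    intro m _
    rw [Finset.sum_boole]
    have h3 : (Icc 1 (M i)).filter (fun n => Function.update m i n i ≤ v) ⊆ Icc 1 v := by
      intro n hn
      rw [Finset.mem_filter, Function.update_self, Finset.mem_Icc] at hn
      exact Finset.mem_Icc.2 ⟨hn.1.1, hn.2⟩
    have h4 := Finset.card_le_card h3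
    rw [Nat.card_Icc, Nat.add_sub_cancel] at h4
    exact_mod_cast h4
  refine (Finset.sum_le_sum h2).trans ?_
  rw [Finset.sum_const, nsmul_eq_mul]

theorem t_BGR : S_BGR := by
  intro k q c hk hq hc1 H
  rw [Metric.tendsto_atTop]
  intro η₀ hη₀
  set η := min (η₀ / 2) 1 with hη
  have hη0 : 0 < η := lt_min (by positivity) one_pos
  have hη1 : η ≤ 1 := min_le_right _ _
  have hηη₀ : η < η₀ := lt_of_le_of_lt (min_le_left _ _) (by linarith)
  obtain ⟨j, hj⟩ := exists_nat_one_div_lt (show (0 : ℝ) < η / 4 by positivity)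
  choose T₁ hT₁ using fun i => H i j (η / 4) (by positivity)
  set ζ : ℝ := η / (4 * ((k : ℝ) + 1)) with hζ
  have hζ0 : 0 < ζ := by positivity
  have hζ1 : ζ ≤ 1 := by
    rw [hζ, div_le_one (by positivity)]
    have : (0 : ℝ) ≤ k := Nat.cast_nonneg k
    linarith
  obtain ⟨T₂, hT₂⟩ := exists_nat_gt ((q : ℝ) / ζ)
  set T := max (Finset.univ.sup T₁) T₂ with hT
  have hTT1 : ∀ i, T₁ i ≤ T := fun i => (Finset.le_sup (Finset.mem_univ i)).trans (le_max_left _ _)
  have hTT2 : T₂ ≤ T := le_max_right _ _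
  refine ⟨fun _ => (T + 1) ^ q, fun M hM => ?_⟩
  have hM : ∀ l, (T + 1) ^ q ≤ M l := fun l => hM l
  have hTq : 1 ≤ (T + 1) ^ q := Nat.one_le_pow _ _ (Nat.succ_pos _)
  have hM1 : ∀ l, 1 ≤ M l := fun l => hTq.trans (hM l)
  choose t ht1 ht2 using fun l => exists_root hq (hM1 l)
  have htT : ∀ l, T ≤ t l := by
    intro l
    have h1 : (T + 1) ^ q < (t l + 2) ^ q := lt_of_le_of_lt (hM l) (ht2 l)
    have h2 := lt_of_pow_lt_pow_left₀ q (Nat.zero_le _) h1
    omega
  obtain ⟨i, _, hti'⟩ := Finset.exists_max_image Finset.univ t ⟨⟨0, hk⟩, Finset.mem_univ _⟩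
  have hti : ∀ l, t l ≤ t i := fun l => hti' l (Finset.mem_univ l)
  set M' : Fin k → ℕ := gbx q t with hM'
  have hM'M : ∀ l, M' l ≤ M l := ht1
  have hM'0 : ∀ l, 0 < M' l := fun l => Nat.pow_pos (Nat.succ_pos _)
  set P : ℝ := ((∏ l, M l : ℕ) : ℝ) with hP
  set P' : ℝ := ((∏ l, M' l : ℕ) : ℝ) with hP'
  have hP0 : 0 < P := by
    rw [hP]
    exact_mod_cast Finset.prod_pos fun l _ => hM1 l
  have hP'0 : 0 < P' := by
    rw [hP']
    exact_mod_cast Finset.prod_pos fun l _ => hM'0 l
  have hP'P : P' ≤ P := by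
    rw [hP, hP']
    exact_mod_cast Finset.prod_le_prod' fun l _ => hM'M l
  -- the ratio of the volumes
  have hratio : (1 - ζ) ^ k * P ≤ P' := by
    have h1 : ∀ l, (1 - ζ) * (M l : ℝ) ≤ (M' l : ℝ) := by
      intro l
      have h2 : (M l : ℝ) ≤ ((t l : ℝ) + 2) ^ q := by exact_mod_cast (ht2 l).le
      have h3 : (M' l : ℝ) = ((t l : ℝ) + 1) ^ q := by
        rw [hM']
        unfold gbx
        push_cast
        rfl
      have h4 : (1 - ζ) * ((t l : ℝ) + 2) ^ q ≤ ((t l : ℝ) + 1) ^ q := by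
        have h5 : ((t l : ℝ) + 1) ^ q = (1 + (-(1 / ((t l : ℝ) + 2)))) ^ q * ((t l : ℝ) + 2) ^ q := by
          rw [← mul_pow]
          congr 1
          field_simp
          ring
        rw [h5]
        refine mul_le_mul_of_nonneg_right ?_ (by positivity)
        have h6 : (-2 : ℝ) ≤ -(1 / ((t l : ℝ) + 2)) := by
          have h7 : 1 / ((t l : ℝ) + 2) ≤ 1 := by
            rw [div_le_one (by positivity)]
            have : (0 : ℝ) ≤ t l := Nat.cast_nonneg _
            linarith
          linarith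
        refine le_trans ?_ (one_add_mul_le_pow h6 q)
        have h8 : (q : ℝ) / ζ ≤ (t l : ℝ) + 2 := by
          have h9 : (T₂ : ℝ) ≤ t l := by exact_mod_cast hTT2.trans (htT l)
          linarith
        have h10 : (q : ℝ) * (1 / ((t l : ℝ) + 2)) ≤ ζ := by
          rw [div_le_iff₀ hζ0] at h8
          rw [mul_one_div, div_le_iff₀ (by positivity)]
          linarith
        linarith
      rw [h3]
      refine le_trans ?_ h4
      exact mul_le_mul_of_nonneg_left h2 (by linarith)
    have h11 : ∏ l : Fin k, ((1 - ζ) * (M l : ℝ)) ≤ ∏ l, (M' l : ℝ) :=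
      Finset.prod_le_prod (fun l _ => mul_nonneg (by linarith) (Nat.cast_nonneg _)) fun l _ => h1 l
    rw [Finset.prod_mul_distrib, Finset.prod_const, Finset.card_univ, Fintype.card_fin] at h11
    rw [hP, hP']
    push_cast
    exact h11
  have hdiff : P - P' ≤ η / 4 * P := by
    have h1 : 1 - η / 4 ≤ (1 - ζ) ^ k := by
      have h2 : (-2 : ℝ) ≤ -ζ := by linarith
      have h3 := one_add_mul_le_pow h2 k
      have h4 : (k : ℝ) * ζ ≤ η / 4 := by
        rw [hζ]
        rw [mul_div_assoc', div_le_div_iff₀ (by positivity) (by norm_num)]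
        have : (0 : ℝ) ≤ k := Nat.cast_nonneg k
        nlinarith
      calc 1 - η / 4 ≤ 1 + k * -ζ := by linarith
        _ ≤ (1 + -ζ) ^ k := h3
        _ = (1 - ζ) ^ k := by ring
    nlinarith
  -- the difference of the boxes
  have hsub : box M' ⊆ box M := by
    intro m hm
    rw [mem_box] at hm ⊢
    exact fun l => ⟨(hm l).1, (hm l).2.trans (hM'M l)⟩
  have e1 : |∑ m ∈ box M, c m - ∑ m ∈ box M', c m| ≤ η / 4 * P := by
    rw [← Finset.sum_sdiff hsub, add_sub_cancel_right]
    refine (Finset.abs_sum_le_sum_abs _ _).trans ((Finset.sum_le_sum fun m _ => hc1 m).trans ?_)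
    rw [Finset.sum_const, nsmul_eq_mul, mul_one, Finset.cast_card_sdiff hsub, card_box, card_box]
    exact hdiff
  -- the small part
  have e2 : |∑ m ∈ box M', c m - ∑ m ∈ box M', (if cut j (M' i) < m i then c m else 0)| ≤
      η / 4 * P' := by
    rw [← Finset.sum_sub_distrib]
    have h1 : ∀ m, |c m - (if cut j (M' i) < m i then c m else 0)| ≤
        if m i ≤ cut j (M' i) then (1 : ℝ) else 0 := by
      intro m
      by_cases h2 : cut j (M' i) < m i
      · rw [if_pos h2, sub_self, abs_zero]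
        split_ifs <;> norm_num
      · rw [if_neg h2, sub_zero, if_pos (not_lt.1 h2)]
        exact hc1 m
    refine (Finset.abs_sum_le_sum_abs _ _).trans ((Finset.sum_le_sum fun m _ => h1 m).trans ?_)
    refine (small_cut i M' _).trans ?_
    have h2 : P' = ((box (Function.update M' i 1)).card : ℝ) * (M' i : ℝ) := by
      rw [hP', card_split i M']
      push_cast
      rfl
    rw [h2]
    have h3 : (cut j (M' i) : ℝ) ≤ η / 4 * (M' i : ℝ) := by
      have h4 : (0 : ℝ) ≤ (M' i : ℝ) := Nat.cast_nonneg _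
      have h5 : (cut j (M' i) : ℝ) ≤ (1 / ((j : ℝ) + 1)) * (M' i : ℝ) :=
        Nat.floor_le (by positivity)
      nlinarith
    have h5 : (0 : ℝ) ≤ ((box (Function.update M' i 1)).card : ℝ) := Nat.cast_nonneg _
    nlinarith
  -- the grid box
  have e3 : |∑ m ∈ box M', (if cut j (M' i) < m i then c m else 0)| ≤ η / 4 * P' := by
    have h1 := hT₁ i t ((hTT1 i).trans (htT i)) hti
    unfold ravg at h1
    rw [abs_mul, abs_of_nonneg (by positivity)] at h1
    change 1 / P' * |∑ m ∈ box M', (if cut j (M' i) < m i then c m else 0)| ≤ η / 4 at h1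
    rw [one_div, inv_mul_le_iff₀ hP'0] at h1
    linarith
  have e4 : |∑ m ∈ box M, c m| ≤ η * P := by
    have h1 : ∑ m ∈ box M, c m = (∑ m ∈ box M, c m - ∑ m ∈ box M', c m) +
        (∑ m ∈ box M', c m - ∑ m ∈ box M', (if cut j (M' i) < m i then c m else 0)) +
        ∑ m ∈ box M', (if cut j (M' i) < m i then c m else 0) := by ring
    rw [h1]
    refine (abs_add_le _ _).trans ?_
    refine (add_le_add ((abs_add_le _ _).trans (add_le_add e1 e2)) e3).trans ?_
    nlinarith
  rw [Real.dist_eq, sub_zero]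
  refine lt_of_le_of_lt ?_ hηη₀
  unfold ravg
  rw [abs_mul, abs_of_nonneg (by positivity)]
  change 1 / P * |∑ m ∈ box M, c m| ≤ η
  rw [one_div, inv_mul_le_iff₀ hP0]
  linarith

end Pool.Agent.R33.TB
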