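import Mathlib

/-!
The sign of a word of distinct numbers (through the Vandermonde product), and its behaviour under
relabelling and rotation.
-/

set_option autoImplicit false

namespace Pool.Agent.R33.WordSign

open Equiv Finset

/-- The Vandermonde product of the first `n` values of `w`. -/
def VL (n : ℕ) (w : ℕ → ℤ) : ℤ := ∏ i : Fin n, ∏ j ∈ Finset.Ioi i, (w j - w i)

/-- The Vandermonde product `∏_{i < j} (l_j - l_i)` of a word. -/
def V (l : List ℕ) : ℤ := VL l.length fun i => (l.getD i 0 : ℤ)

theorem VL_eq_det (n : ℕ) (w : ℕ → ℤ) :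
    VL n w = (Matrix.vandermonde fun i : Fin n => w i).det := by
  rw [Matrix.det_vandermonde]
  rfl

theorem VL_perm (n : ℕ) (w w' : ℕ → ℤ) (σ : Perm (Fin n)) (h : ∀ i : Fin n, w' i = w (σ i)) :
    VL n w' = (Perm.sign σ : ℤ) * VL n w := by
  rw [VL_eq_det, VL_eq_det]
  have h1 := Matrix.det_permute σ (Matrix.vandermonde fun i : Fin n => w i)
  have h2 : (Matrix.vandermonde fun i : Fin n => w i).submatrix σ id =
      Matrix.vandermonde fun i : Fin n => w' i := by
    ext i j
    rw [Matrix.submatrix_apply, Matrix.vandermonde_apply, Matrix.vandermonde_apply, h]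
    rfl
  rw [h2] at h1
  simpa using h1

theorem getD_map' (e : ℕ → ℕ) (l : List ℕ) (i : ℕ) (hi : i < l.length) :
    (l.map e).getD i 0 = e (l.getD i 0) := by
  rw [List.getD_eq_getElem _ _ (by rwa [List.length_map]), List.getD_eq_getElem _ _ hi,
    List.getElem_map]

/-- Exchanging two letters changes the sign. -/
theorem V_swap {l : List ℕ} (hl : l.Nodup) {x y : ℕ} (hx : x ∈ l) (hy : y ∈ l) (hxy : x ≠ y) :
    V (l.map (swap x y)) = - V l := by
  obtain ⟨i, hi, rfl⟩ := List.getElem_of_mem hx
  obtain ⟨j, hj, rfl⟩ := List.getElem_of_mem hy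
  have hij : i ≠ j := by
    rintro rfl
    exact hxy rfl
  unfold V
  rw [List.length_map]
  have hs : (Perm.sign (swap (⟨i, hi⟩ : Fin l.length) ⟨j, hj⟩) : ℤ) = -1 := by
    rw [Perm.sign_swap (by simpa using hij)]
    rfl
  rw [VL_perm l.length (fun i => (l.getD i 0 : ℤ)) _ (swap ⟨i, hi⟩ ⟨j, hj⟩), hs, neg_one_mul]
  intro k
  rw [getD_map' _ _ _ k.2, List.getD_eq_getElem _ _ k.2, List.getD_eq_getElem _ _ (Fin.is_lt _)]
  by_cases h1 : k = ⟨i, hi⟩
  · subst h1
    rw [swap_apply_left]
    simp only [swap_apply_left]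
  · by_cases h2 : k = ⟨j, hj⟩
    · subst h2
      rw [swap_apply_right]
      simp only [swap_apply_right]
    · have h3 : l[(k : ℕ)] ≠ l[i] := fun h => h1 (Fin.ext ((hl.getElem_inj_iff).1 h))
      have h4 : l[(k : ℕ)] ≠ l[j] := fun h => h2 (Fin.ext ((hl.getElem_inj_iff).1 h))
      rw [swap_apply_of_ne_of_ne h3 h4]
      simp only [swap_apply_of_ne_of_ne h1 h2]

theorem V_formPerm {l p : List ℕ} (hl : l.Nodup) (hp : p.Nodup) (hpl : p ⊆ l) :
    V (l.map (List.formPerm p)) = (-1) ^ (p.length - 1) * V l := by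
  induction p with
  | nil => simp
  | cons x p ih =>
    cases p with
    | nil => simp
    | cons y q =>
      rw [List.nodup_cons] at hp
      have ih' := ih hp.2 fun z hz => hpl (List.mem_cons_of_mem _ hz)
      rw [List.formPerm_cons_cons, Perm.coe_mul, ← List.map_map,
        V_swap (hl.map (Equiv.injective _)) _ _ _, ih']
      · simp only [List.length_cons]
        rw [Nat.add_sub_cancel, Nat.add_sub_cancel, pow_succ]
        ring
      · have h1 : List.formPerm (y :: q) x = x := List.formPerm_apply_of_notMem hp.1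
        rw [List.mem_map]
        exact ⟨x, hpl (List.mem_cons_self ..), h1⟩
      · rw [List.mem_map]
        obtain ⟨z, hz⟩ := (List.formPerm (y :: q)).surjective y
        refine ⟨z, ?_, hz⟩
        by_contra hn
        have hz2 : z ∉ y :: q := fun h => hn (hpl (List.mem_cons_of_mem _ h))
        rw [List.formPerm_apply_of_notMem hz2] at hz
        exact hz2 (hz ▸ List.mem_cons_self ..)
      · rintro rfl
        exact hp.1 (List.mem_cons_self ..)

theorem map_formPerm {p : List ℕ} (hp : p.Nodup) : p.map (List.formPerm p) = p.rotate 1 := by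
  apply List.ext_getElem
  · simp
  · intro i h1 h2
    rw [List.getElem_map, List.getElem_rotate, List.formPerm_apply_getElem p hp]

theorem V_rotate_one {l : List ℕ} (hl : l.Nodup) (hodd : Odd l.length) :
    V (l.rotate 1) = V l := by
  rw [← map_formPerm hl, V_formPerm hl hl (List.Subset.refl _)]
  obtain ⟨k, hk⟩ := hodd
  rw [hk, Nat.add_sub_cancel, pow_mul]
  norm_num

theorem V_rotate {l : List ℕ} (hl : l.Nodup) (hodd : Odd l.length) (k : ℕ) :
    V (l.rotate k) = V l := by
  induction k with
  | zero => rw [List.rotate_zero]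
  | succ k ih =>
    rw [← List.rotate_rotate, V_rotate_one (List.nodup_rotate.2 hl)
      (by rwa [List.length_rotate]), ih]

theorem V_isRotated {l l' : List ℕ} (hl : l.Nodup) (hodd : Odd l.length) (h : l ~r l') :
    V l' = V l := by
  obtain ⟨k, rfl⟩ := h
  exact V_rotate hl hodd k

theorem V_ne_zero {l : List ℕ} (hl : l.Nodup) : V l ≠ 0 := by
  unfold V VL
  rw [Finset.prod_ne_zero_iff]
  intro i _
  rw [Finset.prod_ne_zero_iff]
  intro j hj
  rw [Finset.mem_Ioi] at hj
  show ((l.getD j 0 : ℕ) : ℤ) - ((l.getD i 0 : ℕ) : ℤ) ≠ 0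
  rw [sub_ne_zero, List.getD_eq_getElem _ _ i.2, List.getD_eq_getElem _ _ j.2]
  intro h
  have h' : l[(j : ℕ)] = l[(i : ℕ)] := by exact_mod_cast h
  have := (hl.getElem_inj_iff).1 h'
  exact absurd (Fin.ext this) hj.ne'

/-- Words with the same relative order have the same sign. -/
theorem V_sameOrder {l l' : List ℕ} (hlen : l.length = l'.length)
    (h : ∀ i j, i < l.length → j < l.length →
      (l.getD i 0 < l.getD j 0 ↔ l'.getD i 0 < l'.getD j 0)) :
    0 < V l ↔ 0 < V l' := by
  have key : SignType.sign (V l) = SignType.sign (V l') := by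
    unfold V
    rw [← hlen]
    unfold VL
    have hs : ∀ x : ℤ, SignType.sign x = signHom x := fun x => rfl
    rw [hs, hs, map_prod, map_prod]
    refine Finset.prod_congr rfl fun i _ => ?_
    rw [map_prod, map_prod]
    refine Finset.prod_congr rfl fun j _ => ?_
    rw [← hs, ← hs]
    have h1 := h i j i.2 j.2
    have h2 := h j i j.2 i.2
    show SignType.sign (((l.getD j 0 : ℕ) : ℤ) - ((l.getD i 0 : ℕ) : ℤ)) =
      SignType.sign (((l'.getD j 0 : ℕ) : ℤ) - ((l'.getD i 0 : ℕ) : ℤ))
    rcases lt_trichotomy (l.getD i 0) (l.getD j 0) with h3 | h3 | h3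
    · have h4 := h1.1 h3
      rw [sign_pos (by omega), sign_pos (by omega)]
    · have h4 : l'.getD i 0 = l'.getD j 0 := by omega
      rw [h3, h4, sub_self, sub_self]
    · have h4 := h2.1 h3
      rw [sign_neg (by omega), sign_neg (by omega)]
  rw [← sign_eq_one_iff, ← sign_eq_one_iff, key]

/-- A relabelling that maps a given word to another. -/
theorem exists_relabel (l l' : List ℕ) (hl : l.Nodup) (hl' : l'.Nodup)
    (hlen : l.length = l'.length) : ∃ e : Perm ℕ, l.map e = l' := by
  induction l generalizing l' with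
  | nil =>
    cases l' with
    | nil => exact ⟨1, rfl⟩
    | cons a l' => simp at hlen
  | cons a l ih =>
    cases l' with
    | nil => simp at hlen
    | cons b l' =>
      rw [List.nodup_cons] at hl hl'
      obtain ⟨e, he⟩ := ih l' hl.2 hl'.2 (by simpa using hlen)
      refine ⟨swap (e a) b * e, ?_⟩
      rw [List.map_cons, Perm.mul_apply, swap_apply_left]
      congr 1
      rw [← he]
      apply List.map_congr_left
      intro x hx
      rw [Perm.mul_apply]
      apply swap_apply_of_ne_of_ne
      · intro h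
        exact hl.1 (e.injective h ▸ hx)
      · intro h
        apply hl'.1
        rw [← he, ← h]
        exact List.mem_map_of_mem hx

end Pool.Agent.R33.WordSign
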